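import Pool.Agent.TH794.LL2.Prob2

/-! The numerical part of the choice of the parameters. -/

set_option autoImplicit false

namespace Pool.Agent.TH794.LL2

open Pool.Agent.W788.BK.Num

/-- comparing exponentials -/
theorem hexle {y : ℝ} (hy1 : 1 ≤ y) (p q : ℝ) (hpq : p ≤ q) :
    Real.exp (p * y) ≤ Real.exp (q * y) := by
  apply Real.exp_le_exp.2
  exact mul_le_mul_of_nonneg_right hpq (by linarith)

theorem sqrt_ex (p q y : ℝ) (h : p = 2 * q) :
    Real.sqrt (Real.exp (p * y)) = Real.exp (q * y) := by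
  have : Real.exp (p * y) = Real.exp (q * y) ^ 2 := by
    rw [ex_pow, h]
    norm_num
  rw [this, Real.sqrt_sq (Real.exp_pos _).le]

/-- the two shell constant -/
theorem numQ (CQ y δ θ κ Q : ℝ) (hCQ : 0 ≤ CQ) (hy1 : 1 ≤ y)
    (hδ : δ = Real.exp (-(49 / 25) * y)) (hκ1 : κ ≤ 39 / 50)
    (hθ : θ = 1 / 2 * Real.exp (-κ * y))
    (hQ : Q = CQ * (49 / 25 * y) ^ 2 / Real.sqrt (δ * θ)) :
    Q ≤ 8 * CQ * y ^ 2 * Real.exp (137 / 100 * y) := by
  rw [hQ, div_eq_mul_inv]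
  have h1 : (Real.sqrt (δ * θ))⁻¹ ≤ 2 * Real.exp (137 / 100 * y) := by
    have h2 : (1 / 2 * Real.exp (-(137 / 100) * y)) ≤ Real.sqrt (δ * θ) := by
      apply Real.le_sqrt_of_sq_le
      have h3 : Real.exp (-(39 / 50) * y) ≤ Real.exp (-κ * y) := hexle hy1 _ _ (by linarith)
      calc (1 / 2 * Real.exp (-(137 / 100) * y)) ^ 2 =
          1 / 4 * (Real.exp (-(49 / 25) * y) * Real.exp (-(39 / 50) * y)) := by
            rw [mul_pow, ex_pow, ex_mul]
            norm_num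
        _ ≤ 1 / 4 * (Real.exp (-(49 / 25) * y) * Real.exp (-κ * y)) := by gcongr
        _ ≤ 1 / 2 * (Real.exp (-(49 / 25) * y) * Real.exp (-κ * y)) := by
            have : 0 < Real.exp (-(49 / 25) * y) * Real.exp (-κ * y) := by positivity
            linarith
        _ = _ := by
            rw [hδ, hθ]
            ring
    have h3 : (Real.sqrt (δ * θ))⁻¹ ≤ (1 / 2 * Real.exp (-(137 / 100) * y))⁻¹ :=
      inv_anti₀ (by positivity) h2
    refine h3.trans (le_of_eq ?_)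
    rw [mul_inv, ex_inv]
    norm_num
  calc CQ * (49 / 25 * y) ^ 2 * (Real.sqrt (δ * θ))⁻¹ ≤
      CQ * (2 * y) ^ 2 * (2 * Real.exp (137 / 100 * y)) := by
        have : 49 / 25 * y ≤ 2 * y := by linarith
        gcongr
    _ = _ := by ring

/-- the conditions of the perturbation theory -/
theorem numK (d : ℕ) (b c A1 CQ K K6 y : ℝ) (hN : NumOK2 d b c A1 CQ K K6 y) (hb : 0 < b)
    (hCQ : 0 < CQ) (hA10 : 0 < A1)
    (β a v2 Q s2 cnt N η δ : ℝ) (hββ : β = b * Real.exp (-1 * y)) (ha0 : 0 ≤ a)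
    (ha1 : a ≤ A1 * y) (hAy1 : 1 ≤ A1 * y) (hv20 : 0 ≤ v2)
    (hv21 : v2 ≤ A1 * y * Real.exp (49 / 25 * y)) (hQ0 : 0 ≤ Q)
    (hQ1 : Q ≤ 8 * CQ * y ^ 2 * Real.exp (137 / 100 * y)) (hs2β : s2 ≤ β ^ 2)
    (hN0 : 0 < N) (hcnt1 : 1 ≤ cnt) (hcnt2 : cnt ≤ 2 * Real.exp (-(117 / 50) * y) * N)
    (hη : η = Real.exp (-(3 / 20) * y)) (htηδ : η * δ = Real.exp (-(211 / 100) * y)) :
    β * a ≤ η ∧ β ^ 2 * v2 ≤ 1 ∧
    4 * β ^ 3 * a * v2 / η ^ 3 + s2 * (2 * β * Q * Real.sqrt v2 / η ^ 4) ≤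
      Real.exp (-(1 / 25) * y) ∧
    s2 * cnt ≤ Real.exp (-(1 / 10) * y) * (η ^ 2 * δ ^ 2) * N ∧
    2 * β ^ 2 / η ^ 2 * (Q + a ^ 2 / η ^ 2) ≤ Real.exp (-(3 / 20) * y) ^ 2 := by
  have hy1 := hN.y1
  have hηinv : η⁻¹ = Real.exp (3 / 20 * y) := by
    rw [hη, ex_inv]
    norm_num
  have hη0 : 0 < η := by rw [hη]; positivity
  have hβ0 : 0 < β := by rw [hββ]; positivity
  refine ⟨?_, ?_, ?_, ?_, ?_⟩
  · calc β * a ≤ (b * Real.exp (-1 * y)) * (A1 * y) := by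
          rw [hββ]
          gcongr
      _ = b * A1 * y * Real.exp (-1 * y) := by ring
      _ ≤ η := by
          rw [hη]
          exact hN.n7
  · calc β ^ 2 * v2 ≤ (b * Real.exp (-1 * y)) ^ 2 * (A1 * y * Real.exp (49 / 25 * y)) := by
          rw [hββ]
          gcongr
      _ = b ^ 2 * A1 * y * (Real.exp (-1 * y) ^ 2 * Real.exp (49 / 25 * y)) := by ring
      _ = b ^ 2 * A1 * y * Real.exp (-(1 / 25) * y) := by
          rw [ex_pow, ex_mul]
          norm_num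
      _ ≤ 1 := hN.n8
  · have hsv : Real.sqrt v2 ≤ A1 * y * Real.exp (49 / 50 * y) := by
      rw [Real.sqrt_le_left (by positivity)]
      calc v2 ≤ A1 * y * Real.exp (49 / 25 * y) := hv21
        _ ≤ (A1 * y) * (A1 * y) * Real.exp (49 / 25 * y) := by
            have : A1 * y * 1 ≤ (A1 * y) * (A1 * y) := by gcongr
            rw [mul_one] at this
            gcongr
        _ = (A1 * y * Real.exp (49 / 50 * y)) ^ 2 := by
            rw [mul_pow, ex_pow]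
            norm_num
            ring
    have h1 : 4 * β ^ 3 * a * v2 / η ^ 3 ≤ 1 / 2 * Real.exp (-(1 / 25) * y) := by
      calc 4 * β ^ 3 * a * v2 / η ^ 3 = 4 * β ^ 3 * a * v2 * (η⁻¹) ^ 3 := by
            rw [inv_pow, div_eq_mul_inv]
        _ ≤ 4 * (b * Real.exp (-1 * y)) ^ 3 * (A1 * y) * (A1 * y * Real.exp (49 / 25 * y)) *
            (Real.exp (3 / 20 * y)) ^ 3 := by
            rw [hββ, hηinv]
            gcongr
        _ = 1 / 2 * (8 * b ^ 3 * A1 ^ 2 * y ^ 2 * (Real.exp (-1 * y) ^ 3 *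
            Real.exp (49 / 25 * y) * Real.exp (3 / 20 * y) ^ 3)) := by ring
        _ = 1 / 2 * (8 * b ^ 3 * A1 ^ 2 * y ^ 2 * Real.exp (-(59 / 100) * y)) := by
            rw [ex_pow, ex_pow, ex_mul, ex_mul]
            norm_num
        _ ≤ _ := by linarith [hN.n9]
    have h2 : s2 * (2 * β * Q * Real.sqrt v2 / η ^ 4) ≤ 1 / 2 * Real.exp (-(1 / 25) * y) := by
      calc s2 * (2 * β * Q * Real.sqrt v2 / η ^ 4) =
            s2 * (2 * β * Q * Real.sqrt v2 * (η⁻¹) ^ 4) := by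
            rw [inv_pow, div_eq_mul_inv]
        _ ≤ (b * Real.exp (-1 * y)) ^ 2 * (2 * (b * Real.exp (-1 * y)) *
            (8 * CQ * y ^ 2 * Real.exp (137 / 100 * y)) * (A1 * y * Real.exp (49 / 50 * y)) *
            (Real.exp (3 / 20 * y)) ^ 4) := by
            rw [hββ] at hs2β ⊢
            rw [hηinv]
            gcongr
        _ = 1 / 2 * (32 * b ^ 3 * CQ * A1 * y ^ 3 * (Real.exp (-1 * y) ^ 2 * Real.exp (-1 * y) *
            Real.exp (137 / 100 * y) * Real.exp (49 / 50 * y) * Real.exp (3 / 20 * y) ^ 4)) := by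
            ring
        _ = 1 / 2 * (32 * b ^ 3 * CQ * A1 * y ^ 3 * Real.exp (-(1 / 20) * y)) := by
            rw [ex_pow, ex_pow, ex_mul, ex_mul, ex_mul, ex_mul]
            norm_num
        _ ≤ _ := by linarith [hN.n10]
    linarith
  · calc s2 * cnt ≤ (b * Real.exp (-1 * y)) ^ 2 * (2 * Real.exp (-(117 / 50) * y) * N) := by
          rw [hββ] at hs2β
          gcongr
      _ = 2 * b ^ 2 * (Real.exp (-1 * y) ^ 2 * Real.exp (-(117 / 50) * y)) * N := by ring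
      _ = 2 * b ^ 2 * (Real.exp (-(1 / 50) * y) * Real.exp (-(108 / 25) * y)) * N := by
          have hx : Real.exp (-1 * y) ^ 2 * Real.exp (-(117 / 50) * y) =
              Real.exp (-(1 / 50) * y) * Real.exp (-(108 / 25) * y) := by
            rw [ex_pow, ex_mul, ex_mul]
            norm_num
          rw [hx]
      _ = 2 * b ^ 2 * Real.exp (-(1 / 50) * y) * Real.exp (-(108 / 25) * y) * N := by ring
      _ ≤ 1 * Real.exp (-(108 / 25) * y) * N := by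
          have := hN.n11
          gcongr
      _ = Real.exp (-(1 / 10) * y) * (η ^ 2 * δ ^ 2) * N := by
          have : Real.exp (-(1 / 10) * y) * (η ^ 2 * δ ^ 2) = Real.exp (-(108 / 25) * y) := by
            rw [← mul_pow, htηδ, ex_pow, ex_mul]
            norm_num
          rw [this]
          ring
  · have h1 : 2 * β ^ 2 * (η⁻¹) ^ 2 * Q ≤ 1 / 2 * Real.exp (-(3 / 10) * y) := by
      calc 2 * β ^ 2 * (η⁻¹) ^ 2 * Q ≤ 2 * (b * Real.exp (-1 * y)) ^ 2 *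
            (Real.exp (3 / 20 * y)) ^ 2 * (8 * CQ * y ^ 2 * Real.exp (137 / 100 * y)) := by
            rw [hββ, hηinv]
            gcongr
        _ = 1 / 2 * (32 * b ^ 2 * CQ * y ^ 2 * (Real.exp (-1 * y) ^ 2 *
            Real.exp (3 / 20 * y) ^ 2 * Real.exp (137 / 100 * y))) := by ring
        _ = 1 / 2 * (32 * b ^ 2 * CQ * y ^ 2 * Real.exp (-(33 / 100) * y)) := by
            rw [ex_pow, ex_pow, ex_mul, ex_mul]
            norm_num
        _ ≤ _ := by linarith [hN.n12]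
    have h2 : 2 * β ^ 2 * (η⁻¹) ^ 2 * (a ^ 2 * (η⁻¹) ^ 2) ≤ 1 / 2 * Real.exp (-(3 / 10) * y) := by
      calc 2 * β ^ 2 * (η⁻¹) ^ 2 * (a ^ 2 * (η⁻¹) ^ 2) ≤ 2 * (b * Real.exp (-1 * y)) ^ 2 *
            (Real.exp (3 / 20 * y)) ^ 2 * ((A1 * y) ^ 2 * (Real.exp (3 / 20 * y)) ^ 2) := by
            rw [hββ, hηinv]
            gcongr
        _ = 1 / 2 * (4 * b ^ 2 * A1 ^ 2 * y ^ 2 * (Real.exp (-1 * y) ^ 2 *
            Real.exp (3 / 20 * y) ^ 2 * Real.exp (3 / 20 * y) ^ 2)) := by ring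
        _ = 1 / 2 * (4 * b ^ 2 * A1 ^ 2 * y ^ 2 * Real.exp (-(7 / 5) * y)) := by
            rw [ex_pow, ex_pow, ex_mul, ex_mul]
            norm_num
        _ ≤ _ := by linarith [hN.n13]
    have h3 : Real.exp (-(3 / 20) * y) ^ 2 = Real.exp (-(3 / 10) * y) := by
      rw [ex_pow]
      norm_num
    rw [h3]
    calc 2 * β ^ 2 / η ^ 2 * (Q + a ^ 2 / η ^ 2) = 2 * β ^ 2 * (η⁻¹) ^ 2 * Q +
          2 * β ^ 2 * (η⁻¹) ^ 2 * (a ^ 2 * (η⁻¹) ^ 2) := by
          rw [inv_pow, div_eq_mul_inv, div_eq_mul_inv]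
          ring
      _ ≤ _ := by linarith

/-- the error of the mean -/
theorem numM (d : ℕ) (b c A1 CQ K K6 y : ℝ) (hN : NumOK2 d b c A1 CQ K K6 y) (hb : 0 < b)
    (hA10 : 0 < A1) (hK60 : 0 ≤ K6)
    (β s2 g η δ x4 : ℝ) (hββ : β = b * Real.exp (-1 * y)) (hg0 : 0 ≤ g)
    (hgA : g ≤ A1 * y) (hs20 : 0 ≤ s2) (hs2β : s2 ≤ β ^ 2)
    (hη : η = Real.exp (-(3 / 20) * y)) (hδ : δ = Real.exp (-(49 / 25) * y))
    (hx4e : x4 ≤ Real.exp (-1 * y)) :
    4 / 3 * (Real.exp (-(1 / 25) * y) + Real.exp (-(1 / 10) * y) +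
      (2 * η + 8 * s2 ^ 2 * g ^ 2 / δ ^ 2)) * g +
      (K6 * (s2 * (2 * g)) ^ (1 / 4 : ℝ) + x4) ≤ Real.exp (-(1 / 50) * y) := by
  have hy1 := hN.y1
  have hδinv : δ⁻¹ = Real.exp (49 / 25 * y) := by
    rw [hδ, ex_inv]
    norm_num
  obtain ⟨ε, hε⟩ : ∃ ε, ε = Real.exp (-(1 / 25) * y) := ⟨_, rfl⟩
  obtain ⟨e1, he1⟩ : ∃ e1, e1 = Real.exp (-(1 / 10) * y) := ⟨_, rfl⟩
  obtain ⟨x2, hx2⟩ : ∃ x2, x2 = Real.exp (-(1 / 50) * y) := ⟨_, rfl⟩
  rw [← hε, ← he1, ← hx2]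
  have hε0 : 0 < ε := by rw [hε]; positivity
  have h1 : 4 / 3 * (ε + e1 + 2 * η) * g ≤ 1 / 4 * x2 := by
    have f1 : e1 ≤ ε := by
      rw [he1, hε]
      exact hexle hy1 _ _ (by norm_num)
    have f2 : η ≤ ε := by
      rw [hη, hε]
      exact hexle hy1 _ _ (by norm_num)
    calc 4 / 3 * (ε + e1 + 2 * η) * g ≤ 4 / 3 * (ε + ε + 2 * ε) * (A1 * y) := by gcongr
      _ ≤ 1 / 4 * (24 * A1 * y * ε) := by
          have : 0 ≤ A1 * y * ε := by positivity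
          linarith
      _ ≤ 1 / 4 * x2 := by
          rw [hε, hx2]
          linarith [hN.n14]
  have h2 : 4 / 3 * (8 * s2 ^ 2 * g ^ 2 / δ ^ 2) * g ≤ 1 / 4 * x2 := by
    calc 4 / 3 * (8 * s2 ^ 2 * g ^ 2 / δ ^ 2) * g =
          32 / 3 * (s2 ^ 2 * g ^ 3 * (δ⁻¹) ^ 2) := by
          rw [inv_pow, div_eq_mul_inv]
          ring
      _ ≤ 32 / 3 * (((b * Real.exp (-1 * y)) ^ 2) ^ 2 * (A1 * y) ^ 3 *
          (Real.exp (49 / 25 * y)) ^ 2) := by
          rw [hββ] at hs2β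
          rw [hδinv]
          gcongr
      _ = 32 / 3 * (b ^ 4 * A1 ^ 3 * y ^ 3 * (Real.exp (-1 * y) ^ 4 *
          Real.exp (49 / 25 * y) ^ 2)) := by ring
      _ = 32 / 3 * (b ^ 4 * A1 ^ 3 * y ^ 3 * Real.exp (-(2 / 25) * y)) := by
          rw [ex_pow, ex_pow, ex_mul]
          norm_num
      _ ≤ 1 / 4 * (48 * b ^ 4 * A1 ^ 3 * y ^ 3 * Real.exp (-(2 / 25) * y)) := by
          have : 0 ≤ b ^ 4 * A1 ^ 3 * y ^ 3 * Real.exp (-(2 / 25) * y) := by positivity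
          linarith
      _ ≤ 1 / 4 * x2 := by
          rw [hx2]
          linarith [hN.n15]
  have h3 : K6 * (s2 * (2 * g)) ^ (1 / 4 : ℝ) ≤ 1 / 4 * x2 := by
    have f1 : s2 * (2 * g) ≤ Real.exp (-1 * y) := by
      calc s2 * (2 * g) ≤ (b * Real.exp (-1 * y)) ^ 2 * (2 * (A1 * y)) := by
            rw [hββ] at hs2β
            gcongr
        _ = 2 * b ^ 2 * A1 * y * Real.exp (-2 * y) := by
            rw [mul_pow, ex_pow]
            norm_num
            ring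
        _ ≤ _ := hN.n18
    have f2 : (s2 * (2 * g)) ^ (1 / 4 : ℝ) ≤ Real.exp (-(1 / 4) * y) := by
      refine (Real.rpow_le_rpow (by positivity) f1 (by norm_num)).trans (le_of_eq ?_)
      rw [← Real.exp_mul]
      congr 1
      ring
    calc K6 * (s2 * (2 * g)) ^ (1 / 4 : ℝ) ≤ K6 * Real.exp (-(1 / 4) * y) := by gcongr
      _ ≤ 1 / 4 * x2 := by
          rw [hx2]
          linarith [hN.n16]
  have h4 : x4 ≤ 1 / 4 * x2 := by
    rw [hx2]
    linarith [hN.n17]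
  have h5 : 4 / 3 * (ε + e1 + (2 * η + 8 * s2 ^ 2 * g ^ 2 / δ ^ 2)) * g =
      4 / 3 * (ε + e1 + 2 * η) * g + 4 / 3 * (8 * s2 ^ 2 * g ^ 2 / δ ^ 2) * g := by ring
  rw [h5]
  linarith

/-- the conditions of the deterministic part -/
theorem numC (d : ℕ) (b c A1 CQ K K6 y : ℝ) (hN : NumOK2 d b c A1 CQ K K6 y)
    (hA10 : 0 < A1) (hK3 : 3 ≤ K) (g1 η δ t kf ρ ζ τ e2 e3 : ℝ)
    (hg1A : g1 ≤ A1 * y) (hAy1 : 1 ≤ A1 * y)
    (hη : η = Real.exp (-(3 / 20) * y)) (hη1 : 128 * η ≤ 1)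
    (hδ : δ = Real.exp (-(49 / 25) * y)) (ht : t = Real.exp (-(211 / 100) * y))
    (hkf : kf = Real.exp (-(3 / 250) * y)) (hρ : ρ = 2 * d * Real.exp (-(289 / 100) * y))
    (hζ : ζ = Real.exp (-(633 / 100) * y)) (hτ : τ = Real.exp (-(43 / 20) * y))
    (he2 : e2 = Real.exp (-(3 / 200) * y)) (he3 : e3 = Real.exp (-(11 / 1000) * y)) :
    K * (τ / t + 2 * (kf + η)) ≤ 1 / 2 ∧
    K * (2 * (Real.sqrt η * Real.sqrt g1) + 3 * ((2 * (ρ + ζ * t⁻¹)) / Real.sqrt t)) ≤ 1 / 2 ∧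
    (2 * (ρ + ζ * t⁻¹)) / t ≤ 1 / 2 ∧
    (2 * (kf + η) + 1) * Real.sqrt δ ≤ 1 / 2 ∧
    K * ((τ / t + 2 * (kf + η)) * (2 * K + 4) +
      (2 * (Real.sqrt η * Real.sqrt g1) + 3 * ((2 * (ρ + ζ * t⁻¹)) /
      Real.sqrt t))) + e2 + ζ / t ^ 2 ≤ e3 ∧
    t * (4 * Real.sqrt g1 + 4 * (ρ / Real.sqrt δ)) ^ 2 +
      (4 * Real.sqrt g1 + 4 * (ρ / Real.sqrt δ)) * ρ + t ≤ e3 := by
  have hy1 := hN.y1
  have hη0 : 0 < η := by rw [hη]; positivity
  have hkf0 : 0 < kf := by rw [hkf]; positivity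
  have hρ0 : 0 ≤ ρ := by rw [hρ]; positivity
  have ht0 : 0 < t := by rw [ht]; positivity
  have hζ0 : 0 < ζ := by rw [hζ]; positivity
  have hτ0 : 0 < τ := by rw [hτ]; positivity
  have htinv : t⁻¹ = Real.exp (211 / 100 * y) := by
    rw [ht, ex_inv]
    norm_num
  have hKkf : 10 * K * kf ≤ 1 := by rw [hkf]; exact hN.n24
  have hkf30 : 30 * kf ≤ 1 := by
    have : 3 * kf ≤ K * kf := mul_le_mul_of_nonneg_right hK3 hkf0.le
    linarith
  have q1 : τ / t = Real.exp (-(1 / 25) * y) := by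
    rw [div_eq_mul_inv, htinv, hτ, ex_mul]
    norm_num
  have q2 : τ / t + 2 * (kf + η) ≤ 5 * kf := by
    have f1 : Real.exp (-(1 / 25) * y) ≤ kf := by
      rw [hkf]
      exact hexle hy1 _ _ (by norm_num)
    have f2 : η ≤ kf := by
      rw [hη, hkf]
      exact hexle hy1 _ _ (by norm_num)
    rw [q1]
    linarith
  have q2' : 0 ≤ τ / t + 2 * (kf + η) := by positivity
  have hsη : Real.sqrt η = Real.exp (-(3 / 40) * y) := by
    rw [hη]
    exact sqrt_ex _ _ y (by norm_num)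
  have hsg1 : Real.sqrt g1 ≤ A1 * y := by
    rw [Real.sqrt_le_left (by positivity)]
    calc g1 ≤ A1 * y * 1 := by linarith
      _ ≤ A1 * y * (A1 * y) := by gcongr
      _ = _ := by ring
  have hst : Real.sqrt t = Real.exp (-(211 / 200) * y) := by
    rw [ht]
    exact sqrt_ex _ _ y (by norm_num)
  have hsδ : Real.sqrt δ = Real.exp (-(49 / 50) * y) := by
    rw [hδ]
    exact sqrt_ex _ _ y (by norm_num)
  have q3 : 2 * (ρ + ζ * t⁻¹) ≤ 2 * (2 * d + 1) * Real.exp (-(289 / 100) * y) := by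
    have f1 : ζ * t⁻¹ ≤ Real.exp (-(289 / 100) * y) := by
      rw [hζ, htinv, ex_mul]
      exact hexle hy1 _ _ (by norm_num)
    rw [hρ]
    linarith
  have q3' : 0 ≤ 2 * (ρ + ζ * t⁻¹) := by positivity
  have q4 : (2 * (ρ + ζ * t⁻¹)) / Real.sqrt t ≤ 2 * (2 * d + 1) * Real.exp (-(367 / 200) * y) := by
    rw [div_eq_mul_inv, hst, ex_inv]
    calc 2 * (ρ + ζ * t⁻¹) * Real.exp (- -(211 / 200) * y) ≤
        2 * (2 * d + 1) * Real.exp (-(289 / 100) * y) * Real.exp (- -(211 / 200) * y) := by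
          gcongr
      _ = _ := by
          rw [mul_assoc, ex_mul]
          norm_num
  have q5 : 2 * (Real.sqrt η * Real.sqrt g1) + 3 * ((2 * (ρ + ζ * t⁻¹)) / Real.sqrt t) ≤ kf := by
    have f1 : 2 * (Real.sqrt η * Real.sqrt g1) ≤ 1 / 2 * kf := by
      calc 2 * (Real.sqrt η * Real.sqrt g1) ≤ 2 * (Real.exp (-(3 / 40) * y) * (A1 * y)) := by
            rw [hsη]
            gcongr
        _ = 1 / 2 * (4 * A1 * y * Real.exp (-(3 / 40) * y)) := by ring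
        _ ≤ _ := by
            rw [hkf]
            linarith [hN.n22]
    have f2 : 3 * ((2 * (ρ + ζ * t⁻¹)) / Real.sqrt t) ≤ 1 / 2 * kf := by
      calc 3 * ((2 * (ρ + ζ * t⁻¹)) / Real.sqrt t) ≤
            3 * (2 * (2 * d + 1) * Real.exp (-(367 / 200) * y)) := by gcongr
        _ = 1 / 2 * (12 * (2 * d + 1) * Real.exp (-(367 / 200) * y)) := by ring
        _ ≤ _ := by
            rw [hkf]
            linarith [hN.n23]
    linarith
  have q6 : ζ / t ^ 2 = t := by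
    rw [div_eq_mul_inv, ← inv_pow, htinv, hζ, ht, ex_pow, ex_mul]
    norm_num
  refine ⟨?_, ?_, ?_, ?_, ?_, ?_⟩
  · calc K * (τ / t + 2 * (kf + η)) ≤ K * (5 * kf) := by gcongr
      _ ≤ 1 / 2 := by linarith
  · have f1 := mul_le_mul_of_nonneg_left q5 (show 0 ≤ K by linarith)
    have f2 : 0 < K * kf := by positivity
    linarith
  · rw [div_eq_mul_inv, htinv]
    rw [htinv] at q3
    calc 2 * (ρ + ζ * Real.exp (211 / 100 * y)) * Real.exp (211 / 100 * y) ≤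
        2 * (2 * d + 1) * Real.exp (-(289 / 100) * y) * Real.exp (211 / 100 * y) := by gcongr
      _ = 1 / 2 * (4 * (2 * d + 1) * (Real.exp (-(289 / 100) * y) *
          Real.exp (211 / 100 * y))) := by ring
      _ = 1 / 2 * (4 * (2 * d + 1) * Real.exp (-(39 / 50) * y)) := by
          rw [ex_mul]
          norm_num
      _ ≤ 1 / 2 := by linarith [hN.n25]
  · rw [hsδ]
    calc (2 * (kf + η) + 1) * Real.exp (-(49 / 50) * y) ≤ 5 * Real.exp (-(49 / 50) * y) := by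
          apply mul_le_mul_of_nonneg_right _ (Real.exp_pos _).le
          linarith
      _ ≤ 1 / 2 := by linarith [hN.n26]
  · have ht_kf : t ≤ kf := by
      rw [ht, hkf]
      exact hexle hy1 _ _ (by norm_num)
    have he2_kf : e2 ≤ kf := by
      rw [he2, hkf]
      exact hexle hy1 _ _ (by norm_num)
    rw [q6]
    calc K * ((τ / t + 2 * (kf + η)) * (2 * K + 4) +
        (2 * (Real.sqrt η * Real.sqrt g1) + 3 * ((2 * (ρ + ζ * t⁻¹)) / Real.sqrt t))) + e2 + t ≤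
        K * ((5 * kf) * (2 * K + 4) + kf) + kf + kf := by gcongr
      _ = (K * (10 * K + 21) + 2) * kf := by ring
      _ ≤ e3 := by
          rw [hkf, he3]
          exact hN.n27
  · have f1 : ρ / Real.sqrt δ ≤ 2 * d * y := by
      rw [div_eq_mul_inv, hsδ, ex_inv, hρ, mul_assoc, ex_mul]
      have f2 : Real.exp ((-(289 / 100) + - -(49 / 50)) * y) ≤ y := by
        have f3 : Real.exp ((-(289 / 100) + - -(49 / 50)) * y) ≤ 1 :=
          Real.exp_le_one_iff.2 (by linarith)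
        linarith
      gcongr
    have f4 : 4 * Real.sqrt g1 + 4 * (ρ / Real.sqrt δ) ≤ (4 * A1 + 8 * d) * y := by linarith
    have f5 : ρ ≤ 2 * d * t := by
      rw [hρ, ht]
      have := hexle hy1 (-(289 / 100)) (-(211 / 100)) (by norm_num)
      gcongr
    have f6 : 0 ≤ 4 * Real.sqrt g1 + 4 * (ρ / Real.sqrt δ) := by positivity
    calc t * (4 * Real.sqrt g1 + 4 * (ρ / Real.sqrt δ)) ^ 2 +
        (4 * Real.sqrt g1 + 4 * (ρ / Real.sqrt δ)) * ρ + t ≤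
        t * ((4 * A1 + 8 * d) * y) ^ 2 + ((4 * A1 + 8 * d) * y) * (2 * d * t) + t := by gcongr
      _ = ((4 * A1 + 8 * d) ^ 2 * y ^ 2 + 2 * d * (4 * A1 + 8 * d) * y + 1) * t := by ring
      _ ≤ ((4 * A1 + 8 * d) ^ 2 * y ^ 2 + 2 * d * (4 * A1 + 8 * d) * y ^ 2 + 1 * y ^ 2) * t := by
          have g1' : y ≤ y ^ 2 := le_self_pow₀ hy1 (by norm_num)
          have g2' : (1 : ℝ) ≤ 1 * y ^ 2 := by
            rw [one_mul]
            exact one_le_pow₀ hy1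
          gcongr
      _ = ((4 * A1 + 8 * d) ^ 2 + 2 * d * (4 * A1 + 8 * d) + 1) * y ^ 2 *
          Real.exp (-(211 / 100) * y) := by
          rw [ht]
          ring
      _ ≤ e3 := by
          rw [he3]
          exact hN.n28

end Pool.Agent.TH794.LL2
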