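import Pool.Agent.TH794.LL2.Lat3
import Pool.Agent.TH794.LL2.ParN
import Pool.Agent.W788.BK.Param

/-! The choice of the parameters for the local law. -/

set_option autoImplicit false
set_option linter.unusedSectionVars false

open scoped BigOperators Matrix
open MeasureTheory

namespace Pool.Agent.TH794.LL2

open Pool.Agent.W788.BK
open Pool.Agent.W788.MFP.Four (T e NN adj K ft Op q NN_pos e_zero)
open Pool.Agent.W788.MF2.Dom Pool.Agent.W788.MF2.FormG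
open Pool.Agent.H4R2.LO (Zd)
open Pool.Agent.W788.BK.Num

/-- the constant of the theorem -/
noncomputable def KK (d : ℕ) : ℝ := 3 + 2 * 10 ^ d * K5

theorem KK_ge (d : ℕ) : 3 ≤ KK d := by
  have := K5_nonneg
  unfold KK
  have : 0 ≤ 2 * 10 ^ d * K5 := by positivity
  linarith

/-- **the engine** -/
theorem engine2 (hES : S_ES) (hTH : S_THIRD) (hFL : S_FLUCT) (hIN : S_INV) (hO : S_OSC)
    (hSU : S_SUP) (hQB : S_QB) (hLO : S_LOW) (hAD : S_ADM)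
    (d : ℕ) (hd : 3 ≤ d) (b : ℝ) (hb : 0 < b) : ∃ y0 : ℝ, ∀ y : ℝ, y0 ≤ y →
    ∀ (ν : Measure ℝ), IsProbabilityMeasure ν → (∀ᵐ s ∂ν, |s| ≤ b) → ∫ s, s ∂ν = 0 →
    ∃ (Gf : ℝ → ℝ) (G : Set (Zd d → ℝ)), MeasurableSet G ∧
      1 - Real.exp (-Real.exp (y / 100)) ≤ (Measure.infinitePi fun _ : Zd d => ν).real G ∧
      (∀ E, |Gf E| ≤ KK d) ∧
      (∀ E E', |Gf E - Gf E'| ≤ KK d * |E - E'| ^ (1 / 4 : ℝ) + Real.exp (-(11 / 1000) * y)) ∧
      (∀ ξ ∈ G, LLaw d (Real.exp (-1 * y)) (Real.exp (Real.exp (y / 100)))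
        (Real.exp (-(211 / 100) * y)) (Real.exp (-(11 / 1000) * y)) Gf ξ) ∧
      (∀ (σ : ℝ) (ξ : Zd d → ℝ) (a : Zd d) (E : ℝ) (ur ui : Zd d → ℝ), (∀ x, σ * ξ x = 0) →
        LG d σ ξ a E (Real.exp (-(211 / 100) * y)) ur ui →
        |ui a - Gf E| ≤ Real.exp (-(11 / 1000) * y)) := by
  obtain ⟨CQ, hCQ, hqb⟩ := hQB
  obtain ⟨A1, hA1⟩ : ∃ A1, A1 = 3 * C1 + 2 := ⟨_, rfl⟩
  obtain ⟨c, hc⟩ : ∃ c, c = b / m1 := ⟨_, rfl⟩
  obtain ⟨K, hK⟩ : ∃ K, K = KK d := ⟨_, rfl⟩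
  obtain ⟨K6, hK6⟩ : ∃ K6, K6 = 2 * 10 ^ d * K5 := ⟨_, rfl⟩
  obtain ⟨y0, hy0⟩ := Filter.eventually_atTop.1 (numOK2 d b c A1 CQ K K6 hb)
  refine ⟨y0, fun y hy ν hν hνb hν0 => ?_⟩
  have hN := hy0 y hy
  have hC1 := C1_ge
  have hd3 : (3 : ℝ) ≤ d := by exact_mod_cast hd
  have hy1 := hN.y1
  have hK3 : 3 ≤ K := by rw [hK]; exact KK_ge d
  have hK60 : 0 ≤ K6 := by
    rw [hK6]
    have := K5_nonneg
    positivity
  have hKK6 : K = 3 + K6 := by rw [hK, hK6, KK]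
  -- the parameters
  obtain ⟨σ, hσ⟩ : ∃ σ, σ = Real.exp (-1 * y) := ⟨_, rfl⟩
  obtain ⟨δ, hδ⟩ : ∃ δ, δ = Real.exp (-(49 / 25) * y) := ⟨_, rfl⟩
  obtain ⟨η, hη⟩ : ∃ η, η = Real.exp (-(3 / 20) * y) := ⟨_, rfl⟩
  obtain ⟨t, ht⟩ : ∃ t, t = Real.exp (-(211 / 100) * y) := ⟨_, rfl⟩
  have htηδ : η * δ = t := by
    rw [hη, hδ, ht, ex_mul]
    norm_num
  obtain ⟨κ, hκ⟩ : ∃ κ : ℝ, κ = 117 / (50 * d) := ⟨_, rfl⟩
  have hκ1 : κ ≤ 39 / 50 := by
    rw [hκ, div_le_div_iff₀ (by positivity) (by norm_num)]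
    linarith
  have hκ0 : 0 < κ := by rw [hκ]; positivity
  have hκd : d * κ = 117 / 50 := by
    rw [hκ]
    field_simp
  obtain ⟨θ, hθ⟩ : ∃ θ, θ = 1 / 2 * Real.exp (-κ * y) := ⟨_, rfl⟩
  obtain ⟨L, hL⟩ : ∃ L : ℕ, L = ⌈Real.exp (6 * y)⌉₊ := ⟨_, rfl⟩
  have hσ0 : 0 < σ := by rw [hσ]; positivity
  have hδ0 : 0 < δ := by rw [hδ]; positivity
  have hη0 : 0 < η := by rw [hη]; positivity
  have ht0 : 0 < t := by rw [ht]; positivity
  have hθ0 : 0 < θ := by rw [hθ]; positivity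
  have hη128 : 128 * η ≤ 1 := by
    rw [hη]
    exact hN.n1
  have hη1 : η ≤ 1 := by linarith
  have hδ2 : δ ≤ 1 / 2 := by
    rw [hδ]
    linarith [hN.n2]
  have hL1 : Real.exp (6 * y) ≤ L := by
    rw [hL]
    exact Nat.le_ceil _
  have hL2 : (L : ℝ) ≤ Real.exp (7 * y) := by
    have h1 := Nat.ceil_lt_add_one (show 0 ≤ Real.exp (6 * y) by positivity)
    rw [← hL] at h1
    have h2 := hN.n30
    have h3 : (1 : ℝ) ≤ Real.exp (6 * y) := Real.one_le_exp (by linarith)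
    linarith
  have hLp : (0 : ℝ) < L := lt_of_lt_of_le (by positivity) hL1
  have hLne : NeZero L := ⟨by
    intro h0
    rw [h0] at hLp
    simp at hLp⟩
  have hθ1 : θ ≤ 1 := by
    rw [hθ]
    have : Real.exp (-κ * y) ≤ 1 := Real.exp_le_one_iff.2 (by nlinarith)
    linarith
  have hθd : (2 * θ) ^ d = Real.exp (-(117 / 50) * y) := by
    rw [hθ, ← mul_assoc]
    norm_num
    rw [← neg_mul, ex_pow]
    congr 1
    rw [mul_neg, hκd]
    ring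
  have hθL : 1 ≤ θ * L := by
    have h1 := hN.n6
    have h2 : Real.exp (κ * y) ≤ Real.exp (39 / 50 * y) := by
      apply Real.exp_le_exp.2
      apply mul_le_mul_of_nonneg_right hκ1
      linarith
    have h3 : Real.exp (-κ * y) * Real.exp (κ * y) = 1 := by
      rw [ex_mul]
      simp
    calc (1 : ℝ) = 1 / 2 * (Real.exp (-κ * y) * (2 * Real.exp (κ * y))) := by
          linear_combination (-1) * h3
      _ ≤ 1 / 2 * (Real.exp (-κ * y) * L) := by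
          have : 2 * Real.exp (κ * y) ≤ L := by linarith
          gcongr
      _ = _ := by rw [hθ]; ring
  -- the momenta
  obtain ⟨N, hNdef⟩ : ∃ N, N = NN d L := ⟨_, rfl⟩
  have hN0 : 0 < N := by rw [hNdef]; exact NN_pos
  obtain ⟨cnt, hcnt⟩ : ∃ cnt, cnt = ∑ Q : T d L, (1 - hi θ Q) := ⟨_, rfl⟩
  have hcnt1 : 1 ≤ cnt := by rw [hcnt]; exact cnt_ge θ
  have hcnt2 : cnt ≤ 2 * Real.exp (-(117 / 50) * y) * N := by
    rw [hcnt, hNdef, ← hθd]
    exact hLO d L θ hθ0.le hθ1 hθL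
  have hLδ : 1 / (L : ℝ) ≤ t := by
    rw [div_le_iff₀ hLp]
    have h1 : Real.exp (-(211 / 100) * y) * Real.exp (6 * y) ≤ t * L := by
      rw [← ht]
      gcongr
    rw [ex_mul] at h1
    have h2 : (1 : ℝ) ≤ Real.exp ((-(211 / 100) + 6) * y) := Real.one_le_exp (by linarith)
    linarith
  have htδ : t ≤ δ := by
    rw [← htηδ]
    exact mul_le_of_le_one_left hδ0.le hη1
  obtain ⟨g1, hg1⟩ : ∃ g1, g1 = C1 * (49 / 25 * y) := ⟨_, rfl⟩
  obtain ⟨g, hg⟩ : ∃ g, g = C1 * (211 / 100 * y) := ⟨_, rfl⟩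
  have hlogδ : Real.log (1 / δ) = 49 / 25 * y := by
    rw [hδ, one_div, Real.log_inv, Real.log_exp]
    ring
  have hlogt : Real.log (1 / t) = 211 / 100 * y := by
    rw [ht, one_div, Real.log_inv, Real.log_exp]
    ring
  have hg10 : 0 ≤ g1 := by rw [hg1]; positivity
  have hg0 : 0 ≤ g := by rw [hg]; positivity
  have hC1y : 0 ≤ C1 * y := by positivity
  have hg1A : g1 + 2 ≤ A1 * y := by
    rw [hg1, hA1]
    linarith
  have hgA : g ≤ A1 * y := by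
    rw [hg, hA1]
    linarith
  have hA10 : 0 < A1 := by rw [hA1]; linarith
  have ht2 : t ≤ 1 / 2 := htδ.trans hδ2
  have hsumδ : ∀ E : ℝ, ∑ k : T d L, (JJ E δ k)⁻¹ ≤ g1 * N := by
    intro E
    have h1 := sumJ (d := d) (L := L) hd δ (hLδ.trans htδ) hδ2 E
    rw [hlogδ, ← hg1, ← hNdef] at h1
    exact h1
  have hsumt : ∀ E : ℝ, ∑ k : T d L, (JJ E t k)⁻¹ ≤ g * N := by
    intro E
    have h1 := sumJ (d := d) (L := L) hd t hLδ ht2 E
    rw [hlogt, ← hg, ← hNdef] at h1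
    exact h1
  have hL6 : Real.exp (12 * y) ≤ (L : ℝ) ^ 2 := by
    calc Real.exp (12 * y) = Real.exp (6 * y) ^ 2 := by
          rw [ex_pow]
          norm_num
      _ ≤ (L : ℝ) ^ 2 := by gcongr
  have hδinv : δ⁻¹ = Real.exp (49 / 25 * y) := by
    rw [hδ, ex_inv]
    norm_num
  have htinv : t⁻¹ = Real.exp (211 / 100 * y) := by
    rw [ht, ex_inv]
    norm_num
  have hL43 : (1 + 4 / δ) ^ 3 ≤ (L : ℝ) ^ 2 := by
    have h1 : 1 + 4 / δ ≤ 5 * Real.exp (49 / 25 * y) := by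
      have h3 : (1 : ℝ) ≤ Real.exp (49 / 25 * y) := Real.one_le_exp (by linarith)
      rw [div_eq_mul_inv, hδinv]
      linarith
    refine le_trans ?_ hL6
    calc (1 + 4 / δ) ^ 3 ≤ (5 * Real.exp (49 / 25 * y)) ^ 3 := by gcongr
      _ = 125 * Real.exp (147 / 25 * y) := by
          rw [mul_pow, ex_pow]
          norm_num
      _ ≤ Real.exp (12 * y) := hN.n4
  obtain ⟨T0, hT0⟩ : ∃ T0, T0 = Real.exp (3 * y) := ⟨_, rfl⟩
  have hT : (1 + T0) ^ 3 ≤ (L : ℝ) ^ 2 := by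
    have h1 : 1 + T0 ≤ 2 * Real.exp (3 * y) := by
      have h3 : (1 : ℝ) ≤ Real.exp (3 * y) := Real.one_le_exp (by linarith)
      rw [hT0]
      linarith
    have hT00 : 0 < T0 := by rw [hT0]; positivity
    refine le_trans ?_ hL6
    calc (1 + T0) ^ 3 ≤ (2 * Real.exp (3 * y)) ^ 3 := by gcongr
      _ = 8 * Real.exp (9 * y) := by
          rw [mul_pow, ex_pow]
          norm_num
      _ ≤ Real.exp (12 * y) := hN.n5
  obtain ⟨Q, hQ⟩ : ∃ Q, Q = CQ * Real.log (1 / δ) ^ 2 / Real.sqrt (δ * θ) := ⟨_, rfl⟩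
  have hQ0 : 0 ≤ Q := by rw [hQ]; positivity
  obtain ⟨a, ha⟩ : ∃ a, a = g1 + cnt / (N * δ) := ⟨_, rfl⟩
  obtain ⟨v2, hv2⟩ : ∃ v2, v2 = g1 / δ := ⟨_, rfl⟩
  have hadm : ∀ E, Adm (D0 E δ) (AA (d := d) (L := L) E δ θ) a v2 Q := by
    intro E
    rw [ha, hv2, hcnt, hNdef]
    refine hAD d L E δ θ g1 Q hδ0 hg10 hQ0 (by rw [← hNdef]; exact hsumδ E) ?_
    intro P hP
    rw [hQ]
    exact hqb d L hd θ δ E hθ0 hθ1 hδ0 hδ2 hL43 P hP
  -- bounds of the parameters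
  have ha1 : a ≤ A1 * y := by
    refine le_trans ?_ hg1A
    rw [ha]
    have h1 : cnt / (N * δ) ≤ 2 := by
      rw [div_le_iff₀ (by positivity)]
      have h2 : Real.exp (-(117 / 50) * y) ≤ δ := by
        rw [hδ]
        apply Real.exp_le_exp.2
        linarith
      calc cnt ≤ 2 * Real.exp (-(117 / 50) * y) * N := hcnt2
        _ ≤ 2 * δ * N := by gcongr
        _ = _ := by ring
    linarith
  have ha0 : 0 ≤ a := by rw [ha]; positivity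
  have hv21 : v2 ≤ A1 * y * Real.exp (49 / 25 * y) := by
    rw [hv2, div_eq_mul_inv, hδinv]
    have : g1 ≤ A1 * y := by linarith
    gcongr
  have hv20 : 0 ≤ v2 := by rw [hv2]; positivity
  have hQ1 : Q ≤ 8 * CQ * y ^ 2 * Real.exp (137 / 100 * y) := by
    rw [hlogδ] at hQ
    exact numQ CQ y δ θ κ Q hCQ.le hy1 hδ hκ1 hθ hQ
  -- the law
  obtain ⟨μ, hμdef⟩ : ∃ μ, μ = ν.map fun s => σ * s := ⟨_, rfl⟩
  have hmσ : Measurable fun s : ℝ => σ * s := by fun_prop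
  have hμp : IsProbabilityMeasure μ := by
    rw [hμdef]
    exact Measure.isProbabilityMeasure_map hmσ.aemeasurable
  obtain ⟨β, hβ⟩ : ∃ β, β = b * σ := ⟨_, rfl⟩
  have hβ0 : 0 < β := by rw [hβ]; positivity
  have hμb : ∀ᵐ s ∂μ, |s| ≤ β := by
    rw [hμdef, ae_map_iff hmσ.aemeasurable (measurableSet_le (by fun_prop) (by fun_prop))]
    filter_upwards [hνb] with s hs
    rw [abs_mul, abs_of_pos hσ0, hβ, mul_comm b]
    gcongr
  have hμ0 : ∫ s, s ∂μ = 0 := by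
    rw [hμdef, integral_map hmσ.aemeasurable (by fun_prop), integral_const_mul, hν0, mul_zero]
  obtain ⟨s2, hs2⟩ : ∃ s2, ∫ s, s ^ 2 ∂μ = s2 := ⟨_, rfl⟩
  have hs20 : 0 ≤ s2 := by
    rw [← hs2]
    exact integral_nonneg fun s => sq_nonneg _
  have hs2β : s2 ≤ β ^ 2 := by
    rw [← hs2]
    have h1 : ∫ s, s ^ 2 ∂μ ≤ ∫ _s, β ^ 2 ∂μ := by
      apply integral_mono_of_nonneg (Filter.Eventually.of_forall fun s => sq_nonneg _)
        (integrable_const _)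
      filter_upwards [hμb] with s hs
      rw [← sq_abs s]
      exact pow_le_pow_left₀ (abs_nonneg _) hs 2
    rw [integral_const, probReal_univ, one_smul] at h1
    exact h1
  have hββ : β = b * Real.exp (-1 * y) := by rw [hβ, hσ]
  have hAy1 : 1 ≤ A1 * y := by linarith
  -- the conditions
  obtain ⟨k1, k2, k3, k4, k5⟩ := numK d b c A1 CQ K K6 y hN hb hCQ hA10 β a v2 Q s2 cnt N η δ hββ
    ha0 ha1 hAy1 hv20 hv21 hQ0 hQ1 hs2β hN0 hcnt1 hcnt2 hη (by rw [htηδ, ht])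
  obtain ⟨ε, hε⟩ : ∃ ε, ε = Real.exp (-(1 / 25) * y) := ⟨_, rfl⟩
  obtain ⟨e1, he1⟩ : ∃ e1, e1 = Real.exp (-(1 / 10) * y) := ⟨_, rfl⟩
  obtain ⟨x2, hx2⟩ : ∃ x2, x2 = Real.exp (-(1 / 50) * y) := ⟨_, rfl⟩
  obtain ⟨e2, he2⟩ : ∃ e2, e2 = Real.exp (-(3 / 200) * y) := ⟨_, rfl⟩
  obtain ⟨e3, he3⟩ : ∃ e3, e3 = Real.exp (-(11 / 1000) * y) := ⟨_, rfl⟩
  have hε0 : 0 < ε := by rw [hε]; positivity
  have he10 : 0 < e1 := by rw [he1]; positivity
  have hx20 : 0 < x2 := by rw [hx2]; positivity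
  have he20 : 0 < e2 := by rw [he2]; positivity
  have he30 : 0 < e3 := by rw [he3]; positivity
  have hx2e2 : 2 * x2 ≤ e2 := by rw [hx2, he2]; exact hN.n21
  have he21 : e2 ≤ 1 := by
    rw [he2]
    exact Real.exp_le_one_iff.2 (by linarith)
  have hx2h : x2 ≤ 1 / 2 := by linarith
  have he14 : e1 ≤ 1 / 4 := by
    have h4 : e1 ≤ x2 * x2 := by
      rw [he1, hx2, ex_mul]
      exact hexle hy1 _ _ (by norm_num)
    have h5 : x2 * x2 ≤ 1 / 2 * (1 / 2) := mul_le_mul hx2h hx2h hx20.le (by norm_num)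
    norm_num at h5
    exact h4.trans h5
  have hε2 : ε ≤ 1 / 2 := by
    have : ε ≤ x2 := by
      rw [hε, hx2]
      exact hexle hy1 _ _ (by norm_num)
    linarith
  rw [← hε] at k3
  rw [← he1] at k4
  obtain ⟨D, hD⟩ : ∃ D, D = Real.exp (-(3 / 20) * y) := ⟨_, rfl⟩
  have hD0 : 0 < D := by rw [hD]; positivity
  have hD128 : D ≤ 1 / 128 := by
    rw [hD]
    linarith [hN.n1]
  have hsD : Real.sqrt D = Real.exp (-(3 / 40) * y) := by
    rw [hD]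
    exact sqrt_ex _ _ y (by norm_num)
  rw [← hD] at k5
  -- the double exponential
  obtain ⟨x4, hx4⟩ : ∃ x4, x4 = 4 / t * Real.exp (-(t * T0 / 2)) := ⟨_, rfl⟩
  have hx40 : 0 ≤ x4 := by rw [hx4]; positivity
  have hx4e : x4 ≤ Real.exp (-1 * y) := by
    rw [hx4]
    exact dexp d b c A1 CQ K K6 y hN t T0 ht hT0
  -- the error of the mean
  have k6 := numM d b c A1 CQ K K6 y hN hb hA10 hK60 β s2 g η δ x4 hββ hg0 hgA hs20 hs2β hη hδ
    hx4e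
  rw [← hε, ← he1, ← hx2] at k6
  -- the bound of the free density
  obtain ⟨K0, hK0⟩ : ∃ K0, K0 = 2 + K6 := ⟨_, rfl⟩
  have hx41 : x4 ≤ 1 := hx4e.trans (Real.exp_le_one_iff.2 (by linarith))
  have hGK : ∀ E, |G0 d L E (η * δ)| ≤ K0 := by
    intro E
    rw [htηδ]
    have h1 := gL_bd (d := d) (L := L) hO hd t T0 ht0 (by linarith) hT
      ((E : ℂ) + ((t : ℝ) : ℂ) * Complex.I) (by simp) (by simp; linarith)
    rw [← hx4, ← hK6] at h1
    unfold G0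
    refine (Complex.abs_im_le_norm _).trans ?_
    rw [hK0]
    linarith
  have hK0K : K0 + 1 = K := by rw [hK0, hKK6]; ring
  have k7 : 40 * Real.sqrt D * (K0 + x2) + x2 ≤ e2 := by
    have h1 : 40 * Real.sqrt D * (K0 + x2) ≤ 1 / 2 * e2 := by
      have f1 : K0 + x2 ≤ K := by linarith
      calc 40 * Real.sqrt D * (K0 + x2) ≤ 40 * Real.sqrt D * K := by gcongr
        _ = 1 / 2 * (80 * K * Real.exp (-(3 / 40) * y)) := by
            rw [hsD]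
            ring
        _ ≤ 1 / 2 * e2 := by
            rw [he2]
            linarith [hN.n20]
    linarith
  -- the net
  obtain ⟨ζ, hζ⟩ : ∃ ζ, ζ = Real.exp (-(633 / 100) * y) := ⟨_, rfl⟩
  have hζ0 : 0 < ζ := by rw [hζ]; positivity
  have hζinv : ζ⁻¹ = Real.exp (633 / 100 * y) := by
    rw [hζ, ex_inv]
    norm_num
  obtain ⟨M, hM⟩ : ∃ M : ℕ, M = ⌈(2 * d + 1) / ζ⌉₊ := ⟨_, rfl⟩
  have hM1 : (2 * d + 1) ≤ ζ * M := by
    have h1 : (2 * (d : ℝ) + 1) / ζ ≤ M := by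
      rw [hM]
      exact Nat.le_ceil _
    rw [div_le_iff₀ hζ0] at h1
    linarith
  have hM2 : (2 * M + 1 : ℝ) ≤ (4 * d + 5) * Real.exp (633 / 100 * y) := by
    have h1 := Nat.ceil_lt_add_one (show 0 ≤ (2 * (d : ℝ) + 1) / ζ by positivity)
    rw [← hM, div_eq_mul_inv, hζinv] at h1
    have h2 : (1 : ℝ) ≤ Real.exp (633 / 100 * y) := Real.one_le_exp (by linarith)
    linarith
  obtain ⟨τ, hτ⟩ : ∃ τ, τ = Real.exp (-(43 / 20) * y) := ⟨_, rfl⟩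
  have hτ0 : 0 < τ := by rw [hτ]; positivity
  have hgood := good2_prob (d := d) (L := L) hES hTH hFL hIN hO hSU hd δ θ η τ ζ e2 a v2 Q β s2 g
    ε e1 T0 x2 K0 D M hδ0 hη0 hη1 hτ0 hadm μ hβ0 hμb hμ0 hs2 hs20 k1 k2 hε0.le hε2 he10.le he14 k3
    (by rw [htηδ, ← hNdef]; exact hsumt) (by rw [← hcnt, ← hNdef]; exact k4) hT
    (by rw [htηδ, ← hx4, ← hK6]; exact k6) hGK k7 hD0 hD128 k5
  rw [hμdef, ← hcnt, ← hNdef] at hgood
  -- the form bound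
  obtain ⟨kf, hkf⟩ : ∃ kf, kf = Real.exp (-(3 / 250) * y) := ⟨_, rfl⟩
  have hkf0 : 0 < kf := by rw [hkf]; positivity
  have hkfinv : kf⁻¹ = Real.exp (3 / 250 * y) := by
    rw [hkf, ex_inv]
    norm_num
  have hKkf : 10 * K * kf ≤ 1 := by rw [hkf]; exact hN.n24
  have hkf30 : 30 * kf ≤ 1 := by
    have : 3 * kf ≤ K * kf := mul_le_mul_of_nonneg_right hK3 hkf0.le
    linarith
  obtain ⟨p, hp⟩ : ∃ p : ℕ, p = ⌈Real.exp (1 / 80 * y)⌉₊ := ⟨_, rfl⟩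
  have hp1 : Real.exp (1 / 80 * y) ≤ p := by
    rw [hp]
    exact Nat.le_ceil _
  have hp0 : p ≠ 0 := by
    intro h0
    rw [h0] at hp1
    have := Real.exp_pos (1 / 80 * y)
    push_cast at hp1
    linarith
  -- the cut-off
  obtain ⟨ℓ, hℓ⟩ : ∃ ℓ, ℓ = Real.exp (5 * y) := ⟨_, rfl⟩
  have hℓ0 : 0 < ℓ := by rw [hℓ]; positivity
  have hL4 : 4 * ℓ + 4 < L := by
    have h1 := hN.n3
    have h2 : (1 : ℝ) ≤ Real.exp (5 * y) := Real.one_le_exp (by linarith)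
    rw [hℓ]
    linarith
  obtain ⟨ρ, hρ⟩ : ∃ ρ, ρ = 2 * d * Real.exp (-(289 / 100) * y) := ⟨_, rfl⟩
  have hρ0 : 0 < ρ := by rw [hρ]; positivity
  have hρℓ : 2 * d / ℓ * t⁻¹ ≤ ρ := by
    apply le_of_eq
    rw [htinv, hρ, hℓ, div_eq_mul_inv, ex_inv, mul_assoc, ex_mul]
    norm_num
  have hR1 : 1 ≤ Real.exp (Real.exp (y / 100)) := Real.one_le_exp (Real.exp_pos _).le
  have hdom : DomBy ν c := by
    rw [hc]
    exact dom_bdd ν b hb hνb hν0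
  obtain ⟨c1, c2, c3, c4, c5, c6⟩ := numC d b c A1 CQ K K6 y hN hA10 hK3 g1 η δ t kf ρ ζ τ e2 e3
    (by linarith) hAy1 hη hη128 hδ ht hkf hρ hζ hτ he2 he3
  rw [← htηδ] at c1 c2 c3 c5 c6
  have hKe : ∀ E, |G0 d L E (η * δ)| + e2 ≤ K := by
    intro E
    have := hGK E
    linarith
  have hfin := mainC (L := L) (by omega) ν c hdom σ (Real.exp (Real.exp (y / 100))) δ θ η kf g1 ρ
    τ K ζ e2 e3 ℓ M hσ0 hR1 hδ0 hδ2 hη0 hη1 hkf0 (by linarith) (by rw [← hNdef]; exact hsumδ)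
    (by linarith) hζ0 hM1 (fun E => (hadm E).hX0) (fun E => (hadm E).hA) hρ0.le hτ0.le hKe c1 c2
    c3 c4 c5 c6 hℓ0 hL4 (by rw [htηδ]; exact hρℓ) p hp0 _ (Real.exp (-Real.exp (y / 100)))
    hgood ?_
  · obtain ⟨G, hG, hP, hLL⟩ := hfin
    refine ⟨fun E => G0 d L E (η * δ), G, hG, hP, fun E => ?_, fun E E' => ?_, ?_, ?_⟩
    · have := hGK E
      simp only
      linarith
    · simp only
      rw [htηδ]
      have h1 := gL_holder (d := d) (L := L) hO hd t T0 ht0 hT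
        ((E : ℂ) + ((t : ℝ) : ℂ) * Complex.I) ((E' : ℂ) + ((t : ℝ) : ℂ) * Complex.I)
        (by simp) (by simp)
      have h2 : ((E : ℂ) + ((t : ℝ) : ℂ) * Complex.I) - ((E' : ℂ) + ((t : ℝ) : ℂ) * Complex.I) =
          ((E - E' : ℝ) : ℂ) := by
        push_cast
        ring
      rw [h2, Complex.norm_real, Real.norm_eq_abs, ← hx4, ← hK6] at h1
      have h3 : |G0 d L E t - G0 d L E' t| ≤
          ‖gL d L ((E : ℂ) + ((t : ℝ) : ℂ) * Complex.I) -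
          gL d L ((E' : ℂ) + ((t : ℝ) : ℂ) * Complex.I)‖ := by
        unfold G0
        rw [← Complex.sub_im]
        exact Complex.abs_im_le_norm _
      have h4 : x4 ≤ e3 := hx4e.trans (by
        rw [he3]
        exact hexle hy1 _ _ (by norm_num))
      have h5 : K6 * |E - E'| ^ (1 / 4 : ℝ) ≤ KK d * |E - E'| ^ (1 / 4 : ℝ) := by
        apply mul_le_mul_of_nonneg_right _ (by positivity)
        rw [← hK, hKK6]
        linarith
      rw [← he3]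
      linarith
    · intro ξ hξ
      have h1 := hLL ξ hξ
      rw [← hσ, ← ht, ← he3]
      rw [htηδ] at h1 ⊢
      exact h1
    · intro σ' ξ a' E ur ui hξ hLG
      rw [← ht] at hLG
      have h1 := freeC (L := L) σ' ρ t ℓ ht0 hℓ0 hL4 hρℓ ξ hξ a' E ur ui hLG
      simp only
      rw [htηδ]
      refine h1.trans ?_
      rw [htinv, hρ, mul_assoc, ex_mul]
      have h2 := hN.n29
      norm_num at h2 ⊢
      exact h2
  -- the probability
  obtain ⟨Y, hY⟩ : ∃ Y, Y = Real.exp (y / 100) := ⟨_, rfl⟩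
  obtain ⟨R, hR⟩ : ∃ R, R = Real.exp (Real.exp (y / 100)) := ⟨_, rfl⟩
  have hRY : R = Real.exp Y := by rw [hR, hY]
  have hg1A' : g1 ≤ A1 * y := by linarith
  have hNL : N = (L : ℝ) ^ d := hNdef
  have t1 := pr1b d b c A1 CQ K K6 y hN Y R δ kf σ g1 L p hY hRY hL2 hδinv hδ0 hkfinv hkf0 hσ hg10
    hg1A' hp
  have t2 := pr2b d b c A1 CQ K K6 y hb hN Y R τ β N cnt L hY hRY hL2 hNL hN0 hτ hββ hcnt1 hcnt2
  have t3 := pr3b d b c A1 CQ K K6 y hN Y R D L M hY hRY hL2 hD hM2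
  rw [← hR, ← hY, mul_add, mul_add]
  exact pr4 Y _ _ _ t1 t2 t3

end Pool.Agent.TH794.LL2
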