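import Pool.Agent.W788.BK.Flat1

/-! From Poisson integrals to the measures of intervals. -/

set_option autoImplicit false

open scoped BigOperators
open MeasureTheory

namespace Pool.Agent.TH794.LL2

/-- the Poisson integral -/
noncomputable def Po (m : Measure ℝ) (E t : ℝ) : ℝ := ∫ x, t / ((x - E) ^ 2 + t ^ 2) ∂m

theorem Po_int (m : Measure ℝ) [IsFiniteMeasure m] (E t : ℝ) (ht : 0 < t) :
    Integrable (fun x : ℝ => t / ((x - E) ^ 2 + t ^ 2)) m := by
  have hm : Measurable fun x : ℝ => t / ((x - E) ^ 2 + t ^ 2) := by fun_prop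
  refine Integrable.of_bound (C := t⁻¹) hm.aestronglyMeasurable
    (Filter.Eventually.of_forall fun x => ?_)
  rw [Real.norm_of_nonneg (by positivity), ← one_div, div_le_div_iff₀ (by positivity) ht]
  nlinarith [sq_nonneg (x - E)]

theorem Po_im (m : Measure ℝ) [IsFiniteMeasure m] (E t : ℝ) (ht : 0 < t) :
    (∫ x : ℝ, ((x : ℂ) - ((E : ℂ) + (t : ℂ) * Complex.I))⁻¹ ∂m).im = Po m E t := by
  have hnorm : ∀ x : ℝ, t ≤ ‖((x : ℂ) - ((E : ℂ) + (t : ℂ) * Complex.I))‖ := by
    intro x
    refine le_trans ?_ (Complex.abs_im_le_norm _)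
    simp
    exact le_abs_self t
  have hmeas : Measurable fun x : ℝ => ((x : ℂ) - ((E : ℂ) + (t : ℂ) * Complex.I))⁻¹ := by
    fun_prop
  have hint : Integrable (fun x : ℝ => ((x : ℂ) - ((E : ℂ) + (t : ℂ) * Complex.I))⁻¹) m := by
    refine Integrable.of_bound (C := t⁻¹) hmeas.aestronglyMeasurable
      (Filter.Eventually.of_forall fun x => ?_)
    rw [norm_inv]
    exact inv_anti₀ ht (hnorm x)
  have him : ∀ x : ℝ, (((x : ℂ) - ((E : ℂ) + (t : ℂ) * Complex.I))⁻¹).im =
      t / ((x - E) ^ 2 + t ^ 2) := by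
    intro x
    rw [Complex.inv_im, Complex.normSq_apply]
    simp
    ring_nf
  have h2 := Complex.imCLM.integral_comp_comm hint
  simp only [Complex.imCLM_apply] at h2
  rw [← h2]
  exact integral_congr_ae (Filter.Eventually.of_forall him)

/-- the smoothed step function -/
noncomputable def sg (t r : ℝ) : ℝ := 1 / 2 + Real.arctan (r / t) / Real.pi

theorem atan_le (u : ℝ) (hu : 0 < u) : Real.arctan u ≤ u := by
  have h1 := Real.lt_tan (Real.arctan_pos.2 hu) (Real.arctan_lt_pi_div_two u)
  rw [Real.tan_arctan] at h1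
  exact h1.le

/-- the error of the smoothed step function -/
theorem sg_err (t r : ℝ) (ht : 0 < t) :
    |(if 0 ≤ r then 1 else 0) - sg t r| ≤ 2 * t / (t + |r|) := by
  have hπ := Real.pi_pos
  have hπ3 := Real.pi_gt_three
  have key : ∀ r : ℝ, 0 < r → 1 / 2 - Real.arctan (r / t) / Real.pi ≤ 2 * t / (t + r) ∧
      0 ≤ 1 / 2 - Real.arctan (r / t) / Real.pi := by
    intro r hr
    have h1 := Real.arctan_lt_pi_div_two (r / t)
    have h2 : 0 < Real.arctan (r / t) := Real.arctan_pos.2 (by positivity)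
    have h3 := Real.arctan_inv_of_pos (show 0 < r / t by positivity)
    have h4 := atan_le (r / t)⁻¹ (by positivity)
    have e1 : 1 / 2 - Real.arctan (r / t) / Real.pi =
        (Real.pi / 2 - Real.arctan (r / t)) / Real.pi := by
      field_simp
    rw [h3] at h4
    rw [e1]
    refine ⟨?_, div_nonneg (by linarith) hπ.le⟩
    rcases le_or_gt r t with hrt | hrt
    · have h5 : (Real.pi / 2 - Real.arctan (r / t)) / Real.pi ≤ 1 := by
        rw [div_le_one hπ]
        linarith
      have h6 : 1 ≤ 2 * t / (t + r) := by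
        rw [le_div_iff₀ (by positivity)]
        linarith
      linarith
    · have h5 : (Real.pi / 2 - Real.arctan (r / t)) / Real.pi ≤ t / r := by
        rw [div_le_iff₀ hπ]
        have h7 : (r / t)⁻¹ = t / r := inv_div r t
        rw [h7] at h4
        have h8 : 0 < t / r := by positivity
        nlinarith
      have h6 : t / r ≤ 2 * t / (t + r) := by
        rw [div_le_div_iff₀ (by positivity) (by positivity)]
        nlinarith
      linarith
  rcases lt_trichotomy r 0 with hr | hr | hr
  · rw [if_neg (by linarith)]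
    obtain ⟨k1, k2⟩ := key (-r) (by linarith)
    have e1 : Real.arctan (-r / t) = -Real.arctan (r / t) := by
      rw [neg_div, Real.arctan_neg]
    rw [e1, neg_div, sub_neg_eq_add] at k1 k2
    unfold sg
    rw [zero_sub, abs_neg, abs_of_nonneg k2, abs_of_neg hr]
    exact k1
  · rw [hr, if_pos le_rfl]
    unfold sg
    rw [zero_div, Real.arctan_zero, zero_div, add_zero, abs_zero, add_zero]
    have : 2 * t / t = 2 := by field_simp
    rw [this, abs_of_nonneg (by norm_num)]
    norm_num
  · rw [if_pos hr.le]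
    obtain ⟨k1, k2⟩ := key r hr
    unfold sg
    have e1 : (1 : ℝ) - (1 / 2 + Real.arctan (r / t) / Real.pi) =
        1 / 2 - Real.arctan (r / t) / Real.pi := by ring
    rw [e1, abs_of_nonneg k2, abs_of_pos hr]
    exact k1

/-- the dyadic bound of the error -/
theorem dyad (t r : ℝ) (ht : 0 < t) (hr : 0 ≤ r) (N : ℕ) :
    2 * t / (t + r) ≤ ∑ n ∈ Finset.range (N + 1),
      2 * (1 / 2 : ℝ) ^ n * (if r ≤ 2 ^ n * t then 1 else 0) + 2 * (1 / 2 : ℝ) ^ N := by
  induction N with
  | zero =>
    have h1 : 2 * t / (t + r) ≤ 2 := by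
      rw [div_le_iff₀ (by positivity)]
      linarith
    have h2 : (0 : ℝ) ≤ ∑ n ∈ Finset.range (0 + 1),
        2 * (1 / 2 : ℝ) ^ n * (if r ≤ 2 ^ n * t then 1 else 0) :=
      Finset.sum_nonneg fun n _ => by
        split_ifs <;> positivity
    simp only [pow_zero, mul_one] at *
    linarith
  | succ N ih =>
    rw [Finset.sum_range_succ]
    by_cases hc : r ≤ 2 ^ (N + 1) * t
    · rw [if_pos hc]
      have e1 : (2 : ℝ) * (1 / 2) ^ (N + 1) * 1 + 2 * (1 / 2) ^ (N + 1) = 2 * (1 / 2) ^ N := by
        rw [pow_succ]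
        ring
      linarith
    · rw [if_neg hc]
      push Not at hc
      have h2 : (0 : ℝ) ≤ ∑ n ∈ Finset.range (N + 1),
          2 * (1 / 2 : ℝ) ^ n * (if r ≤ 2 ^ n * t then 1 else 0) :=
        Finset.sum_nonneg fun n _ => by
          split_ifs <;> positivity
      have h3 : 2 * t / (t + r) ≤ 2 * (1 / 2 : ℝ) ^ (N + 1) := by
        rw [div_le_iff₀ (by positivity)]
        have h4 : t ≤ (1 / 2 : ℝ) ^ (N + 1) * r := by
          have h5 : (1 / 2 : ℝ) ^ (N + 1) * (2 ^ (N + 1) * t) ≤ (1 / 2 : ℝ) ^ (N + 1) * r := by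
            gcongr
          have h6 : (1 / 2 : ℝ) ^ (N + 1) * (2 ^ (N + 1) * t) = t := by
            rw [← mul_assoc, ← mul_pow]
            norm_num
          linarith
        have h5 : 0 ≤ (1 / 2 : ℝ) ^ (N + 1) * t := by positivity
        nlinarith
      linarith

/-- the integral of the error -/
theorem err_int (m : Measure ℝ) [IsFiniteMeasure m] (hm1 : m.real Set.univ ≤ 1) (t C : ℝ)
    (ht : 0 < t) (hC : 0 ≤ C) (h : ∀ E : ℝ, m.real (Set.Icc (E - t) (E + t)) ≤ C * t) (p : ℝ)
    (N : ℕ) : ∫ x, 2 * t / (t + |x - p|) ∂m ≤ (N + 1) * (4 * C * t) + 2 * (1 / 2 : ℝ) ^ N := by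
  have hset : ∀ n : ℕ, (fun x : ℝ => (if |x - p| ≤ 2 ^ n * t then (1 : ℝ) else 0)) =
      (Set.Icc (p - 2 ^ n * t) (p + 2 ^ n * t)).indicator (fun _ => 1) := by
    intro n
    funext x
    by_cases hx : |x - p| ≤ 2 ^ n * t
    · rw [if_pos hx, Set.indicator_of_mem]
      rw [abs_le] at hx
      rw [Set.mem_Icc]
      constructor <;> linarith [hx.1, hx.2]
    · rw [if_neg hx, Set.indicator_of_notMem]
      intro hmem
      apply hx
      rw [Set.mem_Icc] at hmem
      rw [abs_le]
      constructor <;> linarith [hmem.1, hmem.2]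
  have hi : ∀ n : ℕ, Integrable (fun x : ℝ => (if |x - p| ≤ 2 ^ n * t then (1 : ℝ) else 0)) m := by
    intro n
    rw [hset n]
    exact (integrable_const _).indicator measurableSet_Icc
  have hv : ∀ n : ℕ, ∫ x, (if |x - p| ≤ 2 ^ n * t then (1 : ℝ) else 0) ∂m ≤
      2 * C * (2 ^ n * t) := by
    intro n
    rw [hset n, integral_indicator_const _ measurableSet_Icc, smul_eq_mul, mul_one]
    apply Pool.Agent.W788.BK.cover m t C ht hC h p (2 ^ n * t)
    exact le_mul_of_one_le_left ht.le (one_le_pow₀ (by norm_num))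
  have hI : Integrable (fun x => ∑ n ∈ Finset.range (N + 1),
      2 * (1 / 2 : ℝ) ^ n * (if |x - p| ≤ 2 ^ n * t then (1 : ℝ) else 0)) m :=
    integrable_finsetSum _ fun n _ => (hi n).const_mul _
  calc ∫ x, 2 * t / (t + |x - p|) ∂m ≤ ∫ x, (∑ n ∈ Finset.range (N + 1),
      2 * (1 / 2 : ℝ) ^ n * (if |x - p| ≤ 2 ^ n * t then (1 : ℝ) else 0) +
        2 * (1 / 2 : ℝ) ^ N) ∂m := by
        apply integral_mono_of_nonneg
        · exact Filter.Eventually.of_forall fun x => by positivity
        · exact hI.add (integrable_const _)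
        · exact Filter.Eventually.of_forall fun x => dyad t |x - p| ht (abs_nonneg _) N
    _ = ∑ n ∈ Finset.range (N + 1),
        2 * (1 / 2 : ℝ) ^ n * ∫ x, (if |x - p| ≤ 2 ^ n * t then (1 : ℝ) else 0) ∂m +
        2 * (1 / 2 : ℝ) ^ N * m.real Set.univ := by
        rw [integral_add hI (integrable_const _), integral_finsetSum _
          fun n _ => (hi n).const_mul _, integral_const, smul_eq_mul]
        congr 1
        · exact Finset.sum_congr rfl fun n _ => by rw [integral_const_mul]
        · ring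
    _ ≤ ∑ n ∈ Finset.range (N + 1), 4 * C * t + 2 * (1 / 2 : ℝ) ^ N * 1 := by
        refine add_le_add (Finset.sum_le_sum fun n _ => ?_) (by gcongr)
        calc 2 * (1 / 2 : ℝ) ^ n * ∫ x, (if |x - p| ≤ 2 ^ n * t then (1 : ℝ) else 0) ∂m ≤
            2 * (1 / 2 : ℝ) ^ n * (2 * C * (2 ^ n * t)) := by
              apply mul_le_mul_of_nonneg_left (hv n) (by positivity)
          _ = ((1 / 2 : ℝ) ^ n * 2 ^ n) * (4 * C * t) := by ring
          _ = 4 * C * t := by
              rw [← mul_pow]
              norm_num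
    _ = _ := by
        rw [Finset.sum_const, Finset.card_range, nsmul_eq_mul, mul_one]
        push_cast
        ring

/-- the average of the Poisson integral over an interval -/
theorem Po_avg (m : Measure ℝ) [IsFiniteMeasure m] (t A B : ℝ) (ht : 0 < t) (hAB : A ≤ B) :
    ∫ E in A..B, Po m E t = Real.pi * ∫ x, (sg t (B - x) - sg t (A - x)) ∂m := by
  have hπ := Real.pi_pos
  have h1 : ∀ x : ℝ, ∫ E in A..B, t / ((x - E) ^ 2 + t ^ 2) =
      Real.pi * (sg t (B - x) - sg t (A - x)) := by
    intro x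
    have hd : ∀ E ∈ Set.uIcc A B, HasDerivAt (fun E => Real.arctan ((E - x) / t))
        (t / ((x - E) ^ 2 + t ^ 2)) E := by
      intro E _
      have h2 : HasDerivAt (fun E : ℝ => (E - x) / t) (1 / t) E :=
        ((hasDerivAt_id E).sub_const x).div_const t
      have h3 := h2.arctan
      convert h3 using 1
      field_simp
      ring
    have hc : IntervalIntegrable (fun E => t / ((x - E) ^ 2 + t ^ 2)) volume A B := by
      apply Continuous.intervalIntegrable
      apply Continuous.div continuous_const (by fun_prop)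
      intro E
      positivity
    rw [intervalIntegral.integral_eq_sub_of_hasDerivAt hd hc]
    unfold sg
    field_simp
    ring
  unfold Po
  rw [intervalIntegral.integral_of_le hAB]
  have hcont : Continuous fun z : ℝ × ℝ => t / ((z.2 - z.1) ^ 2 + t ^ 2) := by
    apply Continuous.div continuous_const (by fun_prop)
    intro z
    positivity
  have hint : Integrable (Function.uncurry fun (E x : ℝ) => t / ((x - E) ^ 2 + t ^ 2))
      ((volume.restrict (Set.Ioc A B)).prod m) := by
    have hfin : IsFiniteMeasure (volume.restrict (Set.Ioc A B)) := by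
      constructor
      rw [Measure.restrict_apply_univ]
      exact measure_Ioc_lt_top
    refine Integrable.of_bound (C := t⁻¹) ?_ (Filter.Eventually.of_forall fun z => ?_)
    · exact hcont.measurable.aestronglyMeasurable
    · simp only [Function.uncurry]
      rw [Real.norm_of_nonneg (by positivity), ← one_div, div_le_div_iff₀ (by positivity) ht]
      nlinarith [sq_nonneg (z.2 - z.1)]
  rw [integral_integral_swap hint, ← integral_const_mul]
  refine integral_congr_ae (Filter.Eventually.of_forall fun x => ?_)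
  simp only
  rw [← intervalIntegral.integral_of_le hAB]
  exact h1 x

theorem sg_meas (t : ℝ) : Measurable (sg t) := by
  unfold sg
  fun_prop

theorem sg_bd (t r : ℝ) : |sg t r| ≤ 1 := by
  have hπ := Real.pi_pos
  have h1 := Real.arctan_lt_pi_div_two (r / t)
  have h2 := Real.neg_pi_div_two_lt_arctan (r / t)
  unfold sg
  rw [abs_le]
  constructor
  · have : -(1 / 2) ≤ Real.arctan (r / t) / Real.pi := by
      rw [le_div_iff₀ hπ]
      linarith
    linarith
  · have : Real.arctan (r / t) / Real.pi ≤ 1 / 2 := by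
      rw [div_le_iff₀ hπ]
      linarith
    linarith

/-- the measure of an interval and the smoothed measure -/
theorem smooth_err (m : Measure ℝ) [IsFiniteMeasure m] (hm1 : m.real Set.univ ≤ 1) (t C A B : ℝ)
    (ht : 0 < t) (hAB : A ≤ B) (hC : 0 ≤ C)
    (h : ∀ E : ℝ, m.real (Set.Icc (E - t) (E + t)) ≤ C * t)
    (N : ℕ) : |m.real (Set.Icc A B) - Real.pi⁻¹ * ∫ E in A..B, Po m E t| ≤
      2 * ((N + 1) * (4 * C * t) + 2 * (1 / 2 : ℝ) ^ N) := by
  have hπ := Real.pi_pos
  rw [Po_avg m t A B ht hAB, ← mul_assoc, inv_mul_cancel₀ hπ.ne', one_mul]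
  have hi : ∀ a : ℝ, Integrable (fun x => sg t (a - x)) m := by
    intro a
    refine Integrable.of_bound (C := 1)
      ((sg_meas t).comp (by fun_prop : Measurable fun x : ℝ => a - x)).aestronglyMeasurable
      (Filter.Eventually.of_forall fun x => ?_)
    exact sg_bd t (a - x)
  have hind : m.real (Set.Icc A B) = ∫ x, (Set.Icc A B).indicator (fun _ => (1 : ℝ)) x ∂m := by
    rw [integral_indicator_const _ measurableSet_Icc, smul_eq_mul, mul_one]
  have hii : Integrable (fun x => (Set.Icc A B).indicator (fun _ => (1 : ℝ)) x) m :=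
    (integrable_const _).indicator measurableSet_Icc
  have hk : ∀ p : ℝ, Integrable (fun x : ℝ => 2 * t / (t + |x - p|)) m := by
    intro p
    have hm : Measurable fun x : ℝ => 2 * t / (t + |x - p|) := by fun_prop
    refine Integrable.of_bound (C := 2) hm.aestronglyMeasurable
      (Filter.Eventually.of_forall fun x => ?_)
    rw [Real.norm_of_nonneg (by positivity), div_le_iff₀ (by positivity)]
    have := abs_nonneg (x - p)
    linarith
  have hss : Integrable (fun x => sg t (B - x) - sg t (A - x)) m := (hi B).sub (hi A)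
  rw [hind, ← integral_sub hii hss]
  have hpt : ∀ x : ℝ, ‖(Set.Icc A B).indicator (fun _ => (1 : ℝ)) x -
      (sg t (B - x) - sg t (A - x))‖ ≤ 2 * t / (t + |x - B|) + 2 * t / (t + |x - A|) := by
    intro x
    rw [Real.norm_eq_abs]
    have e1 := sg_err t (B - x) ht
    -- at `A` use the reflected version
    have e2 : |(if x < A then (1 : ℝ) else 0) - sg t (A - x)| ≤ 2 * t / (t + |x - A|) := by
      have e3 := sg_err t (x - A) ht
      have e4 : sg t (A - x) = 1 - sg t (x - A) := by
        unfold sg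
        have : (A - x) / t = -((x - A) / t) := by ring
        rw [this, Real.arctan_neg]
        ring
      have e5 : (if x < A then (1 : ℝ) else 0) = 1 - (if 0 ≤ x - A then 1 else 0) := by
        by_cases hx : x < A
        · rw [if_pos hx, if_neg (by linarith)]
          ring
        · rw [if_neg hx, if_pos (by linarith)]
          ring
      rw [e4, e5]
      have e6 : (1 : ℝ) - (if 0 ≤ x - A then 1 else 0) - (1 - sg t (x - A)) =
          -((if 0 ≤ x - A then 1 else 0) - sg t (x - A)) := by ring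
      rw [e6, abs_neg]
      exact e3
    have e7 : (Set.Icc A B).indicator (fun _ => (1 : ℝ)) x =
        (if 0 ≤ B - x then 1 else 0) - (if x < A then (1 : ℝ) else 0) := by
      by_cases h1 : x < A
      · rw [if_pos h1, if_pos (by linarith), Set.indicator_of_notMem]
        · ring
        · intro hmem
          linarith [hmem.1]
      · rw [if_neg h1]
        by_cases h2 : 0 ≤ B - x
        · rw [if_pos h2, Set.indicator_of_mem]
          · ring
          · push Not at h1
            exact ⟨h1, by linarith⟩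
        · rw [if_neg h2, Set.indicator_of_notMem]
          · ring
          · intro hmem
            apply h2
            linarith [hmem.2]
    rw [e7]
    have e8 : ((if 0 ≤ B - x then (1 : ℝ) else 0) - (if x < A then (1 : ℝ) else 0)) -
        (sg t (B - x) - sg t (A - x)) = ((if 0 ≤ B - x then (1 : ℝ) else 0) - sg t (B - x)) -
        ((if x < A then (1 : ℝ) else 0) - sg t (A - x)) := by ring
    rw [e8]
    rw [abs_sub_comm B x] at e1
    exact (abs_sub _ _).trans (add_le_add e1 e2)
  have hfin := norm_integral_le_of_norm_le ((hk B).add (hk A))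
    (Filter.Eventually.of_forall hpt)
  rw [Real.norm_eq_abs] at hfin
  refine hfin.trans ?_
  have hsum : ∫ x, ((fun x : ℝ => 2 * t / (t + |x - B|)) + fun x : ℝ => 2 * t / (t + |x - A|)) x ∂m
      = ∫ x, 2 * t / (t + |x - B|) ∂m + ∫ x, 2 * t / (t + |x - A|) ∂m :=
    integral_add (hk B) (hk A)
  have e1 := err_int m hm1 t C ht hC h B N
  have e2 := err_int m hm1 t C ht hC h A N
  refine (le_of_eq hsum).trans ?_
  linarith

/-- **comparison of two measures** -/
theorem meas_compare (m m0 : Measure ℝ) [IsFiniteMeasure m] [IsFiniteMeasure m0]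
    (hm1 : m.real Set.univ ≤ 1) (hm01 : m0.real Set.univ ≤ 1) (t K e0 : ℝ) (ht : 0 < t)
    (hK : ∀ E, Po m E t ≤ K) (hK0 : ∀ E, Po m0 E t ≤ K)
    (he : ∀ E, |Po m E t - Po m0 E t| ≤ e0) (E s : ℝ) (hs : 0 ≤ s) (N : ℕ) :
    |m.real (Set.Icc (E - s) (E + s)) - m0.real (Set.Icc (E - s) (E + s))| ≤
      e0 * s + 4 * ((N + 1) * (8 * K * t) + 2 * (1 / 2 : ℝ) ^ N) := by
  have hπ := Real.pi_pos
  have hK00 : 0 ≤ K := by
    refine le_trans ?_ (hK 0)
    exact integral_nonneg fun x => by positivity
  have hb : ∀ (m : Measure ℝ) [IsFiniteMeasure m], (∀ E, Po m E t ≤ K) → ∀ E : ℝ,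
      m.real (Set.Icc (E - t) (E + t)) ≤ (2 * K) * t := by
    intro m _ hmK E
    have h1 := (Pool.Agent.W788.LD.Spec.poisson m E t ht).1
    rw [Po_im m E t ht] at h1
    have h2 := mul_le_mul_of_nonneg_left (hmK E) (show 0 ≤ 2 * t by linarith)
    linarith
  have hAB : E - s ≤ E + s := by linarith
  have e1 := smooth_err m hm1 t (2 * K) (E - s) (E + s) ht hAB (by linarith) (hb m hK) N
  have e2 := smooth_err m0 hm01 t (2 * K) (E - s) (E + s) ht hAB (by linarith) (hb m0 hK0) N
  have hPi : ∀ (m : Measure ℝ) [IsFiniteMeasure m], IntervalIntegrable (fun E => Po m E t)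
      volume (E - s) (E + s) := by
    intro m _
    apply Continuous.intervalIntegrable
    unfold Po
    apply continuous_of_dominated (bound := fun _ => t⁻¹)
    · intro E
      exact (Po_int m E t ht).aestronglyMeasurable
    · intro E
      refine Filter.Eventually.of_forall fun x => ?_
      rw [Real.norm_of_nonneg (by positivity), ← one_div, div_le_div_iff₀ (by positivity) ht]
      nlinarith [sq_nonneg (x - E)]
    · exact integrable_const _
    · refine Filter.Eventually.of_forall fun x => ?_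
      apply Continuous.div continuous_const (by fun_prop)
      intro E
      positivity
  have e3 : |Real.pi⁻¹ * (∫ E in (E - s)..(E + s), Po m E t) -
      Real.pi⁻¹ * ∫ E in (E - s)..(E + s), Po m0 E t| ≤ e0 * s := by
    rw [← mul_sub, ← intervalIntegral.integral_sub (hPi m) (hPi m0), abs_mul,
      abs_of_pos (inv_pos.2 hπ)]
    have e4 := intervalIntegral.norm_integral_le_of_norm_le_const (a := E - s) (b := E + s)
      (f := fun E => Po m E t - Po m0 E t) (C := e0) (fun x _ => he x)
    have e5 : |E + s - (E - s)| = 2 * s := by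
      rw [show E + s - (E - s) = 2 * s by ring, abs_of_nonneg (by linarith)]
    rw [e5, Real.norm_eq_abs] at e4
    have he0 : 0 ≤ e0 := (abs_nonneg _).trans (he 0)
    have hπ3 := Real.pi_gt_three
    rw [inv_mul_le_iff₀ hπ]
    have : 0 ≤ e0 * s := by positivity
    nlinarith
  obtain ⟨a1, ha1⟩ : ∃ a, a = m.real (Set.Icc (E - s) (E + s)) := ⟨_, rfl⟩
  obtain ⟨a2, ha2⟩ : ∃ a, a = m0.real (Set.Icc (E - s) (E + s)) := ⟨_, rfl⟩
  obtain ⟨b1, hb1⟩ : ∃ b, b = Real.pi⁻¹ * ∫ E in (E - s)..(E + s), Po m E t := ⟨_, rfl⟩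
  obtain ⟨b2, hb2⟩ : ∃ b, b = Real.pi⁻¹ * ∫ E in (E - s)..(E + s), Po m0 E t := ⟨_, rfl⟩
  rw [← ha1, ← hb1] at e1
  rw [← ha2, ← hb2] at e2
  rw [← hb1, ← hb2] at e3
  rw [← ha1, ← ha2]
  have f1 := abs_sub_le a1 b1 a2
  have f2 := abs_sub_le b1 b2 a2
  rw [abs_sub_comm] at e2
  have e6 : 4 * ((N + 1 : ℝ) * (8 * K * t) + 2 * (1 / 2 : ℝ) ^ N) =
      2 * ((N + 1) * (4 * (2 * K) * t) + 2 * (1 / 2 : ℝ) ^ N) +
      2 * ((N + 1) * (4 * (2 * K) * t) + 2 * (1 / 2 : ℝ) ^ N) := by ring
  rw [e6]
  linarith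

end Pool.Agent.TH794.LL2
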