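import Pool.Agent.TH794.LL2.Lat3
import Pool.Agent.TH794.LL2.Meas

/-! Spectral measures and Green functions. -/

set_option autoImplicit false
set_option linter.unusedSectionVars false

open scoped BigOperators
open MeasureTheory Filter Topology

namespace Pool.Agent.TH794.LL2

open Pool.Agent.W788.LD.Spec (S)
open Pool.Agent.H4R2.LO (Zd)

variable {d : ℕ}

/-- the Poisson integral of a spectral measure is the imaginary part of the Green function -/
theorem po_spec (V ξ : Zd d → ℝ) (c0 σ : ℝ) (hV : ∀ x, V x = c0 - σ * ξ x) (a : Zd d)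
    (m : Measure ℝ) [IsFiniteMeasure m]
    (hm : ∀ z : ℂ, z.im ≠ 0 → ∃ u : Zd d → ℂ, (Summable fun x => ‖u x‖ ^ 2) ∧
      (∀ x, -S u x + (V x : ℂ) * u x - z * u x = (Pi.single a 1 : Zd d → ℂ) x) ∧
      ∫ t : ℝ, ((t : ℂ) - z)⁻¹ ∂m =
        ∑' x, (starRingEnd ℂ) ((Pi.single a 1 : Zd d → ℂ) x) * u x)
    (E t : ℝ) (ht : 0 < t) :
    ∃ ur ui : Zd d → ℝ, LG d σ ξ a (c0 - E) t ur ui ∧ Po m E t = ui a := by
  obtain ⟨u, hu, heq, hint⟩ := hm ((E : ℂ) + (t : ℂ) * Complex.I) (by simp [ht.ne'])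
  have hn : ∀ x, ‖u x‖ ^ 2 = (u x).re ^ 2 + (u x).im ^ 2 := by
    intro x
    rw [← Complex.normSq_eq_norm_sq, Complex.normSq_apply]
    ring
  refine ⟨fun x => -(u x).re, fun x => (u x).im, ⟨?_, ?_, ?_, ?_⟩, ?_⟩
  · refine Summable.of_nonneg_of_le (fun x => sq_nonneg _) (fun x => ?_) hu
    rw [hn x]
    nlinarith [sq_nonneg (u x).im]
  · refine Summable.of_nonneg_of_le (fun x => sq_nonneg _) (fun x => ?_) hu
    rw [hn x]
    nlinarith [sq_nonneg (u x).re]
  · intro x
    have h3 := congrArg Complex.re (heq x)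
    have h4 : ((Pi.single a 1 : Zd d → ℂ) x).re = if x = a then 1 else 0 := by
      by_cases hx : x = a
      · rw [hx, if_pos rfl, Pi.single_eq_same, Complex.one_re]
      · rw [if_neg hx, Pi.single_eq_of_ne hx, Complex.zero_re]
    rw [h4, hV x] at h3
    have h5 : ∑ i : Fin d, (-(u (x + Pi.single i 1)).re + -(u (x - Pi.single i 1)).re) =
        -∑ i : Fin d, ((u (x + Pi.single i 1)).re + (u (x - Pi.single i 1)).re) := by
      rw [← Finset.sum_neg_distrib]
      exact Finset.sum_congr rfl fun i _ => by ring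
    rw [h5]
    simp [S] at h3
    linarith
  · intro x
    have h3 := congrArg Complex.im (heq x)
    have h4 : ((Pi.single a 1 : Zd d → ℂ) x).im = 0 := by
      by_cases hx : x = a
      · rw [hx, Pi.single_eq_same, Complex.one_im]
      · rw [Pi.single_eq_of_ne hx, Complex.zero_im]
    rw [h4, hV x] at h3
    simp [S] at h3
    linarith
  · have h1 := Po_im m E t ht
    rw [hint] at h1
    have h2 : ∑' x, (starRingEnd ℂ) ((Pi.single a 1 : Zd d → ℂ) x) * u x = u a := by
      rw [tsum_eq_single a]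
      · rw [Pi.single_eq_same, map_one, one_mul]
      · intro x hx
        rw [Pi.single_eq_of_ne hx, map_zero, zero_mul]
    rw [h2] at h1
    exact h1.symm

/-- the mass from the Poisson integrals -/
theorem mass_le (m : Measure ℝ) [IsFiniteMeasure m] (h : ∀ t : ℝ, 0 < t → t * Po m 0 t ≤ 1) :
    m.real Set.univ ≤ 1 := by
  have h1 : Tendsto (fun n : ℕ => ∫ x, ((n : ℝ) + 1) ^ 2 / (x ^ 2 + ((n : ℝ) + 1) ^ 2) ∂m) atTop
      (𝓝 (∫ _x, (1 : ℝ) ∂m)) := by
    apply tendsto_integral_of_dominated_convergence (fun _ => 1)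
    · intro n
      have : Measurable fun x : ℝ => ((n : ℝ) + 1) ^ 2 / (x ^ 2 + ((n : ℝ) + 1) ^ 2) := by fun_prop
      exact this.aestronglyMeasurable
    · exact integrable_const _
    · intro n
      refine Eventually.of_forall fun x => ?_
      rw [Real.norm_of_nonneg (by positivity), div_le_one (by positivity)]
      nlinarith [sq_nonneg x]
    · refine Eventually.of_forall fun x => ?_
      have h2 : ∀ n : ℕ, ((n : ℝ) + 1) ^ 2 / (x ^ 2 + ((n : ℝ) + 1) ^ 2) =
          1 - x ^ 2 / (x ^ 2 + ((n : ℝ) + 1) ^ 2) := by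
        intro n
        field_simp
        ring
      simp only [h2]
      have h3 : Tendsto (fun n : ℕ => x ^ 2 / (x ^ 2 + ((n : ℝ) + 1) ^ 2)) atTop (𝓝 0) := by
        apply Tendsto.div_atTop tendsto_const_nhds
        apply tendsto_atTop_mono (f := fun n : ℕ => (n : ℝ)) _ tendsto_natCast_atTop_atTop
        intro n
        have : (0 : ℝ) ≤ n := Nat.cast_nonneg n
        nlinarith [sq_nonneg x]
      have h4 := h3.const_sub 1
      rw [sub_zero] at h4
      exact h4
  rw [integral_const, smul_eq_mul, mul_one] at h1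
  refine le_of_tendsto h1 (Eventually.of_forall fun n => ?_)
  have h2 := h ((n : ℝ) + 1) (by positivity)
  unfold Po at h2
  rw [← integral_const_mul] at h2
  refine le_trans (le_of_eq (integral_congr_ae (Eventually.of_forall fun x => ?_))) h2
  simp only [sub_zero]
  rw [sq, mul_div_assoc]

/-- the mass of a spectral measure -/
theorem mass_spec (V : Zd d → ℝ) (a : Zd d) (m : Measure ℝ) [IsFiniteMeasure m]
    (hm : ∀ z : ℂ, z.im ≠ 0 → ∃ u : Zd d → ℂ, (Summable fun x => ‖u x‖ ^ 2) ∧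
      (∀ x, -S u x + (V x : ℂ) * u x - z * u x = (Pi.single a 1 : Zd d → ℂ) x) ∧
      ∫ t : ℝ, ((t : ℂ) - z)⁻¹ ∂m =
        ∑' x, (starRingEnd ℂ) ((Pi.single a 1 : Zd d → ℂ) x) * u x) :
    m.real Set.univ ≤ 1 := by
  apply mass_le
  intro t ht
  obtain ⟨ur, ui, hLG, hPo⟩ := po_spec V (fun x => -V x) 0 1 (fun x => by ring) a m hm 0 t ht
  rw [hPo, ← hLG.ward]
  have h1 := hLG.norm ht
  calc t * (t * (∑' x, ur x ^ 2 + ∑' x, ui x ^ 2)) ≤ t * (t * (t⁻¹) ^ 2) := by gcongr
    _ = 1 := by field_simp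

end Pool.Agent.TH794.LL2
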