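import Pool.Agent.TH794.LL2.Par2
import Pool.Agent.TH794.LL2.Spec2

/-! The local law, from the parts. -/

set_option autoImplicit false
set_option linter.unusedSectionVars false

open scoped BigOperators
open MeasureTheory

namespace Pool.Agent.TH794.LL2

open Pool.Agent.W788.BK
open Pool.Agent.W788.LD.Spec (S)
open Pool.Agent.H4R2.LO (Zd)
open Pool.Agent.W788.BK.Num

/-- the resolvent data of the site `a` -/
def Res (d : ℕ) (V : Zd d → ℝ) (a : Zd d) (m : Measure ℝ) : Prop :=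
  ∀ z : ℂ, z.im ≠ 0 → ∃ u : Zd d → ℂ, (Summable fun x => ‖u x‖ ^ 2) ∧
      (∀ x, -S u x + (V x : ℂ) * u x - z * u x = (Pi.single a 1 : Zd d → ℂ) x) ∧
      ∫ t : ℝ, ((t : ℂ) - z)⁻¹ ∂m =
        ∑' x, (starRingEnd ℂ) ((Pi.single a 1 : Zd d → ℂ) x) * u x

/-- the deterministic part -/
theorem det (d : ℕ) (K b M0 y : ℝ) (hy1 : 1 ≤ y) (hM0 : |M0| ≤ b) (hb : 0 ≤ b) (hK : 1 ≤ K)
    (n1 : 12 * Real.exp (-(11 / 1000) * y) ≤ Real.exp (-(1 / 200) * y))
    (n2 : 4 * K * b ^ (1 / 4 : ℝ) * Real.exp (-(1 / 4) * y) ≤ Real.exp (-(1 / 200) * y))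
    (n3 : 800 * K * y * Real.exp (-(211 / 100) * y) ≤ Real.exp (-(421 / 200) * y))
    (Gf : ℝ → ℝ) (hG : ∀ E, |Gf E| ≤ K)
    (hH : ∀ E E', |Gf E - Gf E'| ≤ K * |E - E'| ^ (1 / 4 : ℝ) + Real.exp (-(11 / 1000) * y))
    (ξ ω : Zd d → ℝ) (hξ : ∀ x, ξ x = M0 - ω x) (a : Zd d)
    (hL : ∀ (E : ℝ) (ur ui : Zd d → ℝ),
      LG d (Real.exp (-1 * y)) ξ a E (Real.exp (-(211 / 100) * y)) ur ui →
        |ui a - Gf E| ≤ Real.exp (-(11 / 1000) * y))
    (hF : ∀ (σ : ℝ) (ξ : Zd d → ℝ) (a : Zd d) (E : ℝ) (ur ui : Zd d → ℝ), (∀ x, σ * ξ x = 0) →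
        LG d σ ξ a E (Real.exp (-(211 / 100) * y)) ur ui →
        |ui a - Gf E| ≤ Real.exp (-(11 / 1000) * y))
    (m m0 : Measure ℝ) [IsFiniteMeasure m] [IsFiniteMeasure m0]
    (hm : Res d (fun x => 2 * d + Real.exp (-1 * y) * ω x) a m)
    (hm0 : Res d (fun _ => 2 * d) a m0) (E s : ℝ) (hs : Real.exp (-(21 / 10) * y) ≤ s) :
    |m.real (Set.Icc (E - s) (E + s)) - m0.real (Set.Icc (E - s) (E + s))| ≤
      Real.exp (-(1 / 200) * y) * s := by
  obtain ⟨lam, hlam⟩ : ∃ lam, lam = Real.exp (-1 * y) := ⟨_, rfl⟩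
  obtain ⟨t, ht⟩ : ∃ t, t = Real.exp (-(211 / 100) * y) := ⟨_, rfl⟩
  obtain ⟨e3, he3⟩ : ∃ e3, e3 = Real.exp (-(11 / 1000) * y) := ⟨_, rfl⟩
  rw [← hlam] at hL hm
  rw [← ht] at hL hF n3
  rw [← he3] at hL hF hH n1
  have ht0 : 0 < t := by rw [ht]; positivity
  have hlam0 : 0 < lam := by rw [hlam]; positivity
  have he30 : 0 < e3 := by rw [he3]; positivity
  have he31 : e3 ≤ 1 := by
    rw [he3]
    exact Real.exp_le_one_iff.2 (by linarith)
  have hs0 : 0 < s := lt_of_lt_of_le (Real.exp_pos _) hs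
  -- the Poisson integrals
  have p1 : ∀ E, |Po m E t - Gf (2 * d + lam * M0 - E)| ≤ e3 := by
    intro E
    obtain ⟨ur, ui, h1, h2⟩ := po_spec (fun x => 2 * d + lam * ω x) ξ (2 * d + lam * M0) lam
      (fun x => by rw [hξ x]; ring) a m hm E t ht0
    rw [h2]
    exact hL _ ur ui h1
  have p2 : ∀ E, |Po m0 E t - Gf (2 * d - E)| ≤ e3 := by
    intro E
    obtain ⟨ur, ui, h1, h2⟩ := po_spec (fun _ : Zd d => (2 * d : ℝ)) (fun _ => 0) (2 * d) 0
      (fun x => by ring) a m0 hm0 E t ht0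
    rw [h2]
    exact hF 0 (fun _ => 0) a _ ur ui (fun x => by ring) h1
  obtain ⟨x5, hx5⟩ : ∃ x5, x5 = K * (lam * b) ^ (1 / 4 : ℝ) := ⟨_, rfl⟩
  have p3 : ∀ E : ℝ, |Gf (2 * d + lam * M0 - E) - Gf (2 * d - E)| ≤ x5 + e3 := by
    intro E
    refine (hH _ _).trans ?_
    have h1 : |2 * d + lam * M0 - E - (2 * d - E)| ≤ lam * b := by
      have : (2 * d + lam * M0 - E - (2 * d - E) : ℝ) = lam * M0 := by ring
      rw [this, abs_mul, abs_of_pos hlam0]
      gcongr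
    have h2 := Real.rpow_le_rpow (abs_nonneg _) h1 (show (0 : ℝ) ≤ 1 / 4 by norm_num)
    have h3 := mul_le_mul_of_nonneg_left h2 (show 0 ≤ K by linarith)
    rw [hx5]
    linarith
  have hx5e : x5 ≤ 1 / 4 * Real.exp (-(1 / 200) * y) := by
    have h1 : (lam * b) ^ (1 / 4 : ℝ) = b ^ (1 / 4 : ℝ) * Real.exp (-(1 / 4) * y) := by
      rw [Real.mul_rpow hlam0.le hb, hlam, ← Real.exp_mul, mul_comm]
      congr 2
      ring
    rw [hx5, h1]
    linarith
  have hmass := mass_spec (fun x => 2 * d + lam * ω x) a m hm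
  have hmass0 := mass_spec (fun _ : Zd d => (2 * d : ℝ)) a m0 hm0
  obtain ⟨N, hN⟩ : ∃ N : ℕ, N = ⌈4 * y⌉₊ := ⟨_, rfl⟩
  have hN1 : 4 * y ≤ N := by rw [hN]; exact Nat.le_ceil _
  have hN2 : (N : ℝ) ≤ 4 * y + 1 := by
    rw [hN]
    exact (Nat.ceil_lt_add_one (by linarith)).le
  have hpow : (1 / 2 : ℝ) ^ N ≤ t := by
    have h1 : (1 / 2 : ℝ) ^ N = Real.exp (-(N * Real.log 2)) := by
      rw [Real.exp_neg, mul_comm, Real.exp_mul, Real.exp_log (by norm_num), Real.rpow_natCast,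
        one_div, inv_pow]
    rw [h1, ht]
    apply Real.exp_le_exp.2
    have h2 := Real.log_two_gt_d9
    have h3 : 4 * y * 0.69 ≤ N * Real.log 2 := mul_le_mul hN1 (by linarith) (by norm_num)
      (by positivity)
    linarith
  have hc := meas_compare m m0 hmass hmass0 t (K + 1) (3 * e3 + x5) ht0
    (fun E => by
      have h1 := (abs_le.1 (p1 E)).2
      have h2 := (abs_le.1 (hG (2 * d + lam * M0 - E))).2
      linarith)
    (fun E => by
      have h1 := (abs_le.1 (p2 E)).2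
      have h2 := (abs_le.1 (hG (2 * d - E))).2
      linarith)
    (fun E => by
      have h1 := p1 E
      have h2 := p2 E
      have h3 := p3 E
      have h4 := abs_sub_le (Po m E t) (Gf (2 * d + lam * M0 - E)) (Po m0 E t)
      have h5 := abs_sub_le (Gf (2 * d + lam * M0 - E)) (Gf (2 * d - E)) (Po m0 E t)
      rw [abs_sub_comm (Gf (2 * d - E)) (Po m0 E t)] at h5
      linarith) E s hs0.le N
  refine hc.trans ?_
  have q1 : (3 * e3 + x5) * s ≤ 1 / 2 * Real.exp (-(1 / 200) * y) * s := by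
    apply mul_le_mul_of_nonneg_right _ hs0.le
    linarith
  have q2 : 4 * ((N + 1 : ℝ) * (8 * (K + 1) * t) + 2 * (1 / 2 : ℝ) ^ N) ≤
      1 / 2 * Real.exp (-(1 / 200) * y) * s := by
    calc 4 * ((N + 1 : ℝ) * (8 * (K + 1) * t) + 2 * (1 / 2 : ℝ) ^ N) ≤
        4 * ((6 * y) * (8 * (2 * K) * t) + 2 * t) := by
          have h1 : (N : ℝ) + 1 ≤ 6 * y := by linarith
          have h2 : K + 1 ≤ 2 * K := by linarith
          gcongr
      _ ≤ 400 * K * y * t := by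
          have h3 : t ≤ K * y * t := by
            apply le_mul_of_one_le_left ht0.le
            exact one_le_mul_of_one_le_of_one_le hK hy1
          linarith
      _ = 1 / 2 * (800 * K * y * t) := by ring
      _ ≤ 1 / 2 * Real.exp (-(421 / 200) * y) := by linarith
      _ = 1 / 2 * Real.exp (-(1 / 200) * y) * Real.exp (-(21 / 10) * y) := by
          rw [mul_assoc, ex_mul]
          norm_num
      _ ≤ _ := by gcongr
  linarith

/-- **the local law** -/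
theorem fin2 (hES : S_ES) (hTH : S_THIRD) (hFL : S_FLUCT) (hIN : S_INV) (hO : S_OSC)
    (hSU : S_SUP) (hQB : S_QB) (hLO : S_LOW) (hAD : S_ADM)
    (d : ℕ) (hd : 3 ≤ d) (b : ℝ) (hb : 0 < b) :
    ∃ lam0 : ℝ, 0 < lam0 ∧ ∀ (μ : Measure ℝ), IsProbabilityMeasure μ →
      (∀ᵐ s ∂μ, |s| ≤ b) → ∀ lam : ℝ, 0 < lam → lam ≤ lam0 →
      ∃ G : Set (Zd d → ℝ), MeasurableSet G ∧
        1 - Real.exp (-lam ^ (-(1 / 100) : ℝ)) ≤
          (Measure.infinitePi fun _ : Zd d => μ).real G ∧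
        ∀ ω ∈ G, ∀ a : Zd d, ‖a‖ ≤ Real.exp (lam ^ (-(1 / 100) : ℝ)) →
          ∀ m m0 : Measure ℝ, IsFiniteMeasure m → IsFiniteMeasure m0 →
          Res d (fun x => 2 * d + lam * ω x) a m → Res d (fun _ => 2 * d) a m0 →
          ∀ E s : ℝ, lam ^ (21 / 10 : ℝ) ≤ s →
            |m.real (Set.Icc (E - s) (E + s)) - m0.real (Set.Icc (E - s) (E + s))| ≤
              lam ^ (1 / 200 : ℝ) * s := by
  obtain ⟨y0, h0⟩ := engine2 hES hTH hFL hIN hO hSU hQB hLO hAD d hd (2 * b) (by linarith)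
  obtain ⟨K, hK⟩ : ∃ K, K = KK d := ⟨_, rfl⟩
  have hK3 : 3 ≤ K := by rw [hK]; exact KK_ge d
  obtain ⟨y2, hy2⟩ := Filter.eventually_atTop.1
    ((ev2 12 (-(11 / 1000)) (-(1 / 200)) 0 (by norm_num)).and
    ((ev2 (4 * K * b ^ (1 / 4 : ℝ)) (-(1 / 4)) (-(1 / 200)) 0 (by norm_num)).and
    (ev2 (800 * K) (-(211 / 100)) (-(421 / 200)) 1 (by norm_num))))
  obtain ⟨y1, hy1⟩ : ∃ y1, y1 = max (max y0 y2) 1 := ⟨_, rfl⟩
  refine ⟨Real.exp (-y1), Real.exp_pos _, ?_⟩
  intro μ hμ hμb lam hlam hlam0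
  obtain ⟨y, hy⟩ : ∃ y, y = Real.log (1 / lam) := ⟨_, rfl⟩
  have hloglam : Real.log lam = -y := by
    rw [hy, one_div, Real.log_inv, neg_neg]
  have hyy1 : y1 ≤ y := by
    have h1 := Real.log_le_log hlam hlam0
    rw [Real.log_exp, hloglam] at h1
    linarith
  have hyy0 : y0 ≤ y := le_trans (by rw [hy1]; exact (le_max_left _ _).trans (le_max_left _ _)) hyy1
  have hyy2 : y2 ≤ y := le_trans (by rw [hy1]; exact (le_max_right _ _).trans (le_max_left _ _))
    hyy1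
  have hyone : 1 ≤ y := le_trans (by rw [hy1]; exact le_max_right _ _) hyy1
  obtain ⟨n1, n2, n3⟩ := hy2 y hyy2
  simp only [pow_zero, mul_one, pow_one] at n1 n2 n3
  have e1 : lam ^ (-(1 / 100) : ℝ) = Real.exp (y / 100) := by
    rw [Real.rpow_def_of_pos hlam, hloglam]
    congr 1
    ring
  have e2 : lam ^ (21 / 10 : ℝ) = Real.exp (-(21 / 10) * y) := by
    rw [Real.rpow_def_of_pos hlam, hloglam]
    congr 1
    ring
  have e2' : lam ^ (1 / 200 : ℝ) = Real.exp (-(1 / 200) * y) := by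
    rw [Real.rpow_def_of_pos hlam, hloglam]
    congr 1
    ring
  have e3 : Real.exp (-1 * y) = lam := by
    rw [neg_one_mul, ← hloglam, Real.exp_log hlam]
  rw [e1, e2, e2']
  -- the centred law
  obtain ⟨M0, hM0⟩ : ∃ M0, M0 = ∫ s, s ∂μ := ⟨_, rfl⟩
  have hint : Integrable (fun s : ℝ => s) μ := by
    refine Integrable.of_bound (C := b) measurable_id.aestronglyMeasurable ?_
    filter_upwards [hμb] with s hs
    rw [Real.norm_eq_abs]
    exact hs
  have hM0b : |M0| ≤ b := by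
    rw [hM0, ← Real.norm_eq_abs]
    have h1 := norm_integral_le_of_norm_le_const (μ := μ) (f := fun s : ℝ => s) (C := b) (by
      filter_upwards [hμb] with s hs
      rw [Real.norm_eq_abs]
      exact hs)
    rw [probReal_univ, mul_one] at h1
    exact h1
  have hmm : Measurable fun s : ℝ => M0 - s := by fun_prop
  have hνp : IsProbabilityMeasure (μ.map fun s => M0 - s) :=
    Measure.isProbabilityMeasure_map hmm.aemeasurable
  have hνb : ∀ᵐ s ∂(μ.map fun s => M0 - s), |s| ≤ 2 * b := by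
    rw [ae_map_iff hmm.aemeasurable (measurableSet_le (by fun_prop) (by fun_prop))]
    filter_upwards [hμb] with s hs
    have h1 := abs_sub M0 s
    linarith
  have hν0 : ∫ s, s ∂(μ.map fun s => M0 - s) = 0 := by
    rw [integral_map hmm.aemeasurable (by fun_prop), integral_sub (integrable_const _) hint,
      integral_const, probReal_univ, one_smul, hM0, sub_self]
  obtain ⟨Gf, G, hG, hP, hGf1, hGf2, hL, hF⟩ := h0 y hyy0 _ hνp hνb hν0
  rw [← hK] at hGf1 hGf2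
  have hTm : Measurable (fun (ω : Zd d → ℝ) x => M0 - ω x) := by fun_prop
  have hlaw : (Measure.infinitePi fun _ : Zd d => μ).map (fun ω x => M0 - ω x) =
      Measure.infinitePi fun _ : Zd d => μ.map fun s => M0 - s :=
    Measure.infinitePi_map_pi (μ := fun _ : Zd d => μ)
      (f := fun _ (s : ℝ) => M0 - s) (fun _ => by fun_prop)
  refine ⟨(fun ω x => M0 - ω x) ⁻¹' G, hTm hG, ?_, ?_⟩
  · have h1 : (Measure.infinitePi fun _ : Zd d => μ).real ((fun ω x => M0 - ω x) ⁻¹' G) =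
        (Measure.infinitePi fun _ : Zd d => μ.map fun s => M0 - s).real G := by
      rw [← hlaw, map_measureReal_apply hTm hG]
    rw [h1]
    exact hP
  · intro ω hω a ha m m0 hm hm0 hr hr0 E s hs
    refine det d K b M0 y hyone hM0b hb.le (by linarith) n1 n2 n3 Gf hGf1 hGf2
      (fun x => M0 - ω x) ω (fun x => rfl) a (fun E ur ui h => hL _ hω a ha E ur ui h) hF m m0 ?_
      hr0 E s hs
    rw [e3]
    exact hr

end Pool.Agent.TH794.LL2
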