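import Pool.Agent.TH794.LL2.Site2

/-! Comparison of the resolvent with the regularised one: the estimates. -/

set_option autoImplicit false
set_option linter.unusedSectionVars false

open scoped BigOperators Matrix
open MeasureTheory

namespace Pool.Agent.TH794.LL2

open Pool.Agent.W788.BK
open Pool.Agent.W788.MFP.Four

variable {d L : ℕ} [NeZero L]

/-- multiplication of a pair by a real function -/
theorem fc_sub (f g f' g' : T d L → ℝ) (k : T d L) :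
    fc (fun x => f x - f' x) (fun x => g x - g' x) k = fc f g k - fc f' g' k := by
  unfold fc ft
  rw [add_sub_add_comm, ← mul_sub, ← Finset.sum_sub_distrib, ← Finset.sum_sub_distrib]
  congr 1
  · exact Finset.sum_congr rfl fun x _ => by push_cast; ring
  · congr 1
    exact Finset.sum_congr rfl fun x _ => by push_cast; ring

/-- the equation in momentum space -/
theorem fc_eq {E t : ℝ} {V vr vi rr ri : T d L → ℝ} (h : Sol2 E t V vr vi rr ri) (k : T d L) :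
    ((adj k - E : ℝ) : ℂ) * fc vr vi k + fc (fun x => V x * vr x) (fun x => V x * vi x) k =
      1 + (t : ℂ) * Complex.I * fc vr vi k + fc rr ri k := by
  have hev : ∀ k : T d L, adj (-k) - E = adj k - E := fun k => by rw [adj_neg]
  have h1 : ((adj k - E : ℝ) : ℂ) * ft vr k = -ft (fun x => V x * vr x) k +
      (1 - t * ft vi k + ft rr k) := by
    rw [← ft_Op (fun k => adj k - E) vr hev]
    have e0 : (1 : ℂ) = ∑ x : T d L, ((if x = 0 then (1 : ℝ) else 0 : ℝ) : ℂ) * e k x := by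
      rw [Finset.sum_eq_single 0]
      · rw [if_pos rfl, e_zero]
        simp
      · intro x _ hx
        rw [if_neg hx]
        simp
      · intro h
        exact absurd (Finset.mem_univ _) h
    rw [e0]
    unfold ft
    rw [Finset.mul_sum, ← Finset.sum_neg_distrib, ← Finset.sum_sub_distrib,
      ← Finset.sum_add_distrib, ← Finset.sum_add_distrib]
    refine Finset.sum_congr rfl fun x _ => ?_
    rw [h.eqr x]
    push_cast
    ring
  have h2 : ((adj k - E : ℝ) : ℂ) * ft vi k = -ft (fun x => V x * vi x) k +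
      (t * ft vr k + ft ri k) := by
    rw [← ft_Op (fun k => adj k - E) vi hev]
    unfold ft
    rw [Finset.mul_sum, ← Finset.sum_neg_distrib, ← Finset.sum_add_distrib,
      ← Finset.sum_add_distrib]
    refine Finset.sum_congr rfl fun x _ => ?_
    rw [h.eqi x]
    push_cast
    ring
  unfold fc
  have h3 : Complex.I * Complex.I = -1 := Complex.I_mul_I
  linear_combination h1 + Complex.I * h2 - (t : ℂ) * ft vi k * h3

/-- the off-shell norm -/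
noncomputable def XN (E δ : ℝ) (vr vi : T d L → ℝ) : ℝ :=
  nn fun k : T d L => (((Real.sqrt (JJ E δ k))⁻¹ : ℝ) : ℂ) * (((adj k - E : ℝ) : ℂ) * fc vr vi k)

theorem nsq_mulr (c : T d L → ℝ) (f : T d L → ℂ) :
    nsq (fun k => ((c k : ℝ) : ℂ) * f k) = ∑ k, c k ^ 2 * ‖f k‖ ^ 2 := by
  unfold nsq
  refine Finset.sum_congr rfl fun k _ => ?_
  rw [norm_mul, mul_pow, Complex.norm_real, Real.norm_eq_abs, sq_abs]

theorem inv_sqrt_sq (E δ : ℝ) (hδ : 0 < δ) (k : T d L) :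
    (Real.sqrt (JJ E δ k))⁻¹ ^ 2 = (JJ E δ k)⁻¹ := by
  rw [inv_pow, Real.sq_sqrt (JJ_pos E δ hδ k).le]

/-- a low frequency bound -/
theorem nn_inv (E δ : ℝ) (hδ : 0 < δ) (f g : T d L → ℝ) :
    nn (fun k : T d L => (((Real.sqrt (JJ E δ k))⁻¹ : ℝ) : ℂ) * fc f g k) ≤
      Real.sqrt (NN d L) * ((Real.sqrt δ)⁻¹ * Real.sqrt (Bq f g)) := by
  have hN := NN_pos (d := d) (L := L)
  apply nn_le _ _ (by positivity)
  rw [nsq_mulr, mul_pow, mul_pow, Real.sq_sqrt hN.le, inv_pow, Real.sq_sqrt hδ.le,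
    Real.sq_sqrt (Bq_nonneg f g)]
  calc ∑ k, (Real.sqrt (JJ E δ k))⁻¹ ^ 2 * ‖fc f g k‖ ^ 2 ≤ ∑ k, δ⁻¹ * ‖fc f g k‖ ^ 2 := by
        refine Finset.sum_le_sum fun k _ => mul_le_mul_of_nonneg_right ?_ (sq_nonneg _)
        rw [inv_sqrt_sq E δ hδ]
        exact inv_anti₀ hδ (Pool.Agent.W363.BK.JJ_ge E δ hδ k)
    _ = _ := by
        rw [← Finset.mul_sum, sum_fc_one]
        ring

/-- **the off-shell estimate** -/
theorem XN_le (E δ η κ g1 ρ : ℝ) (hδ : 0 < δ) (hη : 0 < η) (hκ : 0 < κ) (hκ2 : κ ≤ 1 / 2)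
    (hg : ∑ k : T d L, (JJ E δ k)⁻¹ ≤ g1 * NN d L) {V vr vi rr ri : T d L → ℝ}
    (h : Sol2 E (η * δ) V vr vi rr ri)
    (hf : ∀ w : T d L → ℝ, |∑ x, V x * w x ^ 2| ≤ κ * q (JJ E δ) w)
    (_hρ0 : 0 ≤ ρ) (hρ : Real.sqrt (Bq rr ri) ≤ ρ) :
    XN E δ vr vi ≤ Real.sqrt (NN d L) * (2 * Real.sqrt g1 + 2 * (κ + η) *
      (Real.sqrt δ * Real.sqrt (Bq vr vi)) + 2 * ((Real.sqrt δ)⁻¹ * ρ)) ∧
    nn (fun k : T d L => (Real.sqrt (JJ E δ k) : ℂ) * fc vr vi k) ≤ XN E δ vr vi +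
      Real.sqrt (NN d L) * (Real.sqrt δ * Real.sqrt (Bq vr vi)) := by
  have hN := NN_pos (d := d) (L := L)
  have hsN : 0 < Real.sqrt (NN d L) := Real.sqrt_pos.2 hN
  have hsδ : 0 < Real.sqrt δ := Real.sqrt_pos.2 hδ
  have hδ2 : Real.sqrt δ * Real.sqrt δ = δ := Real.mul_self_sqrt hδ.le
  have hJ : ∀ k : T d L, 0 < JJ E δ k := fun k => JJ_pos E δ hδ k
  have hJsq : ∀ k : T d L, JJ E δ k ^ 2 = (adj k - E) ^ 2 + δ ^ 2 := fun k => by
    unfold JJ
    rw [Real.sq_sqrt (by positivity)]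
  obtain ⟨X, hX⟩ : ∃ X, X = XN E δ vr vi := ⟨_, rfl⟩
  have hX0 : 0 ≤ X := by rw [hX]; exact nn_nonneg _
  obtain ⟨A, hA⟩ : ∃ A, A = nn fun k : T d L => (Real.sqrt (JJ E δ k) : ℂ) * fc vr vi k :=
    ⟨_, rfl⟩
  have hA0 : 0 ≤ A := by rw [hA]; exact nn_nonneg _
  obtain ⟨B, hB⟩ : ∃ B, B = Real.sqrt (Bq vr vi) := ⟨_, rfl⟩
  have hB0 : 0 ≤ B := by rw [hB]; exact Real.sqrt_nonneg _
  have hB2 : B ^ 2 = Bq vr vi := by rw [hB, Real.sq_sqrt (Bq_nonneg _ _)]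
  rw [← hX, ← hA, ← hB]
  have hX2 : X ^ 2 = ∑ k, ((JJ E δ k)⁻¹ * (adj k - E) ^ 2) * ‖fc vr vi k‖ ^ 2 := by
    rw [hX]
    unfold XN
    rw [nn_sq, nsq_mulr]
    refine Finset.sum_congr rfl fun k _ => ?_
    rw [norm_mul, mul_pow, Complex.norm_real, Real.norm_eq_abs, sq_abs, inv_sqrt_sq E δ hδ]
    ring
  have hA2 : A ^ 2 = ∑ k, JJ E δ k * ‖fc vr vi k‖ ^ 2 := by
    rw [hA, nn_sq, nsq_mulr]
    refine Finset.sum_congr rfl fun k _ => ?_
    rw [Real.sq_sqrt (hJ k).le]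
  have hAX : A ≤ X + Real.sqrt (NN d L) * (Real.sqrt δ * B) := by
    have h1 : A ^ 2 ≤ X ^ 2 + NN d L * (δ * B ^ 2) := by
      rw [hA2, hX2]
      have h2 : ∀ k : T d L, JJ E δ k * ‖fc vr vi k‖ ^ 2 ≤
          ((JJ E δ k)⁻¹ * (adj k - E) ^ 2) * ‖fc vr vi k‖ ^ 2 + δ * ‖fc vr vi k‖ ^ 2 := by
        intro k
        rw [← add_mul]
        apply mul_le_mul_of_nonneg_right _ (sq_nonneg _)
        have h3 := hJ k
        have h4 := Pool.Agent.W363.BK.JJ_ge (d := d) (L := L) E δ hδ k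
        have h5 : (JJ E δ k)⁻¹ * (adj k - E) ^ 2 = JJ E δ k - (JJ E δ k)⁻¹ * δ ^ 2 := by
          have := hJsq k
          field_simp
          linarith
        rw [h5]
        have h6 : (JJ E δ k)⁻¹ * δ ^ 2 ≤ δ := by
          rw [inv_mul_le_iff₀ h3]
          nlinarith
        linarith
      refine (Finset.sum_le_sum fun k _ => h2 k).trans ?_
      rw [Finset.sum_add_distrib, ← Finset.mul_sum, sum_fc_one, hB2]
      linarith
    have h2 : A ^ 2 ≤ (X + Real.sqrt (NN d L) * (Real.sqrt δ * B)) ^ 2 := by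
      have h3 : (Real.sqrt (NN d L) * (Real.sqrt δ * B)) ^ 2 = NN d L * (δ * B ^ 2) := by
        rw [mul_pow, mul_pow, Real.sq_sqrt hN.le, Real.sq_sqrt hδ.le]
      have h4 : 0 ≤ X * (Real.sqrt (NN d L) * (Real.sqrt δ * B)) := by positivity
      nlinarith
    exact (abs_le_of_sq_le_sq' h2 (by positivity)).2
  refine ⟨?_, hAX⟩
  -- the equation
  have heq : (fun k : T d L => (((Real.sqrt (JJ E δ k))⁻¹ : ℝ) : ℂ) *
      (((adj k - E : ℝ) : ℂ) * fc vr vi k)) =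
      (((fun k : T d L => (((Real.sqrt (JJ E δ k))⁻¹ : ℝ) : ℂ) * 1) +
        fun k : T d L => (((η * δ : ℝ) : ℂ) * Complex.I) *
          ((((Real.sqrt (JJ E δ k))⁻¹ : ℝ) : ℂ) * fc vr vi k)) +
        fun k : T d L => (((Real.sqrt (JJ E δ k))⁻¹ : ℝ) : ℂ) * fc rr ri k) -
        fun k : T d L => (((Real.sqrt (JJ E δ k))⁻¹ : ℝ) : ℂ) *
          fc (fun x => V x * vr x) (fun x => V x * vi x) k := by
    funext k
    simp only [Pi.sub_apply, Pi.add_apply]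
    have := fc_eq h k
    linear_combination (((Real.sqrt (JJ E δ k))⁻¹ : ℝ) : ℂ) * this
  have b1 : nn (fun k : T d L => (((Real.sqrt (JJ E δ k))⁻¹ : ℝ) : ℂ) * 1) ≤
      Real.sqrt (NN d L) * Real.sqrt g1 := by
    have hg10 : 0 ≤ g1 := by
      by_contra hcon
      push Not at hcon
      have h1 := mul_neg_of_neg_of_pos hcon hN
      have h2 : 0 ≤ ∑ k : T d L, (JJ E δ k)⁻¹ := Finset.sum_nonneg fun k _ =>
        inv_nonneg.2 (hJ k).le
      linarith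
    apply nn_le _ _ (by positivity)
    rw [nsq_mulr, mul_pow, Real.sq_sqrt hN.le, Real.sq_sqrt hg10]
    refine (le_of_eq (Finset.sum_congr rfl fun k _ => ?_)).trans (hg.trans (le_of_eq (by ring)))
    rw [inv_sqrt_sq E δ hδ, norm_one]
    ring
  have b2 : nn (fun k : T d L => (((η * δ : ℝ) : ℂ) * Complex.I) *
          ((((Real.sqrt (JJ E δ k))⁻¹ : ℝ) : ℂ) * fc vr vi k)) ≤
      Real.sqrt (NN d L) * (η * (Real.sqrt δ * B)) := by
    have e1 := nn_inv E δ hδ vr vi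
    have e2 : nn (fun k : T d L => (((η * δ : ℝ) : ℂ) * Complex.I) *
          ((((Real.sqrt (JJ E δ k))⁻¹ : ℝ) : ℂ) * fc vr vi k)) =
        (η * δ) * nn (fun k : T d L => ((((Real.sqrt (JJ E δ k))⁻¹ : ℝ) : ℂ) * fc vr vi k)) := by
      unfold nn nsq
      rw [← Real.sqrt_sq (show 0 ≤ η * δ by positivity), ← Real.sqrt_mul (by positivity),
        Finset.mul_sum, Real.sqrt_sq (show 0 ≤ η * δ by positivity)]
      congr 1
      refine Finset.sum_congr rfl fun k _ => ?_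
      rw [norm_mul, norm_mul, Complex.norm_I, mul_one, Complex.norm_real, Real.norm_eq_abs,
        abs_of_pos (by positivity), mul_pow]
    rw [e2]
    rw [← hB] at e1
    calc (η * δ) * nn (fun k : T d L => ((((Real.sqrt (JJ E δ k))⁻¹ : ℝ) : ℂ) * fc vr vi k)) ≤
        (η * δ) * (Real.sqrt (NN d L) * ((Real.sqrt δ)⁻¹ * B)) :=
          mul_le_mul_of_nonneg_left e1 (by positivity)
      _ = Real.sqrt (NN d L) * (η * ((δ * (Real.sqrt δ)⁻¹) * B)) := by ring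
      _ = _ := by
        have : δ * (Real.sqrt δ)⁻¹ = Real.sqrt δ := by
          rw [← div_eq_mul_inv, Real.div_sqrt]
        rw [this]
  have b3 : nn (fun k : T d L => (((Real.sqrt (JJ E δ k))⁻¹ : ℝ) : ℂ) * fc rr ri k) ≤
      Real.sqrt (NN d L) * ((Real.sqrt δ)⁻¹ * ρ) := by
    refine (nn_inv E δ hδ rr ri).trans ?_
    gcongr
  have b4 : nn (fun k : T d L => (((Real.sqrt (JJ E δ k))⁻¹ : ℝ) : ℂ) *
          fc (fun x => V x * vr x) (fun x => V x * vi x) k) ≤ κ * A := by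
    apply nn_le _ _ (by positivity)
    rw [nsq_mulr, mul_pow, hA2, sum_fc (JJ E δ) (JJ_neg E δ)]
    have e1 := form_op E δ κ hδ hκ V hf vr
    have e2 := form_op E δ κ hδ hκ V hf vi
    have e3 := sum_fc (fun k : T d L => (JJ E δ k)⁻¹) (fun k => by rw [JJ_neg])
      (fun x => V x * vr x) (fun x => V x * vi x)
    have e4 : ∑ k, (Real.sqrt (JJ E δ k))⁻¹ ^ 2 *
        ‖fc (fun x => V x * vr x) (fun x => V x * vi x) k‖ ^ 2 =
        ∑ k, (JJ E δ k)⁻¹ * ‖fc (fun x => V x * vr x) (fun x => V x * vi x) k‖ ^ 2 := by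
      refine Finset.sum_congr rfl fun k _ => ?_
      rw [inv_sqrt_sq E δ hδ]
    rw [e4, e3]
    calc NN d L * (q (fun k => (JJ E δ k)⁻¹) (fun x => V x * vr x) +
          q (fun k => (JJ E δ k)⁻¹) fun x => V x * vi x) ≤
        NN d L * (κ ^ 2 * q (JJ E δ) vr + κ ^ 2 * q (JJ E δ) vi) := by gcongr
      _ = _ := by ring
  have hXle : X ≤ Real.sqrt (NN d L) * Real.sqrt g1 +
      Real.sqrt (NN d L) * (η * (Real.sqrt δ * B)) + Real.sqrt (NN d L) * ((Real.sqrt δ)⁻¹ * ρ) +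
      κ * A := by
    rw [hX]
    unfold XN
    rw [heq]
    refine (nn_sub _ _).trans (add_le_add ((nn_add _ _).trans (add_le_add ((nn_add _ _).trans
      (add_le_add b1 b2)) b3)) b4)
  have h9 : κ * A ≤ 1 / 2 * X + κ * (Real.sqrt (NN d L) * (Real.sqrt δ * B)) := by
    have e1 := mul_le_mul_of_nonneg_left hAX hκ.le
    have e2 : κ * X ≤ 1 / 2 * X := mul_le_mul_of_nonneg_right hκ2 hX0
    linarith
  have h10 : Real.sqrt (NN d L) * (2 * Real.sqrt g1 + 2 * (κ + η) * (Real.sqrt δ * B) +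
      2 * ((Real.sqrt δ)⁻¹ * ρ)) = 2 * (Real.sqrt (NN d L) * Real.sqrt g1 +
      Real.sqrt (NN d L) * (η * (Real.sqrt δ * B)) + Real.sqrt (NN d L) * ((Real.sqrt δ)⁻¹ * ρ)) +
      2 * (κ * (Real.sqrt (NN d L) * (Real.sqrt δ * B))) := by ring
  rw [h10]
  linarith

/-- **comparison with the regularised resolvent** -/
theorem compare (E δ θ η κ g1 ρ τ : ℝ) (hδ : 0 < δ) (hη : 0 < η) (hκ : 0 < κ)
    (hκ2 : κ ≤ 1 / 2) (hg : ∑ k : T d L, (JJ E δ k)⁻¹ ≤ g1 * NN d L)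
    {V vr vi rr ri : T d L → ℝ} (h : Sol2 E (η * δ) V vr vi rr ri)
    (hf : ∀ w : T d L → ℝ, |∑ x, V x * w x ^ 2| ≤ κ * q (JJ E δ) w)
    (hρ0 : 0 ≤ ρ) (hρ : Real.sqrt (Bq rr ri) ≤ ρ) (hτ : 0 ≤ τ)
    (hU : ∀ x : T d L, |∑ y : T d L, V y * K (fun Q => 1 - hi θ Q) (x - y)| ≤ τ) (F : ℝ)
    (hF : F = (star (w0 (d := d) (L := L) E δ) ⬝ᵥ
      (RR (D0 E δ) (AA E δ θ) η V *ᵥ w0 E δ)).im) :
    |vi 0 - F| ≤ Real.sqrt (F / η) * ((Real.sqrt δ)⁻¹ * (ρ + τ * Real.sqrt (Bq vr vi)) +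
      η * (2 * Real.sqrt g1 + 2 * (κ + η) *
      (Real.sqrt δ * Real.sqrt (Bq vr vi)) + 2 * ((Real.sqrt δ)⁻¹ * ρ))) := by
  have hN := NN_pos (d := d) (L := L)
  have hsN : 0 < Real.sqrt (NN d L) := Real.sqrt_pos.2 hN
  have hsNc : ((Real.sqrt (NN d L) : ℝ) : ℂ) ≠ 0 := by exact_mod_cast hsN.ne'
  have hsδ : 0 < Real.sqrt δ := Real.sqrt_pos.2 hδ
  have hJ : ∀ k : T d L, 0 < JJ E δ k := fun k => JJ_pos E δ hδ k
  have hsJ : ∀ k : T d L, 0 < Real.sqrt (JJ E δ k) := fun k => Real.sqrt_pos.2 (hJ k)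
  have hsJc : ∀ k : T d L, ((Real.sqrt (JJ E δ k) : ℝ) : ℂ) ≠ 0 := fun k => by
    exact_mod_cast (hsJ k).ne'
  have hJsq : ∀ k : T d L, JJ E δ k ^ 2 = (adj k - E) ^ 2 + δ ^ 2 := fun k => by
    unfold JJ
    rw [Real.sq_sqrt (by positivity)]
  obtain ⟨hX1, -⟩ := XN_le E δ η κ g1 ρ hδ hη hκ hκ2 hg h hf hρ0 hρ
  obtain ⟨B, hB⟩ : ∃ B, B = Real.sqrt (Bq vr vi) := ⟨_, rfl⟩
  rw [← hB] at hX1 ⊢
  obtain ⟨Xb, hXb⟩ : ∃ Xb, Xb = 2 * Real.sqrt g1 + 2 * (κ + η) * (Real.sqrt δ * B) +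
    2 * ((Real.sqrt δ)⁻¹ * ρ) := ⟨_, rfl⟩
  rw [← hXb] at hX1 ⊢
  obtain ⟨U, hUd⟩ : ∃ U : T d L → ℝ, U = Op (fun Q => 1 - hi θ Q) V := ⟨_, rfl⟩
  have hUx : ∀ x, |U x| ≤ τ := by
    intro x
    have : U x = ∑ y : T d L, V y * K (fun Q => 1 - hi θ Q) (x - y) := by
      rw [hUd]
      unfold Op
      exact Finset.sum_congr rfl fun y _ => mul_comm _ _
    rw [this]
    exact hU x
  obtain ⟨φ, hφ⟩ : ∃ φ : T d L → ℂ, φ = fun k => (Real.sqrt (JJ E δ k) : ℂ) * fc vr vi k :=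
    ⟨_, rfl⟩
  -- the matrix equation
  have hXφ : ∀ k, (XX (D0 E δ) (AA E δ θ) V *ᵥ φ) k =
      (((Real.sqrt (JJ E δ k))⁻¹ : ℝ) : ℂ) * (1 + ((η * δ : ℝ) : ℂ) * Complex.I * fc vr vi k +
        fc rr ri k - fc (fun x => U x * vr x) (fun x => U x * vi x) k) := by
    intro k
    have e1 := XX_ft E δ θ hδ V vr k
    have e2 := XX_ft E δ θ hδ V vi k
    rw [← hUd] at e1 e2
    have e3 : φ = (fun k => (Real.sqrt (JJ E δ k) : ℂ) * ft vr k) +
        Complex.I • (fun k => (Real.sqrt (JJ E δ k) : ℂ) * ft vi k) := by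
      funext k
      rw [hφ]
      simp only [Pi.add_apply, Pi.smul_apply, smul_eq_mul]
      unfold fc
      ring
    rw [e3, Matrix.mulVec_add, Matrix.mulVec_smul, Pi.add_apply, Pi.smul_apply, e1, e2,
      smul_eq_mul]
    have e4 := fc_eq h k
    have e5 : fc (fun x => V x * vr x) (fun x => V x * vi x) k =
      ft (fun x => V x * vr x) k + Complex.I * ft (fun x => V x * vi x) k := rfl
    have e6 : fc (fun x => U x * vr x) (fun x => U x * vi x) k =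
      ft (fun x => U x * vr x) k + Complex.I * ft (fun x => U x * vi x) k := rfl
    have e7 : fc vr vi k = ft vr k + Complex.I * ft vi k := rfl
    rw [e5] at e4
    rw [e6]
    linear_combination (((Real.sqrt (JJ E δ k))⁻¹ : ℝ) : ℂ) * (e4 - ((adj k - E : ℝ) : ℂ) * e7)
  obtain ⟨ψ, hψ⟩ : ∃ ψ : T d L → ℂ, ψ = ((fun k : T d L =>
      (((Real.sqrt (JJ E δ k))⁻¹ : ℝ) : ℂ) * fc rr ri k) -
      (fun k : T d L => (((Real.sqrt (JJ E δ k))⁻¹ : ℝ) : ℂ) *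
        fc (fun x => U x * vr x) (fun x => U x * vi x) k)) -
      (fun k : T d L => ((η : ℂ) * Complex.I) *
        (((Real.sqrt (JJ E δ k) - δ * (Real.sqrt (JJ E δ k))⁻¹ : ℝ) : ℂ) * fc vr vi k)) :=
    ⟨_, rfl⟩
  have hw0 : ∀ k : T d L, ((Real.sqrt (NN d L) : ℝ) : ℂ) * w0 (d := d) (L := L) E δ k =
      (((Real.sqrt (JJ E δ k))⁻¹ : ℝ) : ℂ) := by
    intro k
    unfold w0
    push_cast
    rw [← mul_assoc, mul_inv_cancel₀ hsNc, one_mul]
  have hsol : (XX (D0 E δ) (AA E δ θ) V - ((η : ℂ) * Complex.I) •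
      (1 : Matrix (T d L) (T d L) ℂ)) *ᵥ φ =
      ((Real.sqrt (NN d L) : ℝ) : ℂ) • w0 (d := d) (L := L) E δ + ψ := by
    rw [Matrix.sub_mulVec, Matrix.smul_mulVec, Matrix.one_mulVec]
    funext k
    rw [Pi.sub_apply, hXφ k, Pi.add_apply, Pi.smul_apply, Pi.smul_apply, smul_eq_mul,
      smul_eq_mul, hw0, hψ, hφ]
    simp only [Pi.sub_apply]
    have e1 : (((Real.sqrt (JJ E δ k))⁻¹ : ℝ) : ℂ) * ((η * δ : ℝ) : ℂ) =
        (η : ℂ) * ((δ * (Real.sqrt (JJ E δ k))⁻¹ : ℝ) : ℂ) := by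
      push_cast
      ring
    have e2 : ((Real.sqrt (JJ E δ k) - δ * (Real.sqrt (JJ E δ k))⁻¹ : ℝ) : ℂ) =
        (Real.sqrt (JJ E δ k) : ℂ) - ((δ * (Real.sqrt (JJ E δ k))⁻¹ : ℝ) : ℂ) := by
      push_cast
      ring
    rw [e2]
    linear_combination (Complex.I * fc vr vi k) * e1
  have hφR : φ = RR (D0 E δ) (AA E δ θ) η V *ᵥ
      (((Real.sqrt (NN d L) : ℝ) : ℂ) • w0 (d := d) (L := L) E δ + ψ) := by
    have h1 := RR_mul (Pool.Agent.W363.BK.D0_herm (d := d) (L := L) E δ)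
      (fun y => Pool.Agent.W363.BK.AA_herm E δ θ y) hη V
    rw [← hsol, Matrix.mulVec_mulVec, h1, Matrix.one_mulVec]
  -- the value at zero
  have hval : star (w0 (d := d) (L := L) E δ) ⬝ᵥ φ =
      ((Real.sqrt (NN d L) : ℝ) : ℂ) * ((vr 0 : ℂ) + Complex.I * (vi 0 : ℂ)) := by
    have h1 : star (w0 (d := d) (L := L) E δ) ⬝ᵥ φ =
        (((Real.sqrt (NN d L))⁻¹ : ℝ) : ℂ) * ∑ k, fc vr vi k := by
      unfold dotProduct
      rw [Finset.mul_sum]
      refine Finset.sum_congr rfl fun k _ => ?_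
      rw [Pi.star_apply]
      unfold w0
      rw [RCLike.star_def, Complex.conj_ofReal, hφ]
      push_cast
      have := hsJc k
      field_simp
    have h2 : ∑ k, fc vr vi k = (NN d L : ℂ) * ((vr 0 : ℂ) + Complex.I * (vi 0 : ℂ)) := by
      unfold fc
      rw [Finset.sum_add_distrib, ← Finset.mul_sum, Pool.Agent.W363.BK.at_zero,
        Pool.Agent.W363.BK.at_zero]
      ring
    rw [h1, h2, ← mul_assoc]
    congr 1
    have h3 : ((NN d L : ℝ) : ℂ) = ((Real.sqrt (NN d L) : ℝ) : ℂ) *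
        ((Real.sqrt (NN d L) : ℝ) : ℂ) := by
      rw [← Complex.ofReal_mul, Real.mul_self_sqrt hN.le]
    rw [h3]
    push_cast
    rw [← mul_assoc, inv_mul_cancel₀ hsNc, one_mul]
  obtain ⟨R, hR⟩ : ∃ R, R = RR (D0 (d := d) (L := L) E δ) (AA E δ θ) η V := ⟨_, rfl⟩
  rw [← hR] at hφR hF
  have hmain : ((Real.sqrt (NN d L) : ℝ) : ℂ) * ((vr 0 : ℂ) + Complex.I * (vi 0 : ℂ)) =
      ((Real.sqrt (NN d L) : ℝ) : ℂ) * (star (w0 (d := d) (L := L) E δ) ⬝ᵥ (R *ᵥ w0 E δ)) +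
        star (w0 (d := d) (L := L) E δ) ⬝ᵥ (R *ᵥ ψ) := by
    rw [← hval]
    nth_rewrite 1 [hφR]
    rw [Matrix.mulVec_add, Matrix.mulVec_smul, dotProduct_add, dotProduct_smul, smul_eq_mul]
  have hdiff : Real.sqrt (NN d L) * |vi 0 - F| ≤
      ‖star (w0 (d := d) (L := L) E δ) ⬝ᵥ (R *ᵥ ψ)‖ := by
    have h2 : ((vr 0 : ℂ) + Complex.I * (vi 0 : ℂ)).im = vi 0 := by simp
    have h20 : (((Real.sqrt (NN d L) : ℝ) : ℂ) * ((vr 0 : ℂ) + Complex.I * (vi 0 : ℂ))).im =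
        Real.sqrt (NN d L) * vi 0 := by rw [Complex.im_ofReal_mul, h2]
    have h21 : (((Real.sqrt (NN d L) : ℝ) : ℂ) *
        (star (w0 (d := d) (L := L) E δ) ⬝ᵥ (R *ᵥ w0 E δ))).im = Real.sqrt (NN d L) * F := by
      rw [Complex.im_ofReal_mul, hF]
    have h3 : Real.sqrt (NN d L) * (vi 0 - F) =
        (star (w0 (d := d) (L := L) E δ) ⬝ᵥ (R *ᵥ ψ)).im := by
      rw [mul_sub, ← h20, ← h21, hmain, Complex.add_im]
      ring
    have h4 := Complex.abs_im_le_norm (star (w0 (d := d) (L := L) E δ) ⬝ᵥ (R *ᵥ ψ))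
    rw [← h3, abs_mul, abs_of_pos hsN] at h4
    exact h4
  have hward := (ward (Pool.Agent.W363.BK.D0_herm (d := d) (L := L) E δ)
    (fun y => Pool.Agent.W363.BK.AA_herm E δ θ y) hη V (w0 (d := d) (L := L) E δ)).2
  rw [← hR, ← hF] at hward
  have hnR : nn (Rᴴ *ᵥ w0 (d := d) (L := L) E δ) = Real.sqrt (F / η) := by
    unfold nn
    rw [hward]
    congr 1
    field_simp
  have hcs : ‖star (w0 (d := d) (L := L) E δ) ⬝ᵥ (R *ᵥ ψ)‖ ≤ Real.sqrt (F / η) * nn ψ := by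
    rw [adjoint, ← hnR]
    exact cs_norm _ _
  have hψn : nn ψ ≤ Real.sqrt (NN d L) * ((Real.sqrt δ)⁻¹ * (ρ + τ * B) + η * Xb) := by
    have c1 : nn (fun k : T d L => (((Real.sqrt (JJ E δ k))⁻¹ : ℝ) : ℂ) * fc rr ri k) ≤
        Real.sqrt (NN d L) * ((Real.sqrt δ)⁻¹ * ρ) := by
      refine (nn_inv E δ hδ rr ri).trans ?_
      gcongr
    have c2 : nn (fun k : T d L => (((Real.sqrt (JJ E δ k))⁻¹ : ℝ) : ℂ) *
        fc (fun x => U x * vr x) (fun x => U x * vi x) k) ≤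
        Real.sqrt (NN d L) * ((Real.sqrt δ)⁻¹ * (τ * B)) := by
      refine (nn_inv E δ hδ _ _).trans ?_
      have : Real.sqrt (Bq (fun x => U x * vr x) (fun x => U x * vi x)) ≤ τ * B := by
        rw [hB, Real.sqrt_le_left (by positivity), mul_pow, Real.sq_sqrt (Bq_nonneg _ _)]
        unfold Bq
        have e1 : ∀ f : T d L → ℝ, ∑ x, (U x * f x) ^ 2 ≤ τ ^ 2 * ∑ x, f x ^ 2 := by
          intro f
          rw [Finset.mul_sum]
          refine Finset.sum_le_sum fun x _ => ?_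
          rw [mul_pow]
          refine mul_le_mul_of_nonneg_right ?_ (sq_nonneg _)
          rw [← sq_abs]
          exact pow_le_pow_left₀ (abs_nonneg _) (hUx x) 2
        have := e1 vr
        have := e1 vi
        rw [mul_add]
        linarith
      gcongr
    have c3 : nn (fun k : T d L => ((η : ℂ) * Complex.I) *
        (((Real.sqrt (JJ E δ k) - δ * (Real.sqrt (JJ E δ k))⁻¹ : ℝ) : ℂ) * fc vr vi k)) ≤
        η * XN E δ vr vi := by
      apply nn_le _ _ (mul_nonneg hη.le (nn_nonneg _))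
      rw [mul_pow, nn_sq]
      unfold nsq
      rw [Finset.mul_sum]
      refine Finset.sum_le_sum fun k _ => ?_
      rw [norm_mul, norm_mul, norm_mul, norm_mul, norm_mul, Complex.norm_I, mul_one,
        Complex.norm_real, Complex.norm_real, Complex.norm_real, Complex.norm_real,
        Real.norm_eq_abs, Real.norm_eq_abs, Real.norm_eq_abs, Real.norm_eq_abs,
        abs_of_pos hη, mul_pow, mul_pow, mul_pow, mul_pow, sq_abs, sq_abs, sq_abs]
      apply mul_le_mul_of_nonneg_left _ (sq_nonneg _)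
      rw [← mul_assoc]
      apply mul_le_mul_of_nonneg_right _ (sq_nonneg _)
      rw [inv_sqrt_sq E δ hδ]
      have h3 := hJ k
      have h4 := Pool.Agent.W363.BK.JJ_ge (d := d) (L := L) E δ hδ k
      have h5 : (Real.sqrt (JJ E δ k) - δ * (Real.sqrt (JJ E δ k))⁻¹) ^ 2 =
          (JJ E δ k)⁻¹ * (JJ E δ k - δ) ^ 2 := by
        rw [← inv_sqrt_sq E δ hδ k, ← mul_pow]
        have h8 : (Real.sqrt (JJ E δ k))⁻¹ * JJ E δ k = Real.sqrt (JJ E δ k) := by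
          rw [inv_mul_eq_div, Real.div_sqrt]
        rw [mul_sub, h8]
        ring
      rw [h5]
      apply mul_le_mul_of_nonneg_left _ (inv_nonneg.2 h3.le)
      have := hJsq k
      nlinarith
    rw [hψ]
    refine (nn_sub _ _).trans ?_
    have c4 := nn_sub (fun k : T d L => (((Real.sqrt (JJ E δ k))⁻¹ : ℝ) : ℂ) * fc rr ri k)
      (fun k : T d L => (((Real.sqrt (JJ E δ k))⁻¹ : ℝ) : ℂ) *
        fc (fun x => U x * vr x) (fun x => U x * vi x) k)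
    have c5 := mul_le_mul_of_nonneg_left hX1 hη.le
    have c6 : Real.sqrt (NN d L) * ((Real.sqrt δ)⁻¹ * (ρ + τ * B) + η * Xb) =
        Real.sqrt (NN d L) * ((Real.sqrt δ)⁻¹ * ρ) +
        Real.sqrt (NN d L) * ((Real.sqrt δ)⁻¹ * (τ * B)) +
        η * (Real.sqrt (NN d L) * Xb) := by ring
    rw [c6]
    linarith
  refine le_of_mul_le_mul_left ?_ hsN
  refine hdiff.trans (hcs.trans ?_)
  calc Real.sqrt (F / η) * nn ψ ≤ Real.sqrt (F / η) *
        (Real.sqrt (NN d L) * ((Real.sqrt δ)⁻¹ * (ρ + τ * B) + η * Xb)) :=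
        mul_le_mul_of_nonneg_left hψn (Real.sqrt_nonneg _)
    _ = _ := by ring

end Pool.Agent.TH794.LL2
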