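import Pool.Agent.W340.BK.Conc

/-! Two-sided concentration of `Im ⟨w, R w⟩`, by moment doubling for the functional and for its
inverse. -/

set_option autoImplicit false
set_option linter.unusedSectionVars false

open scoped BigOperators Matrix
open MeasureTheory

namespace Pool.Agent.TH794.LL2

open Pool.Agent.W788.BK Pool.Agent.W340.BK.Conc

variable {n m : Type} [Fintype n] [DecidableEq n] [Fintype m] [DecidableEq m]

/-- the Efron-Stein hypothesis -/
def ESH (μ : Measure ℝ) (F : (m → ℝ) → ℝ) (D : ℝ) : Prop :=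
  ∀ᵐ V ∂(PP m μ), ∑ y, |F V - F (Function.update V y 0)| ^ 2 ≤ D ^ 2 * F V ^ 2

/-- moments by doubling -/
theorem mom (hES : S_ES) (μ : Measure ℝ) [IsProbabilityMeasure μ] (F : (m → ℝ) → ℝ)
    (hF : Continuous F) (C : ℝ) (hC : ∀ V, F V ≤ C) (hF0 : ∀ V, 0 ≤ F V) (D : ℝ) (hD : 0 ≤ D)
    (h : ESH μ F D) (j : ℕ) (hj : (2 : ℝ) ^ j * D ≤ 1 / 2) :
    ∫ V, F V ^ (2 ^ j) ∂(PP m μ) ≤
      Real.exp (2 ^ j * (2 * D ^ 2 * (2 ^ j - 1))) * (∫ V, F V ∂(PP m μ)) ^ (2 ^ j) := by
  induction j with
  | zero => simp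
  | succ j ih =>
    have hj' : (2 : ℝ) ^ j * D ≤ 1 / 4 := by
      rw [pow_succ] at hj; linarith
    have e1 := ih (by linarith)
    have e2 := step hES μ F hF C hC hF0 D hD h (2 ^ j) Nat.one_le_two_pow
      (by push_cast; exact hj')
    have e0 : 2 * 2 ^ j = 2 ^ (j + 1) := by rw [pow_succ]; ring
    rw [e0] at e2
    refine e2.trans ?_
    have e3 : (∫ V, F V ^ (2 ^ j) ∂(PP m μ)) ^ 2 ≤
        (Real.exp (2 ^ j * (2 * D ^ 2 * (2 ^ j - 1))) * (∫ V, F V ∂(PP m μ)) ^ (2 ^ j)) ^ 2 :=
      pow_le_pow_left₀ (integral_nonneg fun V => pow_nonneg (hF0 V) _) e1 2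
    refine (mul_le_mul_of_nonneg_left e3 (Real.exp_pos _).le).trans (le_of_eq ?_)
    rw [mul_pow, ← Real.exp_nat_mul, ← pow_mul, ← mul_assoc, ← Real.exp_add]
    congr 1
    · congr 1
      push_cast
      rw [pow_succ]
      ring

theorem exp_half_le (u : ℝ) (h0 : 0 ≤ u) (h1 : u ≤ 1) : Real.exp (u / 2) ≤ 1 + u := by
  have h2 := Real.add_one_le_exp (-(u / 2))
  rw [Real.exp_neg] at h2
  have h3 : 0 < Real.exp (u / 2) := Real.exp_pos _
  have h4 : (1 - u / 2) * Real.exp (u / 2) ≤ 1 := by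
    have := mul_le_mul_of_nonneg_right h2 h3.le
    rw [inv_mul_cancel₀ h3.ne'] at this
    linarith
  have h5 : 1 ≤ (1 + u) * (1 - u / 2) := by nlinarith
  have h6 : 0 < 1 - u / 2 := by linarith
  refine le_of_mul_le_mul_left ?_ h6
  linarith

/-- the upper tail -/
theorem up_tail (hES : S_ES) (μ : Measure ℝ) [IsProbabilityMeasure μ] (F : (m → ℝ) → ℝ)
    (hF : Continuous F) (C : ℝ) (hC : ∀ V, F V ≤ C) (hF0 : ∀ V, 0 ≤ F V) (D : ℝ) (hD : 0 < D)
    (hD1 : D ≤ 1 / 64) (h : ESH μ F D) :
    (PP m μ).real {V | (1 + 8 * Real.sqrt D) * (∫ U, F U ∂(PP m μ)) < F V} ≤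
      Real.exp (1 / 2 - 1 / Real.sqrt D) := by
  obtain ⟨E, hE⟩ : ∃ E, E = ∫ V, F V ∂(PP m μ) := ⟨_, rfl⟩
  have hm := fun j hj => mom hES μ F hF C hC hF0 D hD.le h j hj
  rw [← hE] at hm ⊢
  have hE0 : 0 ≤ E := by rw [hE]; exact integral_nonneg hF0
  have int1 : ∀ q : ℕ, Integrable (fun V => F V ^ q) (PP m μ) := fun q =>
    Integrable.of_bound (hF.pow q).aestronglyMeasurable (C ^ q)
      (Filter.Eventually.of_forall fun V => by
        rw [Real.norm_eq_abs, abs_of_nonneg (pow_nonneg (hF0 V) q)]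
        exact pow_le_pow_left₀ (hF0 V) (hC V) q)
  have hs0 : 0 < Real.sqrt D := Real.sqrt_pos.2 hD
  have hs2 : Real.sqrt D * Real.sqrt D = D := Real.mul_self_sqrt hD.le
  have hs1 : Real.sqrt D ≤ 1 / 8 := by
    rw [Real.sqrt_le_left (by norm_num)]
    linarith
  obtain ⟨u, hu⟩ : ∃ u, u = 8 * Real.sqrt D := ⟨_, rfl⟩
  have hu0 : 0 < u := by rw [hu]; positivity
  have hu1 : u ≤ 1 := by rw [hu]; linarith
  rw [← hu]
  have hx1 : 1 ≤ 1 / (4 * D) := by
    rw [le_div_iff₀ (by positivity)]; linarith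
  obtain ⟨k, hk1, hk2⟩ := exists_nat_pow_near hx1 (by norm_num : (1 : ℝ) < 2)
  have hk3 : (2 : ℝ) ^ (k + 1) * D ≤ 1 / 2 := by
    rw [le_div_iff₀ (by positivity)] at hk1
    rw [pow_succ]; linarith
  have e1 := hm (k + 1) hk3
  obtain ⟨N, hN⟩ : ∃ N : ℕ, N = 2 ^ (k + 1) := ⟨_, rfl⟩
  have hNr : (N : ℝ) = 2 ^ (k + 1) := by rw [hN]; push_cast; rfl
  rw [← hN, ← hNr] at e1
  rw [← hNr] at hk2 hk3
  have e2 : Real.exp (N * (2 * D ^ 2 * (N - 1))) ≤ Real.exp (1 / 2) := by
    refine Real.exp_le_exp.2 ?_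
    have h1 : (N * D) ^ 2 ≤ (1 / 2) ^ 2 := pow_le_pow_left₀ (by positivity) hk3 2
    have h2 : 0 ≤ 2 * D ^ 2 * (N : ℝ) := by positivity
    nlinarith
  have hEN : 0 ≤ E ^ N := pow_nonneg hE0 N
  have e3 : ∫ V, F V ^ N ∂(PP m μ) ≤ Real.exp (1 / 2) * E ^ N :=
    e1.trans (mul_le_mul_of_nonneg_right e2 hEN)
  have hlast : Real.exp (1 / 2 - N * (u / 2)) ≤ Real.exp (1 / 2 - 1 / Real.sqrt D) := by
    apply Real.exp_le_exp.2
    have h1 : 1 / Real.sqrt D = 1 / (4 * D) * (u / 2) := by
      rw [hu]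
      field_simp
      rw [sq, hs2]
      ring
    have h2 : 1 / (4 * D) * (u / 2) ≤ N * (u / 2) :=
      mul_le_mul_of_nonneg_right hk2.le (by positivity)
    linarith
  rcases hE0.lt_or_eq with hpos | hzero
  · have m1 := mul_meas_ge_le_integral_of_nonneg (μ := PP m μ) (f := fun V => F V ^ N)
      (Filter.Eventually.of_forall fun V => pow_nonneg (hF0 V) N) (int1 N) (((1 + u) * E) ^ N)
    have m2 : (PP m μ).real {V | (1 + u) * E < F V} ≤
        (PP m μ).real {V | ((1 + u) * E) ^ N ≤ F V ^ N} := by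
      refine measureReal_mono fun V hV => ?_
      exact pow_le_pow_left₀ (by positivity : (0 : ℝ) ≤ (1 + u) * E)
        (show (1 + u) * E < F V from hV).le N
    have m3 : ((1 + u) * E) ^ N * (PP m μ).real {V | (1 + u) * E < F V} ≤
        Real.exp (1 / 2) * E ^ N :=
      (mul_le_mul_of_nonneg_left m2 (by positivity)).trans (m1.trans e3)
    have m4 : (1 + u) ^ N * (PP m μ).real {V | (1 + u) * E < F V} ≤ Real.exp (1 / 2) := by
      have hEp : 0 < E ^ N := pow_pos hpos N
      rw [mul_pow] at m3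
      refine le_of_mul_le_mul_right ?_ hEp
      calc _ = (1 + u) ^ N * E ^ N * (PP m μ).real {V | (1 + u) * E < F V} := by ring
        _ ≤ _ := m3
    have m6 : Real.exp (N * (u / 2)) ≤ (1 + u) ^ N := by
      rw [Real.exp_nat_mul]
      exact pow_le_pow_left₀ (Real.exp_pos _).le (exp_half_le u hu0.le hu1) N
    have m7 : Real.exp (N * (u / 2)) * (PP m μ).real {V | (1 + u) * E < F V} ≤
        Real.exp (1 / 2) :=
      (mul_le_mul_of_nonneg_right m6 measureReal_nonneg).trans m4
    have m8 : (PP m μ).real {V | (1 + u) * E < F V} ≤ Real.exp (1 / 2 - N * (u / 2)) := by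
      refine le_of_mul_le_mul_left ?_ (Real.exp_pos (N * (u / 2)))
      rw [← Real.exp_add]
      refine m7.trans (le_of_eq ?_)
      congr 1
      ring
    exact m8.trans hlast
  · have i1 : Integrable F (PP m μ) := by simpa using int1 1
    have z1 := (integral_eq_zero_iff_of_nonneg hF0 i1).1 (by rw [← hE]; exact hzero.symm)
    have z2 : (PP m μ).real {V | (1 + u) * E < F V} = 0 := by
      rw [measureReal_def]
      have : (PP m μ) {V | (1 + u) * E < F V} = 0 := by
        rw [← hzero, mul_zero]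
        refine measure_mono_null (fun V hV => ?_) (ae_iff.1 z1)
        intro h
        have hV' : 0 < F V := hV
        rw [h] at hV'
        exact lt_irrefl _ hV'
      rw [this]; rfl
    rw [z2]
    exact (Real.exp_pos _).le

/-- the variance -/
theorem var_le (hES : S_ES) (μ : Measure ℝ) [IsProbabilityMeasure μ] (F : (m → ℝ) → ℝ)
    (hF : Continuous F) (C : ℝ) (hC : ∀ V, F V ≤ C) (hF0 : ∀ V, 0 ≤ F V) (D : ℝ) (hD : 0 ≤ D)
    (hD1 : D ≤ 1 / 4) (h : ESH μ F D) :
    ∫ V, (F V - ∫ U, F U ∂(PP m μ)) ^ 2 ∂(PP m μ) ≤ 8 * D ^ 2 * (∫ U, F U ∂(PP m μ)) ^ 2 := by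
  obtain ⟨E, hE⟩ : ∃ E, E = ∫ V, F V ∂(PP m μ) := ⟨_, rfl⟩
  have e1 := mom hES μ F hF C hC hF0 D hD h 1 (by norm_num; linarith)
  rw [← hE] at e1 ⊢
  have int1 : ∀ q : ℕ, Integrable (fun V => F V ^ q) (PP m μ) := fun q =>
    Integrable.of_bound (hF.pow q).aestronglyMeasurable (C ^ q)
      (Filter.Eventually.of_forall fun V => by
        rw [Real.norm_eq_abs, abs_of_nonneg (pow_nonneg (hF0 V) q)]
        exact pow_le_pow_left₀ (hF0 V) (hC V) q)
  have i1 : Integrable F (PP m μ) := by simpa using int1 1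
  have h2 : ∫ V, (F V - E) ^ 2 ∂(PP m μ) = ∫ V, F V ^ 2 ∂(PP m μ) - E ^ 2 := by
    have e1 : ∀ V, (F V - E) ^ 2 = F V ^ 2 - 2 * E * F V + E ^ 2 := by
      intro V
      ring
    simp only [e1]
    have i3 : Integrable (fun V => F V ^ 2 - 2 * E * F V) (PP m μ) :=
      (int1 _).sub (i1.const_mul _)
    rw [integral_add i3 (integrable_const _),
      integral_sub (int1 _) (i1.const_mul _), integral_const_mul, integral_const,
      probReal_univ, ← hE]
    simp only [smul_eq_mul]
    ring
  rw [h2]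
  norm_num at e1
  have hx : 4 * D ^ 2 ≤ 1 / 4 := by nlinarith
  have h3 : Real.exp (2 * (2 * D ^ 2)) ≤ 1 + 8 * D ^ 2 := by
    have h4 := exp_half_le (8 * D ^ 2) (by positivity) (by linarith)
    have h5 : 8 * D ^ 2 / 2 = 2 * (2 * D ^ 2) := by ring
    rw [h5] at h4
    exact h4
  have h6 : 0 ≤ E ^ 2 := sq_nonneg _
  nlinarith [mul_le_mul_of_nonneg_right h3 h6]

/-- **two-sided concentration for a functional** -/
theorem two_tail (hES : S_ES) (μ : Measure ℝ) [IsProbabilityMeasure μ] (F : (m → ℝ) → ℝ)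
    (hF : Continuous F) (C : ℝ) (hC : ∀ V, F V ≤ C) (hF0 : ∀ V, 0 ≤ F V) (D : ℝ) (hD : 0 < D)
    (hD1 : D ≤ 1 / 128) (h : ESH μ F D) :
    (PP m μ).real {V | 40 * Real.sqrt D * (∫ U, F U ∂(PP m μ)) <
      |F V - ∫ U, F U ∂(PP m μ)|} ≤ 2 * Real.exp (1 / 2 - 1 / Real.sqrt (2 * D)) := by
  have hup := up_tail hES μ F hF C hC hF0 D hD (by linarith) h
  have hvar := var_le hES μ F hF C hC hF0 D hD.le (by linarith) h
  obtain ⟨E, hE⟩ : ∃ E, E = ∫ V, F V ∂(PP m μ) := ⟨_, rfl⟩
  rw [← hE] at hup hvar ⊢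
  have hE0 : 0 ≤ E := by rw [hE]; exact integral_nonneg hF0
  have int1 : Integrable F (PP m μ) :=
    Integrable.of_bound hF.aestronglyMeasurable C
      (Filter.Eventually.of_forall fun V => by
        rw [Real.norm_eq_abs, abs_of_nonneg (hF0 V)]
        exact hC V)
  have hs0 : 0 < Real.sqrt D := Real.sqrt_pos.2 hD
  have hs2 : Real.sqrt D * Real.sqrt D = D := Real.mul_self_sqrt hD.le
  have hr : Real.sqrt (2 * D) ≤ 3 / 2 * Real.sqrt D := by
    rw [Real.sqrt_le_left (by positivity), mul_pow, sq (Real.sqrt D), hs2]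
    linarith
  have hr0 : 0 < Real.sqrt (2 * D) := Real.sqrt_pos.2 (by linarith)
  have hs3 : Real.sqrt D ≤ 1 / 11 := by
    rw [Real.sqrt_le_left (by norm_num)]
    linarith
  have hDs : D ≤ 1 / 11 * Real.sqrt D := by nlinarith
  -- upper tail
  have t1 : (PP m μ).real {V | (1 + 8 * Real.sqrt D) * E < F V} ≤
      Real.exp (1 / 2 - 1 / Real.sqrt (2 * D)) := by
    refine hup.trans (Real.exp_le_exp.2 ?_)
    have : 1 / Real.sqrt (2 * D) ≤ 1 / Real.sqrt D :=
      one_div_le_one_div_of_le hs0 (Real.sqrt_le_sqrt (by linarith))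
    linarith
  -- lower tail
  have t2 : (PP m μ).real {V | F V < (1 - 40 * Real.sqrt D) * E} ≤
      Real.exp (1 / 2 - 1 / Real.sqrt (2 * D)) := by
    rcases hE0.eq_or_lt with hzero | hpos
    · rw [← hzero, mul_zero]
      have : {V | F V < 0} = ∅ := by
        ext V
        simp only [Set.mem_ofPred_eq, Set.mem_empty_iff_false, iff_false, not_lt]
        exact hF0 V
      rw [this, measureReal_empty]
      exact (Real.exp_pos _).le
    · obtain ⟨c, hc⟩ : ∃ c, c = D * E := ⟨_, rfl⟩
      have hc0 : 0 < c := by rw [hc]; positivity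
      obtain ⟨G, hG⟩ : ∃ G : (m → ℝ) → ℝ, G = fun V => (F V + c)⁻¹ := ⟨_, rfl⟩
      have hGc : Continuous G := by
        rw [hG]
        exact (hF.add continuous_const).inv₀ fun V =>
          (show 0 < F V + c by linarith [hF0 V]).ne'
      have hG0 : ∀ V, 0 ≤ G V := fun V => by
        rw [hG]
        exact inv_nonneg.2 (by linarith [hF0 V])
      have hGC : ∀ V, G V ≤ c⁻¹ := fun V => by
        rw [hG]
        have := hF0 V
        exact inv_anti₀ hc0 (by linarith)
      have hGh : ESH μ G (2 * D) := by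
        filter_upwards [h] with V hV
        have h1 : ∀ y, |G V - G (Function.update V y 0)| ^ 2 ≤
            4 * (F V + c)⁻¹ ^ 2 * (F V + c)⁻¹ ^ 2 *
              |F V - F (Function.update V y 0)| ^ 2 := by
          intro y
          obtain ⟨f, hf⟩ : ∃ f, f = F V := ⟨_, rfl⟩
          obtain ⟨f', hf'⟩ : ∃ f', f' = F (Function.update V y 0) := ⟨_, rfl⟩
          have hf0 : 0 ≤ f := by rw [hf]; exact hF0 V
          have hf0' : 0 ≤ f' := by rw [hf']; exact hF0 _
          have h2 : |f - f'| ^ 2 ≤ D ^ 2 * f ^ 2 := by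
            rw [hf, hf']
            exact (Finset.single_le_sum (f := fun i => |F V - F (Function.update V i 0)| ^ 2)
              (fun _ _ => by positivity) (Finset.mem_univ y)).trans hV
          have h3 : |f - f'| ≤ D * f := by
            rw [← mul_pow] at h2
            exact le_of_sq_le_sq' h2 (by positivity)
          have h4 : (f + c) / 2 ≤ f' + c := by
            have := (abs_le.1 h3).2
            have : D * f ≤ 1 / 128 * f := mul_le_mul_of_nonneg_right hD1 hf0
            linarith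
          have h5 : (f' + c)⁻¹ ≤ 2 * (f + c)⁻¹ := by
            have h6 : ((f + c) / 2)⁻¹ = 2 * (f + c)⁻¹ := by
              rw [inv_div, div_eq_mul_inv]
            rw [← h6]
            exact inv_anti₀ (by positivity) h4
          rw [hG]
          simp only
          rw [← hf, ← hf']
          have h7 : (f + c)⁻¹ - (f' + c)⁻¹ = -((f - f') * ((f + c)⁻¹ * (f' + c)⁻¹)) := by
            have e1 : f + c ≠ 0 := by positivity
            have e2 : f' + c ≠ 0 := by positivity
            field_simp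
            ring
          rw [h7, abs_neg, abs_mul, abs_of_nonneg (by positivity : 0 ≤ (f + c)⁻¹ * (f' + c)⁻¹)]
          have h8 : (f + c)⁻¹ * (f' + c)⁻¹ ≤ (f + c)⁻¹ * (2 * (f + c)⁻¹) :=
            mul_le_mul_of_nonneg_left h5 (by positivity)
          calc (|f - f'| * ((f + c)⁻¹ * (f' + c)⁻¹)) ^ 2 ≤
              (|f - f'| * ((f + c)⁻¹ * (2 * (f + c)⁻¹))) ^ 2 := by
                apply pow_le_pow_left₀ (by positivity)
                exact mul_le_mul_of_nonneg_left h8 (abs_nonneg _)
            _ = _ := by ring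
        refine (Finset.sum_le_sum fun y _ => h1 y).trans ?_
        rw [← Finset.mul_sum]
        have hf0 := hF0 V
        have h2 : F V ^ 2 * (F V + c)⁻¹ ^ 2 ≤ 1 := by
          rw [← mul_pow]
          apply pow_le_one₀ (by positivity)
          rw [← div_eq_mul_inv, div_le_one (by positivity)]
          linarith
        calc 4 * (F V + c)⁻¹ ^ 2 * (F V + c)⁻¹ ^ 2 *
              ∑ y, |F V - F (Function.update V y 0)| ^ 2 ≤
            4 * (F V + c)⁻¹ ^ 2 * (F V + c)⁻¹ ^ 2 * (D ^ 2 * F V ^ 2) :=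
              mul_le_mul_of_nonneg_left hV (by positivity)
          _ = (2 * D) ^ 2 * (F V + c)⁻¹ ^ 2 * (F V ^ 2 * (F V + c)⁻¹ ^ 2) := by ring
          _ ≤ (2 * D) ^ 2 * (F V + c)⁻¹ ^ 2 * 1 := mul_le_mul_of_nonneg_left h2 (by positivity)
          _ = _ := by rw [hG]; simp
      have gup := up_tail hES μ G hGc c⁻¹ hGC hG0 (2 * D) (by positivity) (by linarith) hGh
      have gvar := var_le hES μ G hGc c⁻¹ hGC hG0 (2 * D) (by positivity) (by linarith) hGh
      obtain ⟨E', hE'⟩ : ∃ E', E' = ∫ V, G V ∂(PP m μ) := ⟨_, rfl⟩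
      rw [← hE'] at gup gvar
      have intG : Integrable G (PP m μ) :=
        Integrable.of_bound hGc.aestronglyMeasurable c⁻¹
          (Filter.Eventually.of_forall fun V => by
            rw [Real.norm_eq_abs, abs_of_nonneg (hG0 V)]
            exact hGC V)
      have hE'0 : 0 ≤ E' := by rw [hE']; exact integral_nonneg hG0
      have hbdd : ∀ (f : (m → ℝ) → ℝ), Continuous f → (∃ B : ℝ, ∀ V, |f V| ≤ B) →
          Integrable f (PP m μ) := by
        rintro f hf ⟨B, hB⟩
        exact Integrable.of_bound hf.aestronglyMeasurable B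
          (Filter.Eventually.of_forall fun V => by rw [Real.norm_eq_abs]; exact hB V)
      have hC0 : 0 ≤ C := (hF0 (fun _ => 0)).trans (hC _)
      -- the product of the means
      have hprod : E' * (E + c) * (1 - 20 * D ^ 2) ≤ 1 := by
        have e1 : ∀ V, G V * (F V + c) = 1 := by
          intro V
          rw [hG]
          have := hF0 V
          exact inv_mul_cancel₀ (by positivity)
        have iab : Integrable (fun V => (G V - E') * (F V - E)) (PP m μ) := by
          refine hbdd _ ((hGc.sub continuous_const).mul (hF.sub continuous_const)) ⟨(c⁻¹ + E') * (C + E), fun V => ?_⟩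
          rw [abs_mul]
          refine mul_le_mul ?_ ?_ (abs_nonneg _) (by positivity)
          · rw [abs_le]
            constructor <;> linarith [hG0 V, hGC V, inv_pos.2 hc0]
          · rw [abs_le]
            constructor <;> linarith [hF0 V, hC V]
        have ia : Integrable (fun V => (G V - E') ^ 2) (PP m μ) := by
          refine hbdd _ ((hGc.sub continuous_const).pow 2) ⟨(c⁻¹ + E') ^ 2, fun V => ?_⟩
          rw [abs_pow]
          apply pow_le_pow_left₀ (abs_nonneg _)
          rw [abs_le]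
          constructor <;> linarith [hG0 V, hGC V, inv_pos.2 hc0]
        have ib : Integrable (fun V => (F V - E) ^ 2) (PP m μ) := by
          refine hbdd _ ((hF.sub continuous_const).pow 2) ⟨(C + E) ^ 2, fun V => ?_⟩
          rw [abs_pow]
          apply pow_le_pow_left₀ (abs_nonneg _)
          rw [abs_le]
          constructor <;> linarith [hF0 V, hC V]
        have e2 : ∫ V, (G V - E') * (F V - E) ∂(PP m μ) = 1 - E' * (E + c) := by
          have e3 : ∀ V, (G V - E') * (F V - E) = 1 - (E + c) * G V - E' * F V + E' * E := by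
            intro V
            have := e1 V
            linear_combination this
          simp only [e3]
          have j1 : Integrable (fun V => (1 : ℝ) - (E + c) * G V) (PP m μ) :=
            (integrable_const _).sub (intG.const_mul _)
          have j2 : Integrable (fun V => (1 : ℝ) - (E + c) * G V - E' * F V) (PP m μ) :=
            j1.sub (int1.const_mul _)
          rw [integral_add j2 (integrable_const _), integral_sub j1 (int1.const_mul _),
            integral_sub (integrable_const _) (intG.const_mul _), integral_const_mul,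
            integral_const_mul, integral_const, integral_const, probReal_univ, ← hE, ← hE']
          simp only [smul_eq_mul]
          ring
        rcases hE'0.eq_or_lt with hz | hp
        · rw [← hz]
          simp
        · obtain ⟨x, hx⟩ : ∃ x, x = (E + c) / E' := ⟨_, rfl⟩
          have hx0 : 0 < x := by rw [hx]; positivity
          have e4 : ∀ V, -((x / 2) * (G V - E') ^ 2 + (x⁻¹ / 2) * (F V - E) ^ 2) ≤
              (G V - E') * (F V - E) := by
            intro V
            obtain ⟨a, ha⟩ : ∃ a, a = G V - E' := ⟨_, rfl⟩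
            obtain ⟨b, hb⟩ : ∃ b, b = F V - E := ⟨_, rfl⟩
            rw [← ha, ← hb]
            have e5 : a * b + ((x / 2) * a ^ 2 + (x⁻¹ / 2) * b ^ 2) = (x * a + b) ^ 2 / (2 * x) := by
              field_simp
              ring
            have e6 : 0 ≤ (x * a + b) ^ 2 / (2 * x) := by positivity
            linarith
          have e7 := integral_mono (μ := PP m μ)
            (((ia.const_mul (x / 2)).add (ib.const_mul (x⁻¹ / 2))).neg) iab e4
          rw [e2] at e7
          have e8 : ∫ V, -((x / 2) * (G V - E') ^ 2 + (x⁻¹ / 2) * (F V - E) ^ 2) ∂(PP m μ) =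
              -((x / 2) * ∫ V, (G V - E') ^ 2 ∂(PP m μ) +
                (x⁻¹ / 2) * ∫ V, (F V - E) ^ 2 ∂(PP m μ)) := by
            rw [integral_neg, integral_add (ia.const_mul _) (ib.const_mul _),
              integral_const_mul, integral_const_mul]
          have e9 : -((x / 2) * ∫ V, (G V - E') ^ 2 ∂(PP m μ) +
                (x⁻¹ / 2) * ∫ V, (F V - E) ^ 2 ∂(PP m μ)) ≤ 1 - E' * (E + c) := by
            rw [← e8]
            exact e7
          have f1 : (x / 2) * ∫ V, (G V - E') ^ 2 ∂(PP m μ) ≤ 16 * D ^ 2 * (E' * (E + c)) := by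
            calc (x / 2) * ∫ V, (G V - E') ^ 2 ∂(PP m μ) ≤
                (x / 2) * (8 * (2 * D) ^ 2 * E' ^ 2) :=
                  mul_le_mul_of_nonneg_left gvar (by positivity)
              _ = _ := by
                rw [hx]
                field_simp
                ring
          have f2 : (x⁻¹ / 2) * ∫ V, (F V - E) ^ 2 ∂(PP m μ) ≤ 4 * D ^ 2 * (E' * (E + c)) := by
            calc (x⁻¹ / 2) * ∫ V, (F V - E) ^ 2 ∂(PP m μ) ≤ (x⁻¹ / 2) * (8 * D ^ 2 * E ^ 2) :=
                  mul_le_mul_of_nonneg_left hvar (by positivity)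
              _ ≤ (x⁻¹ / 2) * (8 * D ^ 2 * (E + c) ^ 2) := by
                  have : E ^ 2 ≤ (E + c) ^ 2 := pow_le_pow_left₀ hE0 (by linarith) 2
                  gcongr
              _ = _ := by
                rw [hx]
                field_simp
                ring
          nlinarith
      refine le_trans (measureReal_mono ?_) gup
      intro V hV
      simp only [Set.mem_ofPred_eq] at hV ⊢
      by_contra hcon
      push Not at hcon
      have hfV := hF0 V
      have e1 : G V * (F V + c) = 1 := by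
        rw [hG]
        exact inv_mul_cancel₀ (by positivity)
      have e2 : 1 ≤ (1 + 8 * Real.sqrt (2 * D)) * E' * (F V + c) := by
        have e0 := mul_le_mul_of_nonneg_right hcon (show 0 ≤ F V + c by positivity)
        linarith
      have e3 : (E + c) * (1 - 20 * D ^ 2) ≤ (1 + 8 * Real.sqrt (2 * D)) * (F V + c) := by
        have e4 : (E + c) * (1 - 20 * D ^ 2) * 1 ≤ (E + c) * (1 - 20 * D ^ 2) *
            ((1 + 8 * Real.sqrt (2 * D)) * E' * (F V + c)) := by
          apply mul_le_mul_of_nonneg_left e2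
          have e7 : D * D ≤ 1 / 128 * D := mul_le_mul_of_nonneg_right hD1 hD.le
          have : 20 * D ^ 2 ≤ 1 := by rw [sq]; linarith
          have : 0 ≤ 1 - 20 * D ^ 2 := by linarith
          positivity
        have e5 : (E + c) * (1 - 20 * D ^ 2) *
            ((1 + 8 * Real.sqrt (2 * D)) * E' * (F V + c)) =
            (E' * (E + c) * (1 - 20 * D ^ 2)) * ((1 + 8 * Real.sqrt (2 * D)) * (F V + c)) := by
          ring
        have e6 : (E' * (E + c) * (1 - 20 * D ^ 2)) * ((1 + 8 * Real.sqrt (2 * D)) * (F V + c)) ≤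
            1 * ((1 + 8 * Real.sqrt (2 * D)) * (F V + c)) :=
          mul_le_mul_of_nonneg_right hprod (by positivity)
        linarith
      -- contradiction
      have g1 : Real.sqrt (2 * D) * (F V + c) ≤ 3 / 2 * Real.sqrt D * (F V + c) :=
        mul_le_mul_of_nonneg_right hr (by positivity)
      have g2 : F V ≤ E := by
        have : 0 ≤ 40 * Real.sqrt D * E := by positivity
        linarith
      have g3 : (1 + 8 * Real.sqrt (2 * D)) * (F V + c) ≤
          F V + c + 12 * Real.sqrt D * (E + c) := by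
        have : 12 * Real.sqrt D * (F V + c) ≤ 12 * Real.sqrt D * (E + c) := by gcongr
        linarith
      have g4 : (E + c) * (20 * D ^ 2) ≤ (E + c) * Real.sqrt D := by
        have e7 : D * D ≤ 1 / 128 * D := mul_le_mul_of_nonneg_right hD1 hD.le
        have : 20 * D ^ 2 ≤ Real.sqrt D := by rw [sq]; linarith
        gcongr
      have g5 : c ≤ 1 / 11 * E := by
        rw [hc]
        exact mul_le_mul_of_nonneg_right (by linarith) hE0
      have g6 : 13 * Real.sqrt D * (E + c) ≤ 20 * Real.sqrt D * E := by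
        have : Real.sqrt D * c ≤ Real.sqrt D * (1 / 11 * E) := by gcongr
        have : 0 ≤ Real.sqrt D * E := by positivity
        linarith
      have g7 : 0 < Real.sqrt D * E := by positivity
      linarith
  -- both
  have hsub : {V | 40 * Real.sqrt D * E < |F V - E|} ⊆
      {V | (1 + 8 * Real.sqrt D) * E < F V} ∪ {V | F V < (1 - 40 * Real.sqrt D) * E} := by
    intro V hV
    simp only [Set.mem_ofPred_eq, Set.mem_union] at hV ⊢
    rcases le_or_gt 0 (F V - E) with h1 | h1
    · left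
      rw [abs_of_nonneg h1] at hV
      have : 0 ≤ Real.sqrt D * E := by positivity
      linarith
    · right
      rw [abs_of_neg h1] at hV
      linarith
  refine (measureReal_mono hsub).trans ((measureReal_union_le _ _).trans ?_)
  linarith

/-- **two-sided concentration of the diagonal** -/
theorem conc2 (hES : S_ES) {X0 : Matrix n n ℂ} {A : m → Matrix n n ℂ} {a v2 Q : ℝ}
    (H : Adm X0 A a v2 Q) (μ : Measure ℝ) [IsProbabilityMeasure μ] (β η D : ℝ) (hβ : 0 < β)
    (hμ : ∀ᵐ s ∂μ, |s| ≤ β) (hη : 0 < η) (hv : β ^ 2 * v2 ≤ 1) (hD0 : 0 < D) (hD1 : D ≤ 1 / 128)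
    (hD : 2 * β ^ 2 / η ^ 2 * (Q + a ^ 2 / η ^ 2) ≤ D ^ 2) (w : n → ℂ) :
    (PP m μ).real {V | 40 * Real.sqrt D *
        (∫ U, (star w ⬝ᵥ (RR X0 A η U *ᵥ w)).im ∂(PP m μ)) <
      |(star w ⬝ᵥ (RR X0 A η V *ᵥ w)).im - ∫ U, (star w ⬝ᵥ (RR X0 A η U *ᵥ w)).im ∂(PP m μ)|} ≤
      2 * Real.exp (1 / 2 - 1 / Real.sqrt (2 * D)) := by
  have h0 := H.hX0
  have hA := H.hA
  obtain ⟨F, hF⟩ : ∃ F : (m → ℝ) → ℝ, F = FF X0 A η w := ⟨_, rfl⟩
  have goal_eq : (fun V => (star w ⬝ᵥ (RR X0 A η V *ᵥ w)).im) = F := hF.symm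
  have hFV : ∀ V, (star w ⬝ᵥ (RR X0 A η V *ᵥ w)).im = F V := fun V => congrFun goal_eq V
  simp only [hFV]
  have Fc : Continuous F := by rw [hF]; exact FF_cont h0 hA hη w
  have F0 : ∀ V, 0 ≤ F V := by rw [hF]; exact FF_nonneg h0 hA hη w
  have FC : ∀ V, F V ≤ η⁻¹ * nsq w := by rw [hF]; exact FF_le h0 hA hη w
  have hae : ESH μ F D := by
    filter_upwards [ae_bd μ β hμ] with V hV
    rw [hF]
    exact key H hβ hη hv hD w V hV
  exact two_tail hES μ F Fc _ FC F0 D hD0 hD1 hae

end Pool.Agent.TH794.LL2
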