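import Pool.Agent.W788.BK.Stm

/-! The self-consistent equation, with precision. -/

set_option autoImplicit false

open scoped BigOperators Matrix
open MeasureTheory

namespace Pool.Agent.TH794.LL2

/-- the regularisation is small compared to the denominators -/
theorem reg_small (δ η x R : ℝ) (hδ : 0 < δ) (hη : 0 < η) :
    η * (Real.sqrt (x ^ 2 + δ ^ 2) - δ) ≤
      (2 * η + 2 * R ^ 2 / δ ^ 2) * Real.sqrt ((x - R) ^ 2 + (η * δ) ^ 2) := by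
  obtain ⟨j, hj⟩ : ∃ j, j = Real.sqrt ((x - R) ^ 2 + (η * δ) ^ 2) := ⟨_, rfl⟩
  obtain ⟨J, hJ⟩ : ∃ J, J = Real.sqrt (x ^ 2 + δ ^ 2) := ⟨_, rfl⟩
  rw [← hj, ← hJ]
  have hJ0 : 0 ≤ J := by rw [hJ]; exact Real.sqrt_nonneg _
  have hJ2 : J ^ 2 = x ^ 2 + δ ^ 2 := by rw [hJ, Real.sq_sqrt (by positivity)]
  have hJδ : δ ≤ J := by rw [hJ]; exact Real.le_sqrt_of_sq_le (by linarith [sq_nonneg x])
  have hj1 : η * δ ≤ j := by
    rw [hj]; exact Real.le_sqrt_of_sq_le (by linarith [sq_nonneg (x - R)])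
  have hj2 : |x - R| ≤ j := by
    rw [hj]
    apply Real.le_sqrt_of_sq_le
    rw [sq_abs]
    linarith [sq_nonneg (η * δ)]
  have hηδ : 0 < η * δ := by positivity
  rcases le_or_gt (2 * |R|) |x| with h | h
  · have h1 : J - δ ≤ |x| := by
      have : J ^ 2 ≤ (|x| + δ) ^ 2 := by
        rw [hJ2]
        have := abs_nonneg x
        nlinarith [sq_abs x]
      have := abs_le_of_sq_le_sq' this (by positivity)
      linarith [this.2]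
    have h2 : |x| ≤ 2 * j := by
      have := abs_sub_abs_le_abs_sub x R
      linarith
    have h3 : 0 ≤ 2 * R ^ 2 / δ ^ 2 * j := by
      have : 0 ≤ j := by linarith
      positivity
    have h4 : η * (J - δ) ≤ η * (2 * j) := mul_le_mul_of_nonneg_left (h1.trans h2) hη.le
    linarith
  · have h1 : (J - δ) * (2 * δ) ≤ x ^ 2 := by nlinarith [sq_nonneg (J - δ)]
    have h2 : x ^ 2 ≤ 4 * R ^ 2 := by
      have := pow_le_pow_left₀ (abs_nonneg x) h.le 2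
      rw [sq_abs, mul_pow, sq_abs] at this
      linarith
    have h3 : J - δ ≤ 2 * R ^ 2 / δ := by
      rw [le_div_iff₀ hδ]
      linarith
    have h4 : 0 ≤ 2 * η * j := by
      have : 0 ≤ j := by linarith
      positivity
    calc η * (J - δ) ≤ η * (2 * R ^ 2 / δ) := mul_le_mul_of_nonneg_left h3 hη.le
      _ = 2 * R ^ 2 / δ ^ 2 * (η * δ) := by field_simp
      _ ≤ 2 * R ^ 2 / δ ^ 2 * j := mul_le_mul_of_nonneg_left hj1 (by positivity)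
      _ ≤ _ := by linarith

theorem core2 {ι : Type} [Fintype ι] (N δ η s2 g ε e1 E : ℝ) (a J : ι → ℝ) (h : ι → ι → ℝ) (S : ℝ)
    (M : ι → ℂ) (hN : 0 < N) (hδ : 0 < δ) (hη : 0 < η) (hs : 0 ≤ s2) (hε0 : 0 ≤ ε)
    (hε : ε ≤ 1 / 2) (hg0 : 0 ≤ g) (he0 : 0 ≤ e1) (he1 : e1 ≤ 1 / 4)
    (hJJ : ∀ k, J k = Real.sqrt ((a k - E) ^ 2 + δ ^ 2)) (him : ∀ k, 0 ≤ (M k).im)
    (hM : ∀ k, ‖M k‖ ≤ η⁻¹)
    (hh : ∀ k p, h k p ≤ 1) (hS : ∀ k, ∑ p, (1 - h k p) = S)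
    (hS2 : s2 * S ≤ e1 * (η ^ 2 * δ ^ 2) * N)
    (hg : ∀ E' : ℝ, ∑ k, (Real.sqrt ((a k - E') ^ 2 + (η * δ) ^ 2))⁻¹ ≤ g * N)
    (heq : ∀ k, ‖((((a k - E) / J k : ℝ) : ℂ) - (η : ℂ) * Complex.I) * M k -
      (s2 : ℂ) * (∑ p, ((N⁻¹ * h k p * (J k * J p)⁻¹ : ℝ) : ℂ) * M p) * M k - 1‖ ≤ ε) :
    ∃ m : ℂ, m = ((N : ℝ) : ℂ)⁻¹ * ∑ k, ((J k : ℝ) : ℂ)⁻¹ * M k ∧ 0 ≤ m.im ∧ ‖m‖ ≤ 2 * g ∧
      ‖m - ((N : ℝ) : ℂ)⁻¹ * ∑ k, (((a k - E : ℝ) : ℂ) - (s2 : ℂ) * m -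
        ((η * δ : ℝ) : ℂ) * Complex.I)⁻¹‖ ≤
        4 / 3 * (ε + e1 + (2 * η + 8 * s2 ^ 2 * g ^ 2 / δ ^ 2)) * g := by
  have hJ : ∀ k, δ ≤ J k := by
    intro k
    rw [hJJ]
    exact Real.le_sqrt_of_sq_le (by linarith [sq_nonneg (a k - E)])
  have hJ0 : ∀ k, 0 < J k := fun k => hδ.trans_le (hJ k)
  have hηδ : 0 < η * δ := mul_pos hη hδ
  obtain ⟨m, hm⟩ : ∃ m : ℂ, m = ((N⁻¹ : ℝ) : ℂ) * ∑ k, (((J k)⁻¹ : ℝ) : ℂ) * M k := ⟨_, rfl⟩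
  have hm' : ((N : ℝ) : ℂ)⁻¹ * ∑ k, ((J k : ℝ) : ℂ)⁻¹ * M k = m := by
    rw [hm, Complex.ofReal_inv]
    congr 1
    refine Finset.sum_congr rfl fun k _ => ?_
    rw [Complex.ofReal_inv]
  have hmim : 0 ≤ m.im := by
    rw [hm, Complex.im_ofReal_mul, Complex.im_sum]
    refine mul_nonneg (inv_nonneg.2 hN.le) (Finset.sum_nonneg fun k _ => ?_)
    rw [Complex.im_ofReal_mul]
    exact mul_nonneg (inv_nonneg.2 (hJ0 k).le) (him k)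
  obtain ⟨l, hl⟩ : ∃ l : ι → ℂ, l = fun k => ((N⁻¹ : ℝ) : ℂ) *
    ∑ p, (((1 - h k p) * (J p)⁻¹ : ℝ) : ℂ) * M p := ⟨_, rfl⟩
  have hlk : ∀ k, ‖l k‖ ≤ N⁻¹ * (S * (δ⁻¹ * η⁻¹)) := by
    intro k
    rw [hl]
    simp only
    rw [norm_mul, Complex.norm_real, Real.norm_eq_abs, abs_of_pos (inv_pos.2 hN)]
    refine mul_le_mul_of_nonneg_left ?_ (inv_nonneg.2 hN.le)
    rw [← hS k, Finset.sum_mul]
    refine (norm_sum_le _ _).trans (Finset.sum_le_sum fun p _ => ?_)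
    have h1 : 0 ≤ 1 - h k p := by have := hh k p; linarith
    rw [norm_mul, Complex.norm_real, Real.norm_eq_abs,
      abs_of_nonneg (mul_nonneg h1 (inv_nonneg.2 (hJ0 p).le)), mul_assoc]
    refine mul_le_mul_of_nonneg_left ?_ h1
    exact mul_le_mul (inv_anti₀ hδ (hJ p)) (hM p) (norm_nonneg _) (inv_nonneg.2 hδ.le)
  have hsl : ∀ k, ‖(s2 : ℂ) * l k‖ ≤ e1 * (η * δ) := by
    intro k
    rw [norm_mul, Complex.norm_real, Real.norm_eq_abs, abs_of_nonneg hs]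
    calc s2 * ‖l k‖ ≤ s2 * (N⁻¹ * (S * (δ⁻¹ * η⁻¹))) := mul_le_mul_of_nonneg_left (hlk k) hs
      _ = (s2 * S) * (N⁻¹ * (δ⁻¹ * η⁻¹)) := by ring
      _ ≤ (e1 * (η ^ 2 * δ ^ 2) * N) * (N⁻¹ * (δ⁻¹ * η⁻¹)) :=
        mul_le_mul_of_nonneg_right hS2 (by positivity)
      _ = e1 * (η * δ) := by field_simp
  have hsl4 : ∀ k, ‖(s2 : ℂ) * l k‖ ≤ η * δ / 4 := fun k => (hsl k).trans (by nlinarith)
  have hsum : ∀ k, ∑ p, ((N⁻¹ * h k p * (J k * J p)⁻¹ : ℝ) : ℂ) * M p =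
      (((J k)⁻¹ : ℝ) : ℂ) * (m - l k) := by
    intro k
    rw [hm, hl]
    simp only
    rw [← mul_sub, ← Finset.sum_sub_distrib, Finset.mul_sum, Finset.mul_sum]
    refine Finset.sum_congr rfl fun p _ => ?_
    rw [mul_inv]
    push_cast
    ring
  -- the main estimate
  obtain ⟨jj, hjj⟩ : ∃ jj : ι → ℝ, jj = fun k =>
    Real.sqrt ((a k - (E + s2 * m.re)) ^ 2 + (η * δ) ^ 2) := ⟨_, rfl⟩
  have hj1 : ∀ k, η * δ ≤ jj k := by
    intro k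
    rw [hjj]
    exact Real.le_sqrt_of_sq_le (by linarith [sq_nonneg (a k - (E + s2 * m.re))])
  have hj0 : ∀ k, 0 < jj k := fun k => hηδ.trans_le (hj1 k)
  obtain ⟨D, hD⟩ : ∃ D : ι → ℂ, D = fun k => ((a k - E : ℝ) : ℂ) -
    ((η * J k : ℝ) : ℂ) * Complex.I - (s2 : ℂ) * m + (s2 : ℂ) * l k := ⟨_, rfl⟩
  obtain ⟨D0, hD0⟩ : ∃ D0 : ι → ℂ, D0 = fun k => ((a k - E : ℝ) : ℂ) - (s2 : ℂ) * m -
        ((η * δ : ℝ) : ℂ) * Complex.I := ⟨_, rfl⟩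
  have hDeq : ∀ k, ‖D k * ((((J k)⁻¹ : ℝ) : ℂ) * M k) - 1‖ ≤ ε := by
    intro k
    have hJc : ((J k : ℝ) : ℂ) ≠ 0 := by
      rw [Ne, Complex.ofReal_eq_zero]; exact (hJ0 k).ne'
    have e1 : ((((a k - E) / J k : ℝ) : ℂ) - (η : ℂ) * Complex.I) * M k -
      (s2 : ℂ) * (∑ p, ((N⁻¹ * h k p * (J k * J p)⁻¹ : ℝ) : ℂ) * M p) * M k - 1 =
      D k * ((((J k)⁻¹ : ℝ) : ℂ) * M k) - 1 := by
      rw [hsum k, hD]
      push_cast
      field_simp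
      ring
    have h1 := heq k
    rw [e1] at h1
    exact h1
  have hDj : ∀ k, 3 / 4 * jj k ≤ ‖D k‖ := by
    intro k
    have h3 : jj k ≤ ‖D k - (s2 : ℂ) * l k‖ := by
      have e2 : D k - (s2 : ℂ) * l k = (((a k - (E + s2 * m.re)) : ℝ) : ℂ) +
          ((-(η * J k + s2 * m.im) : ℝ) : ℂ) * Complex.I := by
        rw [hD]
        conv_lhs => rw [← Complex.re_add_im m]
        push_cast
        ring
      rw [e2, Complex.norm_add_mul_I, hjj]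
      apply Real.sqrt_le_sqrt
      have h4 : η * δ ≤ η * J k + s2 * m.im := by
        have := mul_le_mul_of_nonneg_left (hJ k) hη.le
        have := mul_nonneg hs hmim
        linarith
      have h5 : (η * δ) ^ 2 ≤ (η * J k + s2 * m.im) ^ 2 := by gcongr
      rw [neg_sq]
      linarith
    have h4 : jj k ≤ ‖D k‖ + ‖(s2 : ℂ) * l k‖ := h3.trans (norm_sub_le _ _)
    have h5 := hsl4 k
    have h6 := hj1 k
    linarith
  have hD0j : ∀ k, jj k ≤ ‖D0 k‖ := by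
    intro k
    have e2 : D0 k = (((a k - (E + s2 * m.re)) : ℝ) : ℂ) +
        ((-(η * δ + s2 * m.im) : ℝ) : ℂ) * Complex.I := by
      rw [hD0]
      conv_lhs => rw [← Complex.re_add_im m]
      push_cast
      ring
    rw [e2, Complex.norm_add_mul_I, hjj]
    apply Real.sqrt_le_sqrt
    have h4 : η * δ ≤ η * δ + s2 * m.im := by
      have := mul_nonneg hs hmim
      linarith
    have h5 : (η * δ) ^ 2 ≤ (η * δ + s2 * m.im) ^ 2 := by gcongr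
    rw [neg_sq]
    linarith
  -- the norm of m
  have key : ∀ k, (J k)⁻¹ * ‖M k‖ ≤ 2 * (jj k)⁻¹ := by
    intro k
    have h2 : ‖D k * ((((J k)⁻¹ : ℝ) : ℂ) * M k)‖ ≤ 3 / 2 := by
      calc ‖D k * ((((J k)⁻¹ : ℝ) : ℂ) * M k)‖ =
            ‖(D k * ((((J k)⁻¹ : ℝ) : ℂ) * M k) - 1) + 1‖ := by rw [sub_add_cancel]
        _ ≤ ‖D k * ((((J k)⁻¹ : ℝ) : ℂ) * M k) - 1‖ + ‖(1 : ℂ)‖ := norm_add_le _ _
        _ ≤ ε + 1 := by rw [norm_one]; linarith [hDeq k]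
        _ ≤ 3 / 2 := by linarith
    rw [norm_mul, norm_mul, Complex.norm_real, Real.norm_eq_abs,
      abs_of_pos (inv_pos.2 (hJ0 k))] at h2
    have h7 : 0 ≤ (J k)⁻¹ * ‖M k‖ := mul_nonneg (inv_nonneg.2 (hJ0 k).le) (norm_nonneg _)
    have h8 : 3 / 4 * jj k * ((J k)⁻¹ * ‖M k‖) ≤ 3 / 2 :=
      (mul_le_mul_of_nonneg_right (hDj k) h7).trans h2
    rw [← div_eq_mul_inv, le_div_iff₀ (hj0 k)]
    linarith
  have hgE : ∑ k, (jj k)⁻¹ ≤ g * N := by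
    rw [hjj]
    exact hg _
  have hmn : ‖m‖ ≤ 2 * g := by
    calc ‖m‖ = N⁻¹ * ‖∑ k, (((J k)⁻¹ : ℝ) : ℂ) * M k‖ := by
          rw [hm, norm_mul, Complex.norm_real, Real.norm_eq_abs, abs_of_pos (inv_pos.2 hN)]
      _ ≤ N⁻¹ * ∑ k, (J k)⁻¹ * ‖M k‖ := by
          refine mul_le_mul_of_nonneg_left ?_ (inv_nonneg.2 hN.le)
          refine (norm_sum_le _ _).trans (Finset.sum_le_sum fun k _ => le_of_eq ?_)
          rw [norm_mul, Complex.norm_real, Real.norm_eq_abs, abs_of_pos (inv_pos.2 (hJ0 k))]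
      _ ≤ N⁻¹ * ∑ k, 2 * (jj k)⁻¹ := by
          refine mul_le_mul_of_nonneg_left ?_ (inv_nonneg.2 hN.le)
          exact Finset.sum_le_sum fun k _ => key k
      _ ≤ N⁻¹ * (2 * (g * N)) := by
          refine mul_le_mul_of_nonneg_left ?_ (inv_nonneg.2 hN.le)
          rw [← Finset.mul_sum]
          exact mul_le_mul_of_nonneg_left hgE (by norm_num)
      _ = 2 * g := by field_simp
  refine ⟨m, hm'.symm, hmim, hmn, ?_⟩
  -- the difference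
  obtain ⟨c, hc⟩ : ∃ c, c = ε + e1 + (2 * η + 8 * s2 ^ 2 * g ^ 2 / δ ^ 2) := ⟨_, rfl⟩
  have hR : (s2 * m.re) ^ 2 ≤ 4 * s2 ^ 2 * g ^ 2 := by
    have h1 : |m.re| ≤ 2 * g := (Complex.abs_re_le_norm m).trans hmn
    have h2 : m.re ^ 2 ≤ (2 * g) ^ 2 := by
      rw [← sq_abs]
      exact pow_le_pow_left₀ (abs_nonneg _) h1 2
    calc (s2 * m.re) ^ 2 = s2 ^ 2 * m.re ^ 2 := by ring
      _ ≤ s2 ^ 2 * (2 * g) ^ 2 := by gcongr
      _ = _ := by ring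
  have hterm : ∀ k, ‖(((J k)⁻¹ : ℝ) : ℂ) * M k - (D0 k)⁻¹‖ ≤ 4 / 3 * c * (jj k)⁻¹ := by
    intro k
    have hDk : 0 < ‖D k‖ := lt_of_lt_of_le (by have := hj0 k; positivity) (hDj k)
    have hD0k : 0 < ‖D0 k‖ := (hj0 k).trans_le (hD0j k)
    have hDn : D k ≠ 0 := norm_pos_iff.1 hDk
    have hD0n : D0 k ≠ 0 := norm_pos_iff.1 hD0k
    obtain ⟨x, hx⟩ : ∃ x : ℂ, x = (((J k)⁻¹ : ℝ) : ℂ) * M k := ⟨_, rfl⟩
    rw [← hx]
    have e3 : x - (D0 k)⁻¹ = (D k * x - 1) / D k + (D0 k - D k) / (D k * D0 k) := by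
      field_simp
      ring
    have e4 : D0 k - D k = ((η * (J k - δ) : ℝ) : ℂ) * Complex.I - (s2 : ℂ) * l k := by
      rw [hD0, hD]
      push_cast
      ring
    have e5 : ‖D0 k - D k‖ ≤ η * (J k - δ) + e1 * (η * δ) := by
      rw [e4]
      refine (norm_sub_le _ _).trans (add_le_add ?_ (hsl k))
      rw [norm_mul, Complex.norm_I, mul_one, Complex.norm_real, Real.norm_eq_abs,
        abs_of_nonneg (mul_nonneg hη.le (by linarith [hJ k]))]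
    have e6 : η * (J k - δ) ≤ (2 * η + 8 * s2 ^ 2 * g ^ 2 / δ ^ 2) * jj k := by
      have := reg_small δ η (a k - E) (s2 * m.re) hδ hη
      rw [← hJJ k] at this
      have e7 : a k - E - s2 * m.re = a k - (E + s2 * m.re) := by ring
      rw [e7] at this
      have e8 : jj k = Real.sqrt ((a k - (E + s2 * m.re)) ^ 2 + (η * δ) ^ 2) := by rw [hjj]
      rw [← e8] at this
      refine this.trans (mul_le_mul_of_nonneg_right ?_ (hj0 k).le)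
      have : 2 * (s2 * m.re) ^ 2 / δ ^ 2 ≤ 8 * s2 ^ 2 * g ^ 2 / δ ^ 2 := by
        apply div_le_div_of_nonneg_right _ (by positivity)
        linarith
      linarith
    have e7 : ‖D0 k - D k‖ ≤ (e1 + (2 * η + 8 * s2 ^ 2 * g ^ 2 / δ ^ 2)) * jj k := by
      have := mul_le_mul_of_nonneg_left (hj1 k) he0
      rw [add_mul]
      linarith
    have hDinv : ‖D k‖⁻¹ ≤ 4 / 3 * (jj k)⁻¹ := by
      have h1 := inv_anti₀ (by have := hj0 k; positivity) (hDj k)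
      rw [mul_inv] at h1
      norm_num at h1 ⊢
      exact h1
    have hD0inv : ‖D0 k‖⁻¹ ≤ (jj k)⁻¹ := inv_anti₀ (hj0 k) (hD0j k)
    rw [e3]
    refine (norm_add_le _ _).trans ?_
    rw [norm_div, norm_div, norm_mul, div_eq_mul_inv, div_eq_mul_inv, mul_inv]
    have hji : 0 ≤ (jj k)⁻¹ := inv_nonneg.2 (hj0 k).le
    have f1 : ‖D k * x - 1‖ * ‖D k‖⁻¹ ≤ ε * (4 / 3 * (jj k)⁻¹) := by
      have := hDeq k
      rw [← hx] at this
      exact mul_le_mul this hDinv (by positivity) hε0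
    have f2 : ‖D0 k - D k‖ * (‖D k‖⁻¹ * ‖D0 k‖⁻¹) ≤
        ((e1 + (2 * η + 8 * s2 ^ 2 * g ^ 2 / δ ^ 2)) * jj k) * (4 / 3 * (jj k)⁻¹ * (jj k)⁻¹) := by
      have hc0 : 0 ≤ e1 + (2 * η + 8 * s2 ^ 2 * g ^ 2 / δ ^ 2) := by positivity
      refine mul_le_mul e7 (mul_le_mul hDinv hD0inv (by positivity) (by positivity))
        (by positivity) (mul_nonneg hc0 (hj0 k).le)
    have f3 : ((e1 + (2 * η + 8 * s2 ^ 2 * g ^ 2 / δ ^ 2)) * jj k) *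
        (4 / 3 * (jj k)⁻¹ * (jj k)⁻¹) =
        4 / 3 * (e1 + (2 * η + 8 * s2 ^ 2 * g ^ 2 / δ ^ 2)) * (jj k)⁻¹ := by
      have := (hj0 k).ne'
      field_simp
    rw [hc]
    rw [f3] at f2
    linarith
  have e8 : m - ((N : ℝ) : ℂ)⁻¹ * ∑ k, (((a k - E : ℝ) : ℂ) - (s2 : ℂ) * m -
        ((η * δ : ℝ) : ℂ) * Complex.I)⁻¹ = ((N⁻¹ : ℝ) : ℂ) * ∑ k,
          ((((J k)⁻¹ : ℝ) : ℂ) * M k - (D0 k)⁻¹) := by
    rw [Finset.sum_sub_distrib, mul_sub, ← hm, Complex.ofReal_inv, hD0]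
  rw [e8, norm_mul, Complex.norm_real, Real.norm_eq_abs, abs_of_pos (inv_pos.2 hN), ← hc]
  have hc0 : 0 ≤ c := by
    rw [hc]
    positivity
  calc N⁻¹ * ‖∑ k, ((((J k)⁻¹ : ℝ) : ℂ) * M k - (D0 k)⁻¹)‖ ≤
      N⁻¹ * ∑ k, 4 / 3 * c * (jj k)⁻¹ := by
        refine mul_le_mul_of_nonneg_left ?_ (inv_nonneg.2 hN.le)
        exact (norm_sum_le _ _).trans (Finset.sum_le_sum fun k _ => hterm k)
    _ ≤ N⁻¹ * (4 / 3 * c * (g * N)) := by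
        refine mul_le_mul_of_nonneg_left ?_ (inv_nonneg.2 hN.le)
        rw [← Finset.mul_sum]
        exact mul_le_mul_of_nonneg_left hgE (by positivity)
    _ = 4 / 3 * c * g := by field_simp

end Pool.Agent.TH794.LL2
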