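import Pool.Agent.W788.BK.Mean
import Pool.Agent.TH794.LL2.Core2

/-! The mean of the local density of states, with precision. -/

set_option autoImplicit false
set_option linter.unusedSectionVars false

open scoped BigOperators Matrix
open MeasureTheory

namespace Pool.Agent.TH794.LL2

open Pool.Agent.W788.BK
open Pool.Agent.W788.MFP.Four (T e NN adj K ft Op q NN_pos e_zero)

variable {d L : ℕ} [NeZero L]

/-- the free resolvent of the torus at the origin -/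
noncomputable def gL (d L : ℕ) [NeZero L] (z : ℂ) : ℂ :=
  ((NN d L : ℝ) : ℂ)⁻¹ * ∑ k : T d L, (((adj k : ℝ) : ℂ) - z)⁻¹

/-- **the mean of the local density of states** -/
theorem mean_asym (hTH : S_THIRD) (hFL : S_FLUCT) (hIN : S_INV)
    (E δ θ η a v2 Q β s2 g ε e1 : ℝ) (hδ : 0 < δ) (hη : 0 < η) (hη1 : η ≤ 1)
    (hadm : Adm (D0 E δ) (AA (d := d) (L := L) E δ θ) a v2 Q)
    (μ : Measure ℝ) [IsProbabilityMeasure μ] (hβ : 0 < β) (hμ : ∀ᵐ s ∂μ, |s| ≤ β)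
    (h0 : ∫ s, s ∂μ = 0) (h2 : ∫ s, s ^ 2 ∂μ = s2) (hs2 : 0 ≤ s2)
    (hβa : β * a ≤ η) (hβv : β ^ 2 * v2 ≤ 1) (hε0 : 0 ≤ ε) (hε1 : ε ≤ 1 / 2)
    (he0 : 0 ≤ e1) (he1 : e1 ≤ 1 / 4)
    (hε : 4 * β ^ 3 * a * v2 / η ^ 3 + s2 * (2 * β * Q * Real.sqrt v2 / η ^ 4) ≤ ε)
    (hg : ∀ E' : ℝ, ∑ k : T d L, (JJ E' (η * δ) k)⁻¹ ≤ g * NN d L)
    (hlow : s2 * (∑ P : T d L, (1 - hi θ P)) ≤ e1 * (η ^ 2 * δ ^ 2) * NN d L) :
    ∃ m : ℂ, ∫ V, (star (w0 (d := d) (L := L) E δ) ⬝ᵥ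
      (RR (D0 E δ) (AA E δ θ) η V *ᵥ w0 E δ)).im ∂(PP (T d L) μ) = m.im ∧ 0 ≤ m.im ∧
      ‖m‖ ≤ 2 * g ∧ ‖m - gL d L ((E : ℂ) + (s2 : ℂ) * m + ((η * δ : ℝ) : ℂ) * Complex.I)‖ ≤
        4 / 3 * (ε + e1 + (2 * η + 8 * s2 ^ 2 * g ^ 2 / δ ^ 2)) * g := by
  obtain ⟨A, hA⟩ : ∃ A, A = AA (d := d) (L := L) E δ θ := ⟨_, rfl⟩
  obtain ⟨M, hM⟩ : ∃ M, M = MM (D0 E δ) A η μ := ⟨_, rfl⟩
  rw [← hA] at hadm ⊢
  have hXh := hadm.hX0
  have hAh := hadm.hA
  have hdiag : ∀ k p, k ≠ p → M k p = 0 := by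
    intro k p hkp
    rw [hM, hA]
    exact hIN d L E δ θ η μ hδ hη k p hkp
  -- the equation
  have heq : ∀ k, ‖((((adj k - E) / JJ E δ k : ℝ) : ℂ) - (η : ℂ) * Complex.I) * M k k -
      (s2 : ℂ) * (∑ p, (((NN d L)⁻¹ * hi θ (k - p) * (JJ E δ k * JJ E δ p)⁻¹ : ℝ) : ℂ) * M p p) *
        M k k - 1‖ ≤ ε := by
    intro k
    have e1 := hTH (T d L) (T d L) _ _ _ _ _ hadm μ β s2 η hβ hμ h0 h2 hη hη1 hβa
      (Pi.single k 1) (Pi.single k 1) (nsq_single k) (nsq_single k)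
    have e2 := hFL (T d L) (T d L) _ _ _ _ _ hadm μ β η hβ hμ hη hη1 hβv
      (Pi.single k 1) (Pi.single k 1) (nsq_single k) (nsq_single k)
    rw [form_single] at e1 e2
    rw [← hM] at e1 e2
    have e3 : ((D0 E δ - ((η : ℂ) * Complex.I) • (1 : Matrix (T d L) (T d L) ℂ)) * M :
        Matrix (T d L) (T d L) ℂ) k k =
        ((((adj k - E) / JJ E δ k : ℝ) : ℂ) - (η : ℂ) * Complex.I) * M k k := by
      have e4 : D0 E δ - ((η : ℂ) * Complex.I) • (1 : Matrix (T d L) (T d L) ℂ) =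
          Matrix.diagonal fun k => ((((adj k - E) / JJ E δ k : ℝ) : ℂ) -
            (η : ℂ) * Complex.I) := by
        unfold D0
        rw [Matrix.smul_one_eq_diagonal, ← Matrix.diagonal_sub]
      rw [e4, Matrix.diagonal_mul]
    have e5 : (Psi A M * M : Matrix (T d L) (T d L) ℂ) k k = (∑ p, (((NN d L)⁻¹ * hi θ (k - p) *
        (JJ E δ k * JJ E δ p)⁻¹ : ℝ) : ℂ) * M p p) * M k k := by
      rw [Matrix.mul_apply, Finset.sum_eq_single k]
      · rw [hA, Psi_diag E δ θ hδ M hdiag k]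
      · intro l _ hl
        rw [hdiag l k hl, mul_zero]
      · intro h
        exact absurd (Finset.mem_univ k) h
    rw [Matrix.sub_apply, Matrix.sub_apply, Matrix.smul_apply, Matrix.one_apply_eq, e3,
      smul_eq_mul] at e1
    rw [Matrix.sub_apply, e5] at e2
    obtain ⟨S, hS⟩ : ∃ S, S = (∑ p, (((NN d L)⁻¹ * hi θ (k - p) *
        (JJ E δ k * JJ E δ p)⁻¹ : ℝ) : ℂ) * M p p) * M k k := ⟨_, rfl⟩
    rw [← hS] at e2
    have e6 : ((((adj k - E) / JJ E δ k : ℝ) : ℂ) - (η : ℂ) * Complex.I) * M k k -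
        (s2 : ℂ) * (∑ p, (((NN d L)⁻¹ * hi θ (k - p) *
          (JJ E δ k * JJ E δ p)⁻¹ : ℝ) : ℂ) * M p p) * M k k - 1 =
        (((((adj k - E) / JJ E δ k : ℝ) : ℂ) - (η : ℂ) * Complex.I) * M k k -
          (s2 : ℂ) * SE (D0 E δ) A η μ k k - 1) +
        (s2 : ℂ) * (SE (D0 E δ) A η μ k k - S) := by
      rw [hS]
      ring
    rw [e6]
    refine (norm_add_le _ _).trans (le_trans (add_le_add e1 ?_) hε)
    rw [norm_mul, Complex.norm_real, Real.norm_of_nonneg hs2]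
    exact mul_le_mul_of_nonneg_left e2 hs2
  have him : ∀ k, 0 ≤ (M k k).im := by
    intro k
    have e1 : M k k = ∫ V, RR (D0 E δ) A η V k k ∂(PP (T d L) μ) := by
      rw [hM]
      rfl
    have e2 := integrable_RR hXh hAh hη μ k k
    have e3 : (M k k).im = ∫ V, (RR (D0 E δ) A η V k k).im ∂(PP (T d L) μ) := by
      rw [e1]
      have := Complex.imCLM.integral_comp_comm e2
      simp only [Complex.imCLM_apply] at this
      exact this.symm
    rw [e3]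
    apply integral_nonneg
    intro V
    have e4 := (ward hXh hAh hη V (Pi.single k 1)).1
    rw [form_single] at e4
    simp only [Pi.zero_apply]
    rw [e4]
    exact mul_nonneg hη.le (nsq_nonneg _)
  have hbd : ∀ k, ‖M k k‖ ≤ η⁻¹ := by
    intro k
    have e1 : M k k = ∫ V, RR (D0 E δ) A η V k k ∂(PP (T d L) μ) := by
      rw [hM]
      rfl
    rw [e1]
    refine (norm_integral_le_of_norm_le_const (C := η⁻¹)
      (Filter.Eventually.of_forall fun V => entry_bd hXh hAh hη V k k)).trans ?_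
    rw [probReal_univ, mul_one]
  have hhi : ∀ P : T d L, hi θ P ≤ 1 := fun P => hi_le_one θ P
  obtain ⟨m, hm1, hm2, hm3, hm4⟩ := core2 (NN d L) δ η s2 g ε e1 E adj (JJ E δ)
    (fun k p => hi θ (k - p)) (∑ P : T d L, (1 - hi θ P)) (fun k => M k k) NN_pos hδ hη hs2 hε0
    hε1 (by
      have h1 := hg 0
      have h3 : 0 ≤ ∑ k : T d L, (JJ (0 : ℝ) (η * δ) k)⁻¹ := Finset.sum_nonneg fun k _ =>
        inv_nonneg.2 (Real.sqrt_nonneg _)
      by_contra hcon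
      push Not at hcon
      have := mul_neg_of_neg_of_pos hcon (NN_pos (d := d) (L := L))
      linarith) he0 he1 (fun k => rfl) him hbd (fun k p => hhi _)
    (fun k => Equiv.sum_comp (Equiv.subLeft k) fun P : T d L => (1 - hi θ P)) hlow hg heq
  -- the mean
  have hint := integral_form hXh hAh hη μ (w0 (d := d) (L := L) E δ) (w0 E δ)
  have e1 : ∫ V, (star (w0 (d := d) (L := L) E δ) ⬝ᵥ
      (RR (D0 E δ) A η V *ᵥ w0 E δ)).im ∂(PP (T d L) μ) =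
      (star (w0 (d := d) (L := L) E δ) ⬝ᵥ (M *ᵥ w0 E δ)).im := by
    have := Complex.imCLM.integral_comp_comm hint.1
    simp only [Complex.imCLM_apply] at this
    rw [this, hint.2, hM]
  have e2 : star (w0 (d := d) (L := L) E δ) ⬝ᵥ (M *ᵥ w0 E δ) =
      ((NN d L : ℝ) : ℂ)⁻¹ * ∑ k, ((JJ E δ k : ℝ) : ℂ)⁻¹ * M k k := by
    unfold dotProduct
    rw [Finset.mul_sum]
    refine Finset.sum_congr rfl fun k _ => ?_
    have e3 : (M *ᵥ w0 (d := d) (L := L) E δ) k = M k k * w0 E δ k := by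
      unfold Matrix.mulVec dotProduct
      rw [Finset.sum_eq_single k]
      · intro l _ hl
        simp only
        rw [hdiag k l hl.symm, zero_mul]
      · intro h
        exact absurd (Finset.mem_univ k) h
    rw [e3, Pi.star_apply]
    unfold w0
    rw [RCLike.star_def, Complex.conj_ofReal]
    have h4 : (Real.sqrt (JJ E δ k))⁻¹ * (Real.sqrt (JJ E δ k))⁻¹ = (JJ E δ k)⁻¹ := by
      rw [← mul_inv, Real.mul_self_sqrt (JJ_pos E δ hδ k).le]
    have h5 : (Real.sqrt (NN d L))⁻¹ * (Real.sqrt (NN d L))⁻¹ = (NN d L)⁻¹ := by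
      rw [← mul_inv, Real.mul_self_sqrt (NN_pos (d := d) (L := L)).le]
    calc (((Real.sqrt (NN d L))⁻¹ * (Real.sqrt (JJ E δ k))⁻¹ : ℝ) : ℂ) *
          (M k k * (((Real.sqrt (NN d L))⁻¹ * (Real.sqrt (JJ E δ k))⁻¹ : ℝ) : ℂ)) =
        ((((Real.sqrt (NN d L))⁻¹ * (Real.sqrt (NN d L))⁻¹) *
          ((Real.sqrt (JJ E δ k))⁻¹ * (Real.sqrt (JJ E δ k))⁻¹) : ℝ) : ℂ) * M k k := by
          push_cast
          ring
      _ = _ := by
          rw [h4, h5]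
          push_cast
          ring
  refine ⟨m, ?_, hm2, hm3, ?_⟩
  · rw [e1, e2, ← hm1]
  · have hgl : gL d L ((E : ℂ) + (s2 : ℂ) * m + ((η * δ : ℝ) : ℂ) * Complex.I) =
        ((NN d L : ℝ) : ℂ)⁻¹ * ∑ k : T d L, (((adj k - E : ℝ) : ℂ) - (s2 : ℂ) * m -
          ((η * δ : ℝ) : ℂ) * Complex.I)⁻¹ := by
      unfold gL
      refine congrArg (fun t => ((NN d L : ℝ) : ℂ)⁻¹ * t) (Finset.sum_congr rfl fun k _ => ?_)
      have h7 : ((adj k : ℝ) : ℂ) - ((E : ℂ) + (s2 : ℂ) * m + ((η * δ : ℝ) : ℂ) * Complex.I) =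
          ((adj k - E : ℝ) : ℂ) - (s2 : ℂ) * m - ((η * δ : ℝ) : ℂ) * Complex.I := by
        push_cast
        ring
      rw [h7]
    rw [hgl]
    exact hm4

end Pool.Agent.TH794.LL2
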