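import Pool.Agent.W240.BK.Two
import Pool.Agent.TH794.LL2.Mean2

/-! Hölder continuity of the free resolvent of the torus. -/

set_option autoImplicit false
set_option linter.unusedSectionVars false

open scoped BigOperators Topology
open MeasureTheory Set

namespace Pool.Agent.TH794.LL2

open Pool.Agent.W788.BK
open Pool.Agent.W788.MFP.Four (T e NN adj K ft Op q NN_pos e_zero)
open Pool.Agent.W240.BK (S1 S1_le Ph Ph_prod)

variable {d L : ℕ} [NeZero L]

theorem exp_sub_le (u v : ℂ) (hu : u.re ≤ 0) (hv : v.re ≤ 0) :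
    ‖Complex.exp u - Complex.exp v‖ ≤ ‖u - v‖ := by
  have h := Convex.norm_image_sub_le_of_norm_deriv_le (𝕜 := ℂ) (f := Complex.exp)
    (s := {z : ℂ | z.re ≤ 0}) (C := 1) (x := v) (y := u)
    (fun x _ => Complex.differentiableAt_exp)
    (fun x hx => by
      rw [Complex.deriv_exp, Complex.norm_exp]
      exact Real.exp_le_one_iff.2 hx)
    (convex_halfSpace_re_le 0) hv hu
  rw [one_mul] at h
  exact h

theorem inv_time (a : ℝ) (z : ℂ) (hz : 0 < z.im) :
    ((a : ℂ) - z)⁻¹ = Complex.I * ∫ s in Ioi (0 : ℝ), Complex.exp (Complex.I * (z - a) * s) := by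
  have hre : (Complex.I * (z - a)).re < 0 := by
    simp
    exact hz
  rw [integral_exp_mul_complex_Ioi hre 0]
  have h1 : z - a ≠ 0 := by
    intro h
    have := congrArg Complex.im h
    simp at this
    linarith
  have h2 : (a : ℂ) - z ≠ 0 := by
    intro h
    apply h1
    rw [← neg_sub, h, neg_zero]
  have h3 := Complex.I_ne_zero
  simp only [Complex.ofReal_zero, mul_zero, Complex.exp_zero]
  field_simp
  ring

/-- the return amplitude -/
noncomputable def PL (d L : ℕ) [NeZero L] (s : ℝ) : ℂ :=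
  ((NN d L : ℝ) : ℂ)⁻¹ * Ph (d := d) (L := L) 0 (-s) 0

theorem PL_cont : Continuous (PL d L) := by
  unfold PL Ph
  refine continuous_const.mul (continuous_finsetSum _ fun k _ => ?_)
  fun_prop

theorem PL_le_one (s : ℝ) : ‖PL d L s‖ ≤ 1 := by
  have hN := NN_pos (d := d) (L := L)
  unfold PL
  rw [norm_mul, norm_inv, Complex.norm_real, Real.norm_eq_abs, abs_of_pos hN,
    inv_mul_le_iff₀ hN, mul_one]
  unfold Ph
  refine (norm_sum_le _ _).trans ?_
  have h1 : ∀ k : T d L, ‖Complex.exp (Complex.I * ((-s * adj k + 0 * adj (k + 0) : ℝ) : ℂ))‖ =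
      1 := by
    intro k
    rw [mul_comm, Complex.norm_exp_ofReal_mul_I]
  rw [Finset.sum_congr rfl fun k _ => h1 k, Finset.sum_const, Finset.card_univ, nsmul_eq_mul,
    mul_one, Pool.Agent.W788.MFP.Four.card_T]

theorem PL_decay (hO : S_OSC) (hd : 3 ≤ d) (s : ℝ) (hs : 0 ≤ s)
    (hL : (1 + s) ^ 3 ≤ (L : ℝ) ^ 2) :
    ‖PL d L s‖ ≤ 10 ^ d * (s + 1) ^ (-(3 / 2) : ℝ) := by
  have hLp : (0 : ℝ) < L := by exact_mod_cast Nat.pos_of_ne_zero (NeZero.ne L)
  have hN := NN_pos (d := d) (L := L)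
  unfold PL
  rw [norm_mul, norm_inv, Complex.norm_real, Real.norm_eq_abs, abs_of_pos hN, Ph_prod,
    norm_prod]
  have hns : ‖((-s : ℝ) : ℂ)‖ = s := by
    rw [Complex.norm_real, Real.norm_eq_abs, abs_neg, abs_of_nonneg hs]
  have h1 : ∀ i : Fin d, ‖S1 L (((-s : ℝ) : ℂ) + ((0 : ℝ) : ℂ) *
      ZMod.stdAddChar ((0 : T d L) i))‖ ≤ 10 * L / Real.sqrt (1 + s) := by
    intro i
    have h2 : ((-s : ℝ) : ℂ) + ((0 : ℝ) : ℂ) * ZMod.stdAddChar ((0 : T d L) i) =
        ((-s : ℝ) : ℂ) := by simp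
    rw [h2]
    have := hO L ((-s : ℝ) : ℂ) (by rw [hns]; exact hL)
    rw [hns] at this
    exact this
  have h3 : ∏ i : Fin d, ‖S1 L (((-s : ℝ) : ℂ) + ((0 : ℝ) : ℂ) *
      ZMod.stdAddChar ((0 : T d L) i))‖ ≤ (10 * L / Real.sqrt (1 + s)) ^ d := by
    refine (Finset.prod_le_prod (fun i _ => norm_nonneg _) fun i _ => h1 i).trans ?_
    rw [Finset.prod_const, Finset.card_univ, Fintype.card_fin]
  have hs1 : 0 < Real.sqrt (1 + s) := Real.sqrt_pos.2 (by linarith)
  have h4 : (Real.sqrt (1 + s))⁻¹ ^ d ≤ (s + 1) ^ (-(3 / 2) : ℝ) := by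
    have h5 : (Real.sqrt (1 + s))⁻¹ = (s + 1) ^ (-(1 / 2) : ℝ) := by
      rw [Real.sqrt_eq_rpow, Real.rpow_neg (by linarith), add_comm]
    rw [h5, ← Real.rpow_natCast, ← Real.rpow_mul (by linarith)]
    apply Real.rpow_le_rpow_of_exponent_le (by linarith)
    have : (3 : ℝ) ≤ d := by exact_mod_cast hd
    linarith
  calc (NN d L)⁻¹ * ∏ i : Fin d, ‖S1 L (((-s : ℝ) : ℂ) + ((0 : ℝ) : ℂ) *
      ZMod.stdAddChar ((0 : T d L) i))‖ ≤ (NN d L)⁻¹ * (10 * L / Real.sqrt (1 + s)) ^ d :=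
        mul_le_mul_of_nonneg_left h3 (inv_nonneg.2 hN.le)
    _ = 10 ^ d * (Real.sqrt (1 + s))⁻¹ ^ d := by
        unfold NN
        rw [div_eq_mul_inv, mul_pow, mul_pow]
        have : (L : ℝ) ^ d ≠ 0 := by positivity
        field_simp
    _ ≤ _ := mul_le_mul_of_nonneg_left h4 (by positivity)

/-- the time representation -/
theorem gL_time (z : ℂ) (hz : 0 < z.im) :
    gL d L z = Complex.I * ∫ s in Ioi (0 : ℝ), PL d L s * Complex.exp (Complex.I * z * s) := by
  unfold gL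
  have h1 : ∀ k : T d L, (((adj k : ℝ) : ℂ) - z)⁻¹ =
      Complex.I * ∫ s in Ioi (0 : ℝ), Complex.exp (Complex.I * (z - adj k) * s) :=
    fun k => inv_time (adj k) z hz
  simp only [h1]
  rw [← Finset.mul_sum, ← integral_finsetSum]
  · rw [← mul_assoc, mul_comm _ Complex.I, mul_assoc, ← integral_const_mul]
    congr 1
    refine setIntegral_congr_fun measurableSet_Ioi fun s _ => ?_
    unfold PL Ph
    rw [mul_assoc, Finset.sum_mul]
    refine congrArg (fun t => ((NN d L : ℝ) : ℂ)⁻¹ * t) (Finset.sum_congr rfl fun k _ => ?_)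
    rw [← Complex.exp_add]
    congr 1
    push_cast
    ring
  · intro k _
    refine integrableOn_exp_mul_complex_Ioi ?_ 0
    simp
    exact hz

/-- the constant of the free resolvent -/
noncomputable def K5 : ℝ := ∫ s in Ioi (0 : ℝ), (s + 1) ^ (-(5 / 4) : ℝ)

theorem K5_nonneg : 0 ≤ K5 := by
  unfold K5
  refine setIntegral_nonneg measurableSet_Ioi fun s hs => ?_
  have : (0 : ℝ) < s := hs
  positivity

theorem int_K5 : IntegrableOn (fun s : ℝ => (s + 1) ^ (-(5 / 4) : ℝ)) (Ioi 0) :=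
  integrableOn_add_rpow_Ioi_of_lt (by norm_num) (by norm_num)

theorem min_le (x : ℝ) (hx : 0 ≤ x) : min 2 x ≤ 2 * x ^ (1 / 4 : ℝ) := by
  rcases le_or_gt x 1 with h | h
  · have h1 : x ≤ x ^ (1 / 4 : ℝ) := by
      rcases hx.eq_or_lt with h0 | h0
      · rw [← h0, Real.zero_rpow (by norm_num)]
      · have := Real.rpow_le_rpow_of_exponent_ge h0 h (show (1 / 4 : ℝ) ≤ 1 by norm_num)
        rwa [Real.rpow_one] at this
    have h2 : 0 ≤ x ^ (1 / 4 : ℝ) := by positivity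
    exact (min_le_right _ _).trans (by linarith)
  · have h1 : 1 ≤ x ^ (1 / 4 : ℝ) := Real.one_le_rpow h.le (by norm_num)
    exact (min_le_left _ _).trans (by linarith)

/-- **Hölder continuity** -/
theorem gL_holder (hO : S_OSC) (hd : 3 ≤ d) (t T0 : ℝ) (ht : 0 < t)
    (hT : (1 + T0) ^ 3 ≤ (L : ℝ) ^ 2) (z z' : ℂ) (hz : t ≤ z.im)
    (hz' : t ≤ z'.im) :
    ‖gL d L z - gL d L z'‖ ≤
      2 * 10 ^ d * K5 * ‖z - z'‖ ^ (1 / 4 : ℝ) + 4 / t * Real.exp (-(t * T0 / 2)) := by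
  have hi : ∀ w : ℂ, t ≤ w.im →
      IntegrableOn (fun s : ℝ => PL d L s * Complex.exp (Complex.I * w * s)) (Ioi 0) := by
    intro w hw
    have h1 : IntegrableOn (fun s : ℝ => Complex.exp (Complex.I * w * s)) (Ioi 0) := by
      refine integrableOn_exp_mul_complex_Ioi ?_ 0
      simp
      linarith
    refine Integrable.mono h1 ?_ ?_
    · exact (PL_cont.mul (by fun_prop)).aestronglyMeasurable
    · refine Filter.Eventually.of_forall fun s => ?_
      rw [norm_mul]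
      exact mul_le_of_le_one_left (norm_nonneg _) (PL_le_one s)
  rw [gL_time z (ht.trans_le hz), gL_time z' (ht.trans_le hz'), ← mul_sub, norm_mul,
    Complex.norm_I, one_mul, ← integral_sub (hi z hz) (hi z' hz')]
  obtain ⟨Δ, hΔ⟩ : ∃ Δ, Δ = ‖z - z'‖ := ⟨_, rfl⟩
  have hΔ0 : 0 ≤ Δ := by rw [hΔ]; exact norm_nonneg _
  rw [← hΔ]
  have hcon : ∀ s : ℝ, (2 * 10 ^ d * Δ ^ (1 / 4 : ℝ)) * (s + 1) ^ (-(5 / 4) : ℝ) +
      (2 * Real.exp (-(t * T0 / 2))) * Real.exp (-(t / 2) * s) =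
      (2 * 10 ^ d * Δ ^ (1 / 4 : ℝ)) * (s + 1) ^ (-(5 / 4) : ℝ) +
      (2 * Real.exp (-(t * T0 / 2))) * Real.exp (-(t / 2) * s) := fun _ => rfl
  have hexpi : IntegrableOn (fun s : ℝ => Real.exp (-(t / 2) * s)) (Ioi 0) := by
    have := integrableOn_exp_mul_Ioi (a := -(t / 2)) (by linarith) 0
    exact this
  have hpt : ∀ s ∈ Ioi (0 : ℝ), ‖PL d L s * Complex.exp (Complex.I * z * s) -
      PL d L s * Complex.exp (Complex.I * z' * s)‖ ≤
      (2 * 10 ^ d * Δ ^ (1 / 4 : ℝ)) * (s + 1) ^ (-(5 / 4) : ℝ) +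
      (2 * Real.exp (-(t * T0 / 2))) * Real.exp (-(t / 2) * s) := by
    intro s hs
    have hs0 : 0 < s := hs
    rw [← mul_sub, norm_mul]
    have hre : ∀ w : ℂ, t ≤ w.im → (Complex.I * w * s).re ≤ -(t * s) := by
      intro w hw
      have : (Complex.I * w * s).re = -(w.im * s) := by simp
      rw [this]
      have := mul_le_mul_of_nonneg_right hw hs0.le
      linarith
    have hts : 0 ≤ t * s := by positivity
    have hn : ∀ w : ℂ, t ≤ w.im → ‖Complex.exp (Complex.I * w * s)‖ ≤ Real.exp (-(t * s)) := by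
      intro w hw
      rw [Complex.norm_exp]
      exact Real.exp_le_exp.2 (hre w hw)
    have h2 : ‖Complex.exp (Complex.I * z * s) - Complex.exp (Complex.I * z' * s)‖ ≤
        2 * Real.exp (-(t * s)) := by
      refine (norm_sub_le _ _).trans ?_
      have := hn z hz
      have := hn z' hz'
      linarith
    have h3 : ‖Complex.exp (Complex.I * z * s) - Complex.exp (Complex.I * z' * s)‖ ≤ s * Δ := by
      refine (exp_sub_le _ _ ((hre z hz).trans (by linarith))
        ((hre z' hz').trans (by linarith))).trans (le_of_eq ?_)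
      rw [← sub_mul, ← mul_sub, norm_mul, norm_mul, Complex.norm_I, one_mul, Complex.norm_real,
        Real.norm_eq_abs, abs_of_pos hs0, hΔ, mul_comm]
    have hx1 : 0 ≤ (2 * 10 ^ d * Δ ^ (1 / 4 : ℝ)) * (s + 1) ^ (-(5 / 4) : ℝ) := by positivity
    have hx2 : 0 ≤ (2 * Real.exp (-(t * T0 / 2))) * Real.exp (-(t / 2) * s) := by positivity
    rcases le_or_gt ((1 + s) ^ 3) ((L : ℝ) ^ 2) with h | h
    · have h4 := PL_decay (d := d) (L := L) hO hd s hs0.le h
      have h5 : ‖Complex.exp (Complex.I * z * s) - Complex.exp (Complex.I * z' * s)‖ ≤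
          2 * ((s + 1) ^ (1 / 4 : ℝ) * Δ ^ (1 / 4 : ℝ)) := by
        have h6 : Real.exp (-(t * s)) ≤ 1 := Real.exp_le_one_iff.2 (by linarith)
        have h7 : ‖Complex.exp (Complex.I * z * s) - Complex.exp (Complex.I * z' * s)‖ ≤
            min 2 (s * Δ) := le_min (by linarith) h3
        refine h7.trans ((min_le (s * Δ) (by positivity)).trans ?_)
        rw [Real.mul_rpow hs0.le hΔ0]
        have : s ^ (1 / 4 : ℝ) ≤ (s + 1) ^ (1 / 4 : ℝ) :=
          Real.rpow_le_rpow hs0.le (by linarith) (by norm_num)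
        gcongr
      calc ‖PL d L s‖ * ‖Complex.exp (Complex.I * z * s) - Complex.exp (Complex.I * z' * s)‖ ≤
          (10 ^ d * (s + 1) ^ (-(3 / 2) : ℝ)) *
            (2 * ((s + 1) ^ (1 / 4 : ℝ) * Δ ^ (1 / 4 : ℝ))) :=
            mul_le_mul h4 h5 (norm_nonneg _) (by positivity)
        _ = (2 * 10 ^ d * Δ ^ (1 / 4 : ℝ)) * ((s + 1) ^ (-(3 / 2) : ℝ) *
            (s + 1) ^ (1 / 4 : ℝ)) := by ring
        _ = (2 * 10 ^ d * Δ ^ (1 / 4 : ℝ)) * (s + 1) ^ (-(5 / 4) : ℝ) := by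
            rw [← Real.rpow_add (by linarith)]
            norm_num
        _ ≤ _ := by linarith
    · have h4 : T0 ≤ s := by
        by_contra hcon
        push Not at hcon
        have : (1 + s) ^ 3 ≤ (1 + T0) ^ 3 := by gcongr
        linarith
      have h5 : Real.exp (-(t * s)) ≤ Real.exp (-(t * T0 / 2)) * Real.exp (-(t / 2) * s) := by
        rw [← Real.exp_add]
        apply Real.exp_le_exp.2
        have := mul_le_mul_of_nonneg_left h4 ht.le
        linarith
      calc ‖PL d L s‖ * ‖Complex.exp (Complex.I * z * s) - Complex.exp (Complex.I * z' * s)‖ ≤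
          1 * (2 * Real.exp (-(t * s))) :=
            mul_le_mul (PL_le_one s) h2 (norm_nonneg _) zero_le_one
        _ ≤ _ := by linarith
  have hint : IntegrableOn (fun s : ℝ =>
      (2 * 10 ^ d * Δ ^ (1 / 4 : ℝ)) * (s + 1) ^ (-(5 / 4) : ℝ) +
      (2 * Real.exp (-(t * T0 / 2))) * Real.exp (-(t / 2) * s)) (Ioi 0) :=
    (int_K5.const_mul _).add (hexpi.const_mul _)
  refine (norm_integral_le_integral_norm _).trans ?_
  refine (setIntegral_mono_on ((hi z hz).sub (hi z' hz')).norm hint measurableSet_Ioi hpt).trans ?_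
  rw [integral_add (int_K5.const_mul _) (hexpi.const_mul _), integral_const_mul,
    integral_const_mul, integral_exp_mul_Ioi (by linarith) 0]
  refine add_le_add (le_of_eq ?_) (le_of_eq ?_)
  · unfold K5
    ring
  · simp
    field_simp
    ring

/-- the free resolvent is bounded -/
theorem gL_bd (hO : S_OSC) (hd : 3 ≤ d) (t T0 : ℝ) (ht : 0 < t) (ht1 : t ≤ 1)
    (hT : (1 + T0) ^ 3 ≤ (L : ℝ) ^ 2) (z : ℂ) (hz : t ≤ z.im) (hz1 : z.im ≤ 1) :
    ‖gL d L z‖ ≤ 1 + 2 * 10 ^ d * K5 + 4 / t * Real.exp (-(t * T0 / 2)) := by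
  obtain ⟨z', hz'⟩ : ∃ z' : ℂ, z' = z + ((1 - z.im : ℝ) : ℂ) * Complex.I := ⟨_, rfl⟩
  have him : z'.im = 1 := by rw [hz']; simp
  have h1 := gL_holder (d := d) (L := L) hO hd t T0 ht hT z z' hz (by rw [him]; exact ht1)
  have h2 : ‖z - z'‖ ≤ 1 := by
    have : z - z' = -(((1 - z.im : ℝ) : ℂ) * Complex.I) := by rw [hz']; ring
    rw [this, norm_neg, norm_mul, Complex.norm_I, mul_one, Complex.norm_real, Real.norm_eq_abs,
      abs_of_nonneg (by linarith)]
    linarith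
  have h3 : ‖z - z'‖ ^ (1 / 4 : ℝ) ≤ 1 := Real.rpow_le_one (norm_nonneg _) h2 (by norm_num)
  have h4 : ‖gL d L z'‖ ≤ 1 := by
    have hN := NN_pos (d := d) (L := L)
    unfold gL
    rw [norm_mul, norm_inv, Complex.norm_real, Real.norm_eq_abs, abs_of_pos hN,
      inv_mul_le_iff₀ hN, mul_one]
    refine (norm_sum_le _ _).trans ?_
    have h5 : ∀ k : T d L, ‖(((adj k : ℝ) : ℂ) - z')⁻¹‖ ≤ 1 := by
      intro k
      rw [norm_inv]
      apply inv_le_one_of_one_le₀
      have := Complex.abs_im_le_norm (((adj k : ℝ) : ℂ) - z')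
      simp only [Complex.sub_im, Complex.ofReal_im, him] at this
      norm_num at this
      exact this
    refine (Finset.sum_le_sum fun k _ => h5 k).trans ?_
    rw [Finset.sum_const, Finset.card_univ, nsmul_eq_mul, mul_one,
      Pool.Agent.W788.MFP.Four.card_T]
  have h5 : ‖gL d L z‖ ≤ ‖gL d L z - gL d L z'‖ + ‖gL d L z'‖ := by
    have := norm_add_le (gL d L z - gL d L z') (gL d L z')
    rwa [sub_add_cancel] at this
  have h6 : 2 * 10 ^ d * K5 * ‖z - z'‖ ^ (1 / 4 : ℝ) ≤ 2 * 10 ^ d * K5 * 1 := by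
    have := K5_nonneg
    gcongr
  linarith

end Pool.Agent.TH794.LL2
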