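import Pool.Agent.TH794.LL2.Site3
import Pool.Agent.TH794.LL2.Free
import Pool.Agent.TH794.LL2.Conc2
import Pool.Agent.W788.BK.Net

/-! The local density of states on the torus, with precision, at all energies. -/

set_option autoImplicit false
set_option linter.unusedSectionVars false

open scoped BigOperators Matrix
open MeasureTheory

namespace Pool.Agent.TH794.LL2

open Pool.Agent.W788.BK
open Pool.Agent.W788.MFP.Four (T e NN adj K ft Op q NN_pos e_zero)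

variable {d L : ℕ} [NeZero L]

/-- the free local density of states on the torus -/
noncomputable def G0 (d L : ℕ) [NeZero L] (E t : ℝ) : ℝ :=
  (gL d L ((E : ℂ) + ((t : ℝ) : ℂ) * Complex.I)).im

/-- the mean of the local density of states -/
theorem mean_G0 (hTH : S_THIRD) (hFL : S_FLUCT) (hIN : S_INV) (hO : S_OSC) (hd : 3 ≤ d)
    (E δ θ η a v2 Q β s2 g ε e1 T0 x2 : ℝ) (hδ : 0 < δ) (hη : 0 < η) (hη1 : η ≤ 1)
    (hadm : Adm (D0 E δ) (AA (d := d) (L := L) E δ θ) a v2 Q)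
    (μ : Measure ℝ) [IsProbabilityMeasure μ] (hβ : 0 < β) (hμ : ∀ᵐ s ∂μ, |s| ≤ β)
    (h0 : ∫ s, s ∂μ = 0) (h2 : ∫ s, s ^ 2 ∂μ = s2) (hs2 : 0 ≤ s2)
    (hβa : β * a ≤ η) (hβv : β ^ 2 * v2 ≤ 1) (hε0 : 0 ≤ ε) (hε1 : ε ≤ 1 / 2)
    (he0 : 0 ≤ e1) (he1 : e1 ≤ 1 / 4)
    (hε : 4 * β ^ 3 * a * v2 / η ^ 3 + s2 * (2 * β * Q * Real.sqrt v2 / η ^ 4) ≤ ε)
    (hg : ∀ E' : ℝ, ∑ k : T d L, (JJ E' (η * δ) k)⁻¹ ≤ g * NN d L)
    (hlow : s2 * (∑ P : T d L, (1 - hi θ P)) ≤ e1 * (η ^ 2 * δ ^ 2) * NN d L)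
    (hT : (1 + T0) ^ 3 ≤ (L : ℝ) ^ 2)
    (hx2 : 4 / 3 * (ε + e1 + (2 * η + 8 * s2 ^ 2 * g ^ 2 / δ ^ 2)) * g +
      (2 * 10 ^ d * K5 * (s2 * (2 * g)) ^ (1 / 4 : ℝ) +
        4 / (η * δ) * Real.exp (-(η * δ * T0 / 2))) ≤ x2) :
    |∫ V, FF E δ θ η V ∂(PP (T d L) μ) - G0 d L E (η * δ)| ≤ x2 := by
  obtain ⟨m, hm1, hm2, hm3, hm4⟩ := mean_asym hTH hFL hIN E δ θ η a v2 Q β s2 g ε e1 hδ hη hη1
    hadm μ hβ hμ h0 h2 hs2 hβa hβv hε0 hε1 he0 he1 hε hg hlow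
  have hm1' : ∫ V, FF E δ θ η V ∂(PP (T d L) μ) = m.im := hm1
  rw [hm1']
  have ht : 0 < η * δ := by positivity
  have h1 := gL_holder (d := d) (L := L) hO hd (η * δ) T0 ht hT
    ((E : ℂ) + (s2 : ℂ) * m + ((η * δ : ℝ) : ℂ) * Complex.I)
    ((E : ℂ) + ((η * δ : ℝ) : ℂ) * Complex.I) (by
      have : ((E : ℂ) + (s2 : ℂ) * m + ((η * δ : ℝ) : ℂ) * Complex.I).im =
          s2 * m.im + η * δ := by
        simp
      rw [this]
      have := mul_nonneg hs2 hm2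
      linarith) (by
      have : ((E : ℂ) + ((η * δ : ℝ) : ℂ) * Complex.I).im = η * δ := by simp
      rw [this])
  have h3 : ‖((E : ℂ) + (s2 : ℂ) * m + ((η * δ : ℝ) : ℂ) * Complex.I) -
      ((E : ℂ) + ((η * δ : ℝ) : ℂ) * Complex.I)‖ ≤ s2 * (2 * g) := by
    have : ((E : ℂ) + (s2 : ℂ) * m + ((η * δ : ℝ) : ℂ) * Complex.I) -
      ((E : ℂ) + ((η * δ : ℝ) : ℂ) * Complex.I) = (s2 : ℂ) * m := by ring
    rw [this, norm_mul, Complex.norm_real, Real.norm_of_nonneg hs2]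
    exact mul_le_mul_of_nonneg_left hm3 hs2
  have hK5 := K5_nonneg
  have h4 : 2 * 10 ^ d * K5 * ‖((E : ℂ) + (s2 : ℂ) * m + ((η * δ : ℝ) : ℂ) * Complex.I) -
      ((E : ℂ) + ((η * δ : ℝ) : ℂ) * Complex.I)‖ ^ (1 / 4 : ℝ) ≤
      2 * 10 ^ d * K5 * (s2 * (2 * g)) ^ (1 / 4 : ℝ) :=
    mul_le_mul_of_nonneg_left (Real.rpow_le_rpow (norm_nonneg _) h3 (by norm_num))
      (by positivity)
  have h5 : |m.im - G0 d L E (η * δ)| ≤
      ‖m - gL d L ((E : ℂ) + ((η * δ : ℝ) : ℂ) * Complex.I)‖ := by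
    unfold G0
    rw [← Complex.sub_im]
    exact Complex.abs_im_le_norm _
  have h6 : m - gL d L ((E : ℂ) + ((η * δ : ℝ) : ℂ) * Complex.I) =
      (m - gL d L ((E : ℂ) + (s2 : ℂ) * m + ((η * δ : ℝ) : ℂ) * Complex.I)) +
      (gL d L ((E : ℂ) + (s2 : ℂ) * m + ((η * δ : ℝ) : ℂ) * Complex.I) -
        gL d L ((E : ℂ) + ((η * δ : ℝ) : ℂ) * Complex.I)) := by ring
  rw [h6] at h5
  have h7 := norm_add_le (m - gL d L ((E : ℂ) + (s2 : ℂ) * m + ((η * δ : ℝ) : ℂ) * Complex.I))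
    (gL d L ((E : ℂ) + (s2 : ℂ) * m + ((η * δ : ℝ) : ℂ) * Complex.I) -
        gL d L ((E : ℂ) + ((η * δ : ℝ) : ℂ) * Complex.I))
  linarith

/-- the good event -/
def Good2 (δ θ η τ ζ e2 : ℝ) (M : ℕ) : Set (T d L → ℝ) :=
  {V | (∀ x, |UU θ V x| ≤ τ) ∧
    ∀ j ∈ Finset.Icc (-(M : ℤ)) M, |FF (ζ * j) δ θ η V - G0 d L (ζ * j) (η * δ)| ≤ e2}

theorem good2_meas (δ θ η τ ζ e2 : ℝ) (M : ℕ) (hη : 0 < η)
    (hX : ∀ E, (D0 (d := d) (L := L) E δ).IsHermitian)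
    (hA : ∀ E y, (AA (d := d) (L := L) E δ θ y).IsHermitian) :
    MeasurableSet (Good2 (d := d) (L := L) δ θ η τ ζ e2 M) := by
  have h1 : Good2 (d := d) (L := L) δ θ η τ ζ e2 M = (⋂ x, {V | |UU θ V x| ≤ τ}) ∩
      ⋂ j ∈ Finset.Icc (-(M : ℤ)) M,
        {V | |FF (ζ * j) δ θ η V - G0 d L (ζ * j) (η * δ)| ≤ e2} := by
    ext V
    simp [Good2]
  rw [h1]
  refine MeasurableSet.inter (MeasurableSet.iInter fun x => ?_)
    (Finset.measurableSet_biInter _ fun j _ => ?_)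
  · exact (isClosed_le (continuous_UU θ x).abs continuous_const).measurableSet
  · exact (isClosed_le ((continuous_FF _ δ θ η hη (hX _) (hA _)).sub continuous_const).abs
      continuous_const).measurableSet

/-- the probability of the good event -/
theorem good2_prob (hES : S_ES) (hTH : S_THIRD) (hFL : S_FLUCT) (hIN : S_INV) (hO : S_OSC)
    (hSU : S_SUP) (hd : 3 ≤ d)
    (δ θ η τ ζ e2 a v2 Q β s2 g ε e1 T0 x2 K0 D : ℝ) (M : ℕ) (hδ : 0 < δ) (hη : 0 < η)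
    (hη1 : η ≤ 1) (hτ : 0 < τ)
    (hadm : ∀ E, Adm (D0 E δ) (AA (d := d) (L := L) E δ θ) a v2 Q)
    (μ : Measure ℝ) [IsProbabilityMeasure μ] (hβ : 0 < β) (hμ : ∀ᵐ s ∂μ, |s| ≤ β)
    (h0 : ∫ s, s ∂μ = 0) (h2 : ∫ s, s ^ 2 ∂μ = s2) (hs2 : 0 ≤ s2)
    (hβa : β * a ≤ η) (hβv : β ^ 2 * v2 ≤ 1) (hε0 : 0 ≤ ε) (hε1 : ε ≤ 1 / 2)
    (he0 : 0 ≤ e1) (he1 : e1 ≤ 1 / 4)
    (hε : 4 * β ^ 3 * a * v2 / η ^ 3 + s2 * (2 * β * Q * Real.sqrt v2 / η ^ 4) ≤ ε)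
    (hg : ∀ E' : ℝ, ∑ k : T d L, (JJ E' (η * δ) k)⁻¹ ≤ g * NN d L)
    (hlow : s2 * (∑ P : T d L, (1 - hi θ P)) ≤ e1 * (η ^ 2 * δ ^ 2) * NN d L)
    (hT : (1 + T0) ^ 3 ≤ (L : ℝ) ^ 2)
    (hx2 : 4 / 3 * (ε + e1 + (2 * η + 8 * s2 ^ 2 * g ^ 2 / δ ^ 2)) * g +
      (2 * 10 ^ d * K5 * (s2 * (2 * g)) ^ (1 / 4 : ℝ) +
        4 / (η * δ) * Real.exp (-(η * δ * T0 / 2))) ≤ x2)
    (hK0 : ∀ E, |G0 d L E (η * δ)| ≤ K0) (he2 : 40 * Real.sqrt D * (K0 + x2) + x2 ≤ e2)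
    (hD : 0 < D) (hD1 : D ≤ 1 / 128)
    (hDD : 2 * β ^ 2 / η ^ 2 * (Q + a ^ 2 / η ^ 2) ≤ D ^ 2) :
    (PP (T d L) μ).real (Good2 (d := d) (L := L) δ θ η τ ζ e2 M)ᶜ ≤
      2 * NN d L * Real.exp (-(τ ^ 2 * NN d L /
        (2 * β ^ 2 * ∑ P : T d L, (1 - hi θ P)))) +
      (2 * M + 1) * (2 * Real.exp (1 / 2 - 1 / Real.sqrt (2 * D))) := by
  have hsub : (Good2 (d := d) (L := L) δ θ η τ ζ e2 M)ᶜ ⊆
      {V | ∃ x : T d L, τ < |∑ y : T d L, V y * K (fun Q => 1 - hi θ Q) (x - y)|} ∪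
      ⋃ j ∈ Finset.Icc (-(M : ℤ)) M,
        {V | e2 < |FF (ζ * j) δ θ η V - G0 d L (ζ * j) (η * δ)|} := by
    intro V hV
    simp only [Good2, Set.mem_compl_iff, Set.mem_ofPred_eq, not_and_or, not_forall, not_le] at hV
    rcases hV with ⟨x, hx⟩ | ⟨j, hj, hx⟩
    · exact Or.inl ⟨x, hx⟩
    · exact Or.inr (Set.mem_iUnion₂.2 ⟨j, hj, hx⟩)
  refine (measureReal_mono hsub).trans ((measureReal_union_le _ _).trans (add_le_add ?_ ?_))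
  · exact hSU d L μ β θ τ hβ hμ h0 hτ
  · refine (measureReal_biUnion_finset_le _ _).trans ?_
    have h1 : ∀ j ∈ Finset.Icc (-(M : ℤ)) M,
        (PP (T d L) μ).real {V | e2 < |FF (ζ * j) δ θ η V - G0 d L (ζ * j) (η * δ)|} ≤
          2 * Real.exp (1 / 2 - 1 / Real.sqrt (2 * D)) := by
      intro j _
      have e1 := mean_G0 hTH hFL hIN hO hd (ζ * j) δ θ η a v2 Q β s2 g ε e1 T0 x2 hδ hη hη1
        (hadm _) μ hβ hμ h0 h2 hs2 hβa hβv hε0 hε1 he0 he1 hε hg hlow hT hx2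
      have e2' := conc2 hES (hadm (ζ * j)) μ β η D hβ hμ hη hβv hD hD1 hDD (w0 (ζ * j) δ)
      refine le_trans (measureReal_mono ?_) e2'
      intro V hV
      simp only [Set.mem_ofPred_eq] at hV ⊢
      obtain ⟨m, hm⟩ : ∃ m, m = ∫ V, FF (ζ * j) δ θ η V ∂(PP (T d L) μ) := ⟨_, rfl⟩
      rw [← hm] at e1
      change 40 * Real.sqrt D * (∫ V, FF (ζ * j) δ θ η V ∂(PP (T d L) μ)) <
        |FF (ζ * j) δ θ η V - ∫ V, FF (ζ * j) δ θ η V ∂(PP (T d L) μ)|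
      rw [← hm]
      have h3 := hK0 (ζ * j)
      have h4 : m ≤ K0 + x2 := by
        have h5 := (abs_le.1 e1).2
        have h6 := (abs_le.1 h3).2
        linarith
      have h5 : 40 * Real.sqrt D * m ≤ 40 * Real.sqrt D * (K0 + x2) :=
        mul_le_mul_of_nonneg_left h4 (by positivity)
      have h6 : |FF (ζ * j) δ θ η V - G0 d L (ζ * j) (η * δ)| ≤
          |FF (ζ * j) δ θ η V - m| + |m - G0 d L (ζ * j) (η * δ)| := abs_sub_le _ _ _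
      linarith
    refine (Finset.sum_le_sum h1).trans ?_
    rw [Finset.sum_const, nsmul_eq_mul, Int.card_Icc]
    have e1 : ((M : ℤ) + 1 - -(M : ℤ)).toNat = 2 * M + 1 := by omega
    rw [e1]
    push_cast
    exact le_refl _

/-- changing the energy -/
theorem Sol2.shift {E t : ℝ} {V vr vi rr ri : T d L → ℝ} (h : Sol2 E t V vr vi rr ri) (E' : ℝ) :
    Sol2 E' t V vr vi (fun x => rr x + (E - E') * vr x) (fun x => ri x + (E - E') * vi x) where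
  eqr x := by
    have h1 := h.eqr x
    rw [Pool.Agent.W788.MFP.Four.Op_adj] at h1 ⊢
    linarith
  eqi x := by
    have h1 := h.eqi x
    rw [Pool.Agent.W788.MFP.Four.Op_adj] at h1 ⊢
    linarith

theorem sqrt_Bq_add (rr ri vr vi : T d L → ℝ) (c : ℝ) :
    Real.sqrt (Bq (fun x => rr x + c * vr x) (fun x => ri x + c * vi x)) ≤
      2 * (Real.sqrt (Bq rr ri) + |c| * Real.sqrt (Bq vr vi)) := by
  rw [Real.sqrt_le_left (by positivity)]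
  have h1 : Bq (fun x => rr x + c * vr x) (fun x => ri x + c * vi x) ≤
      2 * Bq rr ri + 2 * c ^ 2 * Bq vr vi := by
    unfold Bq
    have e1 : ∀ f g : T d L → ℝ, ∑ x, (f x + c * g x) ^ 2 ≤
        2 * ∑ x, f x ^ 2 + 2 * c ^ 2 * ∑ x, g x ^ 2 := by
      intro f g
      rw [Finset.mul_sum, Finset.mul_sum, ← Finset.sum_add_distrib]
      refine Finset.sum_le_sum fun x _ => ?_
      nlinarith [sq_nonneg (f x - c * g x)]
    have := e1 rr vr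
    have := e1 ri vi
    linarith
  have h2 := Real.sq_sqrt (Bq_nonneg rr ri)
  have h3 := Real.sq_sqrt (Bq_nonneg vr vi)
  have h4 : (2 * (Real.sqrt (Bq rr ri) + |c| * Real.sqrt (Bq vr vi))) ^ 2 =
      4 * Real.sqrt (Bq rr ri) ^ 2 + 4 * c ^ 2 * Real.sqrt (Bq vr vi) ^ 2 +
        8 * (Real.sqrt (Bq rr ri) * (|c| * Real.sqrt (Bq vr vi))) := by
    have : |c| ^ 2 = c ^ 2 := sq_abs c
    linear_combination (4 * Real.sqrt (Bq vr vi) ^ 2) * this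
  rw [h4, h2, h3]
  have h5 : 0 ≤ Real.sqrt (Bq rr ri) * (|c| * Real.sqrt (Bq vr vi)) := by positivity
  have h6 := Bq_nonneg rr ri
  have h7 : 0 ≤ c ^ 2 * Bq vr vi := mul_nonneg (sq_nonneg _) (Bq_nonneg _ _)
  linarith

/-- at a net point -/
theorem tor_near (E δ θ η κ g1 ρ τ K : ℝ) (hδ : 0 < δ) (hη : 0 < η) (hη1 : η ≤ 1) (hκ : 0 < κ)
    (hκ2 : κ ≤ 1 / 2) (hg : ∑ k : T d L, (JJ E δ k)⁻¹ ≤ g1 * NN d L) (hK : 1 ≤ K)
    {V vr vi rr ri : T d L → ℝ} (h : Sol2 E (η * δ) V vr vi rr ri)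
    (hf : ∀ w : T d L → ℝ, |∑ x, V x * w x ^ 2| ≤ κ * q (JJ E δ) w)
    (hρ0 : 0 ≤ ρ) (hρ : Real.sqrt (Bq rr ri) ≤ ρ) (hτ : 0 ≤ τ)
    (hU : ∀ x : T d L, |UU θ V x| ≤ τ)
    (hB : Real.sqrt (Bq vr vi) ≤ (η * δ)⁻¹)
    (hF0 : 0 ≤ FF E δ θ η V) (hF : FF E δ θ η V ≤ K)
    (h1 : K * (τ / (η * δ) + 2 * (κ + η)) ≤ 1 / 2)
    (h2 : K * (2 * (Real.sqrt η * Real.sqrt g1) + 3 * (ρ / Real.sqrt (η * δ))) ≤ 1 / 2)
    (h3 : ρ / (η * δ) ≤ 1 / 2) :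
    |vi 0 - FF E δ θ η V| ≤ K * ((τ / (η * δ) + 2 * (κ + η)) * (2 * K + 4) +
      (2 * (Real.sqrt η * Real.sqrt g1) + 3 * (ρ / Real.sqrt (η * δ)))) := by
  have hc := compare E δ θ η κ g1 ρ τ hδ hη hκ hκ2 hg h hf hρ0 hρ hτ hU _ rfl
  change |vi 0 - FF E δ θ η V| ≤ Real.sqrt (FF E δ θ η V / η) * _ at hc
  have hw := ward2 h
  obtain ⟨F, hFd⟩ : ∃ F, F = FF E δ θ η V := ⟨_, rfl⟩
  rw [← hFd] at hc hF0 hF ⊢
  obtain ⟨ν, hν⟩ : ∃ ν, ν = vi 0 := ⟨_, rfl⟩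
  rw [← hν] at hc hw ⊢
  obtain ⟨B, hBd⟩ : ∃ B, B = Real.sqrt (Bq vr vi) := ⟨_, rfl⟩
  have hB0 : 0 ≤ B := by rw [hBd]; exact Real.sqrt_nonneg _
  have hB2 : B ^ 2 = Bq vr vi := by rw [hBd, Real.sq_sqrt (Bq_nonneg _ _)]
  rw [← hBd, ← hB2] at hw
  rw [← hBd] at hc hB
  obtain ⟨t, ht⟩ : ∃ t, t = η * δ := ⟨_, rfl⟩
  have ht0 : 0 < t := by rw [ht]; positivity
  rw [← ht] at hw hB h1 h2 h3 ⊢
  obtain ⟨re, hre⟩ : ∃ r, r = Real.sqrt η := ⟨_, rfl⟩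
  obtain ⟨rd, hrd⟩ : ∃ r, r = Real.sqrt δ := ⟨_, rfl⟩
  have hre0 : 0 < re := by rw [hre]; exact Real.sqrt_pos.2 hη
  have hrd0 : 0 < rd := by rw [hrd]; exact Real.sqrt_pos.2 hδ
  have hre2 : re ^ 2 = η := by rw [hre]; exact Real.sq_sqrt hη.le
  have hrd2 : rd ^ 2 = δ := by rw [hrd]; exact Real.sq_sqrt hδ.le
  have hrt : Real.sqrt t = re * rd := by rw [ht, Real.sqrt_mul hη.le, hre, hrd]
  rw [← hrd] at hc
  rw [← hre, hrt] at h2 ⊢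
  obtain ⟨sg, hsg⟩ : ∃ s, s = Real.sqrt g1 := ⟨_, rfl⟩
  have hsg0 : 0 ≤ sg := by rw [hsg]; exact Real.sqrt_nonneg _
  rw [← hsg] at hc h2 ⊢
  -- the prefactor
  have hpre : Real.sqrt (F / η) ≤ K / re := by
    rw [Real.sqrt_div hF0, ← hre]
    apply div_le_div_of_nonneg_right _ hre0.le
    rw [Real.sqrt_le_left (by linarith)]
    nlinarith
  have htr : t = (re * rd) ^ 2 := by rw [ht, mul_pow, hre2, hrd2]
  obtain ⟨w, hw'⟩ : ∃ w, w = re * rd * B := ⟨_, rfl⟩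
  have hw0 : 0 ≤ w := by rw [hw']; positivity
  have hw2 : w ^ 2 = t * B ^ 2 := by rw [hw', mul_pow, ← htr]
  -- the Ward identity
  have hBρ : B * Real.sqrt (Bq rr ri) ≤ ρ / t := by
    calc B * Real.sqrt (Bq rr ri) ≤ t⁻¹ * ρ := mul_le_mul hB hρ (Real.sqrt_nonneg _)
          (inv_nonneg.2 ht0.le)
      _ = ρ / t := by rw [div_eq_mul_inv, mul_comm]
  have hwν : w ^ 2 ≤ ν + ρ / t := by
    have := (abs_le.1 hw).2
    rw [hw2]
    linarith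
  have hwu : w ≤ 1 + (ν + ρ / t) := by nlinarith
  obtain ⟨s, hs⟩ : ∃ s, s = 2 * (re * sg) + 3 * (ρ / (re * rd)) := ⟨_, rfl⟩
  rw [← hs] at h2 ⊢
  have hs0 : 0 ≤ s := by rw [hs]; positivity
  obtain ⟨κ', hκ'⟩ : ∃ κ', κ' = τ / t + 2 * (κ + η) := ⟨_, rfl⟩
  rw [← hκ'] at h1 ⊢
  have hκ'0 : 0 ≤ κ' := by rw [hκ']; positivity
  have hmain : |ν - F| ≤ K * (κ' * w + s) := by
    have hin0 : 0 ≤ rd⁻¹ * (ρ + τ * B) + η * (2 * sg + 2 * (κ + η) * (rd * B) +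
        2 * (rd⁻¹ * ρ)) := by positivity
    refine hc.trans ((mul_le_mul_of_nonneg_right hpre hin0).trans ?_)
    have e1 : K / re * (rd⁻¹ * (ρ + τ * B) + η * (2 * sg + 2 * (κ + η) * (rd * B) +
        2 * (rd⁻¹ * ρ))) = K * ((τ / t * w + 2 * (κ + η) * w) + (2 * (re * sg) +
        (1 + 2 * η) * (ρ / (re * rd)))) := by
      rw [hw', htr, ← hre2]
      field_simp
      ring
    rw [e1, hκ', hs]
    apply mul_le_mul_of_nonneg_left _ (by linarith)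
    have e2 : (1 + 2 * η) * (ρ / (re * rd)) ≤ 3 * (ρ / (re * rd)) := by
      apply mul_le_mul_of_nonneg_right _ (by positivity)
      linarith
    linarith
  have hνF : ν ≤ F + |ν - F| := by
    have := le_abs_self (ν - F)
    linarith
  obtain ⟨u, hu⟩ : ∃ u, u = ν + ρ / t := ⟨_, rfl⟩
  rw [← hu] at hwν hwu
  have hu0 : 0 ≤ u := le_trans (sq_nonneg _) hwν
  have e1 : K * (κ' * w) ≤ 1 / 2 * (1 + u) := by
    calc K * (κ' * w) = K * κ' * w := by ring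
      _ ≤ K * κ' * (1 + u) := mul_le_mul_of_nonneg_left hwu (by positivity)
      _ ≤ _ := mul_le_mul_of_nonneg_right h1 (by linarith)
  have e2 : u ≤ 2 * K + 3 := by
    have : K * (κ' * w + s) = K * (κ' * w) + K * s := by ring
    linarith
  refine hmain.trans (mul_le_mul_of_nonneg_left ?_ (by linarith))
  have e3 : κ' * w ≤ κ' * (2 * K + 4) := mul_le_mul_of_nonneg_left (by linarith) hκ'0
  linarith

/-- the free resolvent at nearby energies -/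
theorem G0_lip (E E' t : ℝ) (ht : 0 < t) : |G0 d L E t - G0 d L E' t| ≤ |E - E'| / t ^ 2 := by
  have hN := NN_pos (d := d) (L := L)
  have h1 : |G0 d L E t - G0 d L E' t| ≤ ‖gL d L ((E : ℂ) + ((t : ℝ) : ℂ) * Complex.I) -
      gL d L ((E' : ℂ) + ((t : ℝ) : ℂ) * Complex.I)‖ := by
    unfold G0
    rw [← Complex.sub_im]
    exact Complex.abs_im_le_norm _
  refine h1.trans ?_
  have h2 : ∀ (a x : ℝ), t ≤ ‖(a : ℂ) - ((x : ℂ) + ((t : ℝ) : ℂ) * Complex.I)‖ := by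
    intro a x
    have h3 := Complex.abs_im_le_norm ((a : ℂ) - ((x : ℂ) + ((t : ℝ) : ℂ) * Complex.I))
    have h4 : ((a : ℂ) - ((x : ℂ) + ((t : ℝ) : ℂ) * Complex.I)).im = -t := by simp
    rw [h4, abs_neg, abs_of_pos ht] at h3
    exact h3
  have h3 : ∀ a : ℝ, ‖((a : ℂ) - ((E : ℂ) + ((t : ℝ) : ℂ) * Complex.I))⁻¹ -
      ((a : ℂ) - ((E' : ℂ) + ((t : ℝ) : ℂ) * Complex.I))⁻¹‖ ≤ |E - E'| / t ^ 2 := by
    intro a
    have n1 := h2 a E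
    have n2 := h2 a E'
    have z1 : ((a : ℂ) - ((E : ℂ) + ((t : ℝ) : ℂ) * Complex.I)) ≠ 0 := by
      intro h
      rw [h, norm_zero] at n1
      linarith
    have z2 : ((a : ℂ) - ((E' : ℂ) + ((t : ℝ) : ℂ) * Complex.I)) ≠ 0 := by
      intro h
      rw [h, norm_zero] at n2
      linarith
    rw [inv_sub_inv z1 z2, norm_div, norm_mul]
    have e1 : ((a : ℂ) - ((E' : ℂ) + ((t : ℝ) : ℂ) * Complex.I)) -
        ((a : ℂ) - ((E : ℂ) + ((t : ℝ) : ℂ) * Complex.I)) = ((E - E' : ℝ) : ℂ) := by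
      push_cast
      ring
    rw [e1, Complex.norm_real, Real.norm_eq_abs]
    apply div_le_div_of_nonneg_left (abs_nonneg _) (by positivity)
    rw [sq]
    exact mul_le_mul n1 n2 ht.le (norm_nonneg _)
  unfold gL
  rw [← mul_sub, ← Finset.sum_sub_distrib, norm_mul, norm_inv, Complex.norm_real,
    Real.norm_eq_abs, abs_of_pos hN, inv_mul_le_iff₀ hN]
  refine (norm_sum_le _ _).trans ((Finset.sum_le_sum fun k _ => h3 (adj k)).trans ?_)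
  rw [Finset.sum_const, Finset.card_univ, nsmul_eq_mul, Pool.Agent.W788.MFP.Four.card_T]

/-- the free local density of states far away -/
theorem G0_far (E t : ℝ) (ht : 0 < t) (h : ∀ k : T d L, 1 ≤ |adj k - E|) :
    |G0 d L E t| ≤ t := by
  have hN := NN_pos (d := d) (L := L)
  have h1 : G0 d L E t = (NN d L)⁻¹ * ∑ k : T d L, t / ((adj k - E) ^ 2 + t ^ 2) := by
    unfold G0 gL
    rw [← Complex.ofReal_inv, Complex.im_ofReal_mul, Complex.im_sum]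
    refine congrArg (fun s => (NN d L)⁻¹ * s) (Finset.sum_congr rfl fun k _ => ?_)
    rw [Complex.inv_im]
    have e1 : (((adj k : ℝ) : ℂ) - ((E : ℂ) + ((t : ℝ) : ℂ) * Complex.I)).im = -t := by simp
    have e2 : (((adj k : ℝ) : ℂ) - ((E : ℂ) + ((t : ℝ) : ℂ) * Complex.I)).re = adj k - E := by
      simp
    rw [Complex.normSq_apply, e1, e2, neg_neg]
    congr 1
    ring
  have h2 : ∀ k : T d L, 0 ≤ t / ((adj k - E) ^ 2 + t ^ 2) := fun k => by positivity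
  have h3 : ∀ k : T d L, t / ((adj k - E) ^ 2 + t ^ 2) ≤ t := by
    intro k
    rw [div_le_iff₀ (by positivity)]
    have h4 : 1 ≤ (adj k - E) ^ 2 := by
      rw [← sq_abs]
      exact one_le_pow₀ (h k)
    nlinarith [sq_nonneg t]
  rw [h1, abs_of_nonneg (mul_nonneg (inv_nonneg.2 hN.le) (Finset.sum_nonneg fun k _ => h2 k)),
    inv_mul_le_iff₀ hN]
  refine (Finset.sum_le_sum fun k _ => h3 k).trans ?_
  rw [Finset.sum_const, Finset.card_univ, nsmul_eq_mul, Pool.Agent.W788.MFP.Four.card_T]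

/-- far away -/
theorem tor_far (E δ η κ g1 ρ : ℝ) (hδ : 0 < δ) (hη : 0 < η) (hκ : 0 < κ)
    (hκ2 : κ ≤ 1 / 2) (hg : ∑ k : T d L, (JJ E δ k)⁻¹ ≤ g1 * NN d L)
    {V vr vi rr ri : T d L → ℝ} (h : Sol2 E (η * δ) V vr vi rr ri)
    (hf : ∀ w : T d L → ℝ, |∑ x, V x * w x ^ 2| ≤ κ * q (JJ E δ) w)
    (hρ0 : 0 ≤ ρ) (hρ : Real.sqrt (Bq rr ri) ≤ ρ)
    (hfar : ∀ k : T d L, 1 ≤ |adj k - E|) (hs : (2 * (κ + η) + 1) * Real.sqrt δ ≤ 1 / 2) :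
    |vi 0| ≤ η * δ * (4 * Real.sqrt g1 + 4 * (ρ / Real.sqrt δ)) ^ 2 +
      (4 * Real.sqrt g1 + 4 * (ρ / Real.sqrt δ)) * ρ := by
  obtain ⟨hX1, hX2⟩ := XN_le E δ η κ g1 ρ hδ hη hκ hκ2 hg h hf hρ0 hρ
  have hw := ward2 h
  have hN := NN_pos (d := d) (L := L)
  have hsN : 0 < Real.sqrt (NN d L) := Real.sqrt_pos.2 hN
  obtain ⟨B, hBd⟩ : ∃ B, B = Real.sqrt (Bq vr vi) := ⟨_, rfl⟩
  have hB0 : 0 ≤ B := by rw [hBd]; exact Real.sqrt_nonneg _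
  have hB2 : B ^ 2 = Bq vr vi := by rw [hBd, Real.sq_sqrt (Bq_nonneg _ _)]
  rw [← hBd, ← hB2] at hw
  rw [← hBd] at hX1 hX2
  have h1 : Real.sqrt (NN d L) * B ≤
      nn (fun k : T d L => (Real.sqrt (JJ E δ k) : ℂ) * fc vr vi k) := by
    unfold nn
    apply Real.le_sqrt_of_sq_le
    rw [mul_pow, Real.sq_sqrt hN.le, hB2, ← sum_fc_one, nsq_mulr]
    refine Finset.sum_le_sum fun k _ => ?_
    rw [Real.sq_sqrt (JJ_pos E δ hδ k).le]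
    apply le_mul_of_one_le_left (sq_nonneg _)
    refine (hfar k).trans ?_
    unfold JJ
    rw [← Real.sqrt_sq_eq_abs]
    apply Real.sqrt_le_sqrt
    have := sq_nonneg δ
    linarith
  have h2 : B ≤ 2 * Real.sqrt g1 + 2 * (κ + η) * (Real.sqrt δ * B) +
      2 * ((Real.sqrt δ)⁻¹ * ρ) + Real.sqrt δ * B := by
    refine le_of_mul_le_mul_left ?_ hsN
    refine h1.trans (hX2.trans ?_)
    rw [mul_add]
    exact add_le_add hX1 le_rfl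
  have h3 : (2 * (κ + η) + 1) * Real.sqrt δ * B ≤ 1 / 2 * B := mul_le_mul_of_nonneg_right hs hB0
  have h4 : B ≤ 4 * Real.sqrt g1 + 4 * (ρ / Real.sqrt δ) := by
    have e1 : (Real.sqrt δ)⁻¹ * ρ = ρ / Real.sqrt δ := by rw [div_eq_mul_inv, mul_comm]
    rw [e1] at h2
    linarith
  have ht0 : 0 < η * δ := by positivity
  have h5 : |vi 0| ≤ η * δ * B ^ 2 + B * Real.sqrt (Bq rr ri) := by
    have e1 : |vi 0| ≤ |η * δ * B ^ 2 - vi 0| + |η * δ * B ^ 2| := by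
      have := abs_sub_abs_le_abs_sub (vi 0) (η * δ * B ^ 2)
      rw [abs_sub_comm] at this
      linarith
    rw [abs_of_nonneg (show 0 ≤ η * δ * B ^ 2 by positivity)] at e1
    linarith
  refine h5.trans (add_le_add ?_ ?_)
  · apply mul_le_mul_of_nonneg_left _ ht0.le
    exact pow_le_pow_left₀ hB0 h4 2
  · exact mul_le_mul h4 hρ (Real.sqrt_nonneg _) (hB0.trans h4)

/-- **all energies on the torus** -/
theorem tor (δ θ η κ g1 ρ τ K ζ e2 e3 : ℝ) (M : ℕ) (hδ : 0 < δ) (hη : 0 < η)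
    (hη1 : η ≤ 1) (hκ : 0 < κ)
    (hκ2 : κ ≤ 1 / 2) (hg : ∀ E, ∑ k : T d L, (JJ E δ k)⁻¹ ≤ g1 * NN d L) (hK : 1 ≤ K)
    (hζ : 0 < ζ) (hM : (2 * d + 1) ≤ ζ * M)
    (V : T d L → ℝ) (hV : V ∈ Good2 (d := d) (L := L) δ θ η τ ζ e2 M)
    (hX : ∀ E, (D0 (d := d) (L := L) E δ).IsHermitian)
    (hA : ∀ E y, (AA (d := d) (L := L) E δ θ y).IsHermitian)
    (hf : ∀ (E : ℝ) (w : T d L → ℝ), |∑ x, V x * w x ^ 2| ≤ κ * q (JJ E δ) w)
    (hρ0 : 0 ≤ ρ) (hτ : 0 ≤ τ)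
    (hKe : ∀ E, |G0 d L E (η * δ)| + e2 ≤ K)
    (h1 : K * (τ / (η * δ) + 2 * (κ + η)) ≤ 1 / 2)
    (h2 : K * (2 * (Real.sqrt η * Real.sqrt g1) + 3 * ((2 * (ρ + ζ * (η * δ)⁻¹)) /
      Real.sqrt (η * δ))) ≤ 1 / 2)
    (h3 : (2 * (ρ + ζ * (η * δ)⁻¹)) / (η * δ) ≤ 1 / 2)
    (hs : (2 * (κ + η) + 1) * Real.sqrt δ ≤ 1 / 2)
    (h4 : K * ((τ / (η * δ) + 2 * (κ + η)) * (2 * K + 4) +
      (2 * (Real.sqrt η * Real.sqrt g1) + 3 * ((2 * (ρ + ζ * (η * δ)⁻¹)) /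
      Real.sqrt (η * δ)))) + e2 + ζ / (η * δ) ^ 2 ≤ e3)
    (h5 : η * δ * (4 * Real.sqrt g1 + 4 * (ρ / Real.sqrt δ)) ^ 2 +
      (4 * Real.sqrt g1 + 4 * (ρ / Real.sqrt δ)) * ρ + η * δ ≤ e3)
    (E : ℝ) (vr vi rr ri : T d L → ℝ) (h : Sol2 E (η * δ) V vr vi rr ri)
    (hρ : Real.sqrt (Bq rr ri) ≤ ρ)
    (hB : Real.sqrt (Bq vr vi) ≤ (η * δ)⁻¹) :
    |vi 0 - G0 d L E (η * δ)| ≤ e3 := by
  have ht0 : 0 < η * δ := by positivity
  rcases le_or_gt |E| (2 * d + 1) with hE | hE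
  · -- a net point
    obtain ⟨j, hj⟩ : ∃ j : ℤ, j = ⌊E / ζ⌋ := ⟨_, rfl⟩
    have f3 := Int.floor_le (E / ζ)
    have f4 := Int.lt_floor_add_one (E / ζ)
    rw [← hj] at f3 f4
    have f5 : ζ * (j : ℝ) ≤ E := by
      calc ζ * (j : ℝ) ≤ ζ * (E / ζ) := by gcongr
        _ = E := by field_simp
    have f6 : E ≤ ζ * (j : ℝ) + ζ := by
      calc E = ζ * (E / ζ) := by field_simp
        _ ≤ ζ * ((j : ℝ) + 1) := by gcongr
        _ = _ := by ring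
    have hEj : |E - ζ * j| ≤ ζ := by
      rw [abs_le]
      constructor <;> linarith
    have hjI : j ∈ Finset.Icc (-(M : ℤ)) M := by
      have e1 := abs_le.1 hE
      rw [Finset.mem_Icc]
      constructor
      · rw [hj, Int.le_floor, le_div_iff₀ hζ]
        push_cast
        linarith [e1.1]
      · have e2 : ζ * (j : ℝ) ≤ ζ * M := by linarith [e1.2]
        have e3 : (j : ℝ) ≤ M := le_of_mul_le_mul_left e2 hζ
        exact_mod_cast e3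
    have hF := hV.2 j hjI
    have hsh := h.shift (ζ * j)
    have hρ' : Real.sqrt (Bq (fun x => rr x + (E - ζ * j) * vr x)
        (fun x => ri x + (E - ζ * j) * vi x)) ≤ 2 * (ρ + ζ * (η * δ)⁻¹) := by
      refine (sqrt_Bq_add _ _ _ _ _).trans ?_
      have : |E - ζ * j| * Real.sqrt (Bq vr vi) ≤ ζ * (η * δ)⁻¹ :=
        mul_le_mul hEj hB (Real.sqrt_nonneg _) hζ.le
      linarith
    have hF0 : 0 ≤ FF (ζ * j) δ θ η V := by
      have e1 := (ward (hX (ζ * j)) (hA (ζ * j)) hη V (w0 (d := d) (L := L) (ζ * j) δ)).1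
      change FF (ζ * j) δ θ η V = _ at e1
      rw [e1]
      exact mul_nonneg hη.le (nsq_nonneg _)
    have hFK : FF (ζ * j) δ θ η V ≤ K := by
      have e1 := hKe (ζ * j)
      have e2 := (abs_le.1 hF).2
      have e3 := le_abs_self (G0 d L (ζ * j) (η * δ))
      linarith
    have hn := tor_near (ζ * j) δ θ η κ g1 (2 * (ρ + ζ * (η * δ)⁻¹)) τ K hδ hη hη1 hκ hκ2
      (hg _) hK hsh (hf _) (by positivity) hρ' hτ hV.1 hB hF0 hFK h1 h2 h3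
    have hl := G0_lip (d := d) (L := L) (ζ * j) E (η * δ) ht0
    have hl2 : |ζ * j - E| / (η * δ) ^ 2 ≤ ζ / (η * δ) ^ 2 := by
      rw [abs_sub_comm]
      exact div_le_div_of_nonneg_right hEj (by positivity)
    have a1 := abs_sub_le (vi 0) (FF (ζ * j) δ θ η V) (G0 d L E (η * δ))
    have a2 := abs_sub_le (FF (ζ * j) δ θ η V) (G0 d L (ζ * j) (η * δ)) (G0 d L E (η * δ))
    linarith
  · have hfar : ∀ k : T d L, 1 ≤ |adj k - E| := by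
      intro k
      have e1 := Pool.Agent.W788.MFP.Form.adj_abs k
      have e2 : |E| ≤ |adj k - E| + |adj k| := by
        have := abs_sub_abs_le_abs_sub E (adj k)
        rw [abs_sub_comm] at this
        linarith
      linarith
    have hn := tor_far E δ η κ g1 ρ hδ hη hκ hκ2 (hg _) h (hf _) hρ0 hρ hfar hs
    have hg0 := G0_far (d := d) (L := L) E (η * δ) ht0 hfar
    have a1 := abs_sub (vi 0) (G0 d L E (η * δ))
    linarith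

end Pool.Agent.TH794.LL2
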