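import Pool.Agent.W363.BK.Site
import Pool.Agent.TH794.LL2.Mean2

/-! Comparison of the resolvent with the regularised one. -/

set_option autoImplicit false
set_option linter.unusedSectionVars false

open scoped BigOperators Matrix
open MeasureTheory

namespace Pool.Agent.TH794.LL2

open Pool.Agent.W788.BK
open Pool.Agent.W788.MFP.Four

variable {d L : ℕ} [NeZero L]

/-! ### norms -/

/-- the norm of a vector -/
noncomputable def nn {n : Type} [Fintype n] (w : n → ℂ) : ℝ := Real.sqrt (nsq w)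

section
variable {n : Type} [Fintype n] [DecidableEq n]

theorem nn_nonneg (w : n → ℂ) : 0 ≤ nn w := Real.sqrt_nonneg _

theorem nn_sq (w : n → ℂ) : nn w ^ 2 = nsq w := Real.sq_sqrt (nsq_nonneg w)

theorem nn_eq (w : n → ℂ) : nn w = ‖(WithLp.toLp 2 w : EuclideanSpace ℂ n)‖ := by
  rw [EuclideanSpace.norm_eq]
  rfl

theorem nn_add (u w : n → ℂ) : nn (u + w) ≤ nn u + nn w := by
  rw [nn_eq, nn_eq, nn_eq]
  exact norm_add_le _ _

theorem nn_sub (u w : n → ℂ) : nn (u - w) ≤ nn u + nn w := by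
  rw [nn_eq, nn_eq, nn_eq]
  exact norm_sub_le _ _

theorem nn_le (w : n → ℂ) (c : ℝ) (hc : 0 ≤ c) (h : nsq w ≤ c ^ 2) : nn w ≤ c :=
  Real.sqrt_le_iff.2 ⟨hc, h⟩

end

/-! ### pairs of real functions -/

/-- the Fourier transform of a pair -/
noncomputable def fc (f g : T d L → ℝ) (k : T d L) : ℂ := ft f k + Complex.I * ft g k

theorem ft_conj (f : T d L → ℝ) (k : T d L) : ft f (-k) = (starRingEnd ℂ) (ft f k) := by
  unfold ft
  rw [map_sum]
  refine Finset.sum_congr rfl fun x _ => ?_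
  rw [map_mul, Complex.conj_ofReal, e_neg_left]

theorem sum_fc (m : T d L → ℝ) (hm : ∀ k, m (-k) = m k) (f g : T d L → ℝ) :
    ∑ k, m k * ‖fc f g k‖ ^ 2 = NN d L * (q m f + q m g) := by
  have hN := NN_pos (d := d) (L := L)
  have h1 : ∀ k, m k * ‖fc f g k‖ ^ 2 = m k * ‖ft f k‖ ^ 2 + m k * ‖ft g k‖ ^ 2 +
      2 * (m k * (ft f k * (starRingEnd ℂ) (ft g k)).im) := by
    intro k
    unfold fc
    rw [Complex.sq_norm, Complex.sq_norm, Complex.sq_norm, Complex.normSq_apply,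
      Complex.normSq_apply, Complex.normSq_apply]
    simp
    ring
  have h2 : ∑ k, m k * (ft f k * (starRingEnd ℂ) (ft g k)).im = 0 := by
    have h3 := Equiv.sum_comp (Equiv.neg (T d L))
      (fun k => m k * (ft f k * (starRingEnd ℂ) (ft g k)).im)
    have h4 : ∀ k, m (Equiv.neg (T d L) k) * (ft f (Equiv.neg (T d L) k) *
        (starRingEnd ℂ) (ft g (Equiv.neg (T d L) k))).im =
        -(m k * (ft f k * (starRingEnd ℂ) (ft g k)).im) := by
      intro k
      rw [Equiv.neg_apply, hm, ft_conj, ft_conj, ← map_mul, Complex.conj_im]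
      ring
    simp only [h4] at h3
    rw [Finset.sum_neg_distrib] at h3
    linarith
  rw [Finset.sum_congr rfl fun k _ => h1 k, Finset.sum_add_distrib, Finset.sum_add_distrib,
    ← Finset.mul_sum, h2]
  unfold q
  field_simp
  ring

theorem q_par (m f g : T d L → ℝ) : q m (fun x => f x + g x) + q m (fun x => f x - g x) =
    2 * (q m f + q m g) := by
  have h1 : ∀ k, ft (fun x => f x - g x) k = ft f k - ft g k := by
    intro k
    unfold ft
    rw [← Finset.sum_sub_distrib]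
    exact Finset.sum_congr rfl fun x _ => by push_cast; ring
  unfold q
  simp only [ft_add, h1]
  rw [← mul_add, ← mul_add, ← Finset.sum_add_distrib, ← Finset.sum_add_distrib,
    mul_left_comm 2 (NN d L)⁻¹]
  refine congrArg (fun t => (NN d L)⁻¹ * t) ?_
  rw [Finset.mul_sum]
  refine Finset.sum_congr rfl fun k _ => ?_
  have := parallelogram_law_with_norm ℝ (ft f k) (ft g k)
  linear_combination m k * this

theorem q_smul (m f : T d L → ℝ) (s : ℝ) : q m (fun x => s * f x) = s ^ 2 * q m f := by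
  unfold q
  have h1 : ∀ k, ft (fun x => s * f x) k = s * ft f k := by
    intro k
    unfold ft
    rw [Finset.mul_sum]
    exact Finset.sum_congr rfl fun x _ => by push_cast; ring
  simp only [h1, norm_mul, Complex.norm_real, Real.norm_eq_abs, mul_pow, sq_abs]
  rw [mul_left_comm]
  refine congrArg (fun t => (NN d L)⁻¹ * t) ?_
  rw [Finset.mul_sum]
  refine Finset.sum_congr rfl fun k _ => ?_
  ring

theorem JJ_neg (E δ : ℝ) (k : T d L) : JJ E δ (-k) = JJ E δ k := by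
  unfold JJ
  rw [adj_neg]

/-- the operator norm from the form bound -/
theorem form_op (E δ κ : ℝ) (hδ : 0 < δ) (hκ : 0 < κ) (V : T d L → ℝ)
    (hf : ∀ w : T d L → ℝ, |∑ x, V x * w x ^ 2| ≤ κ * q (JJ E δ) w) (f : T d L → ℝ) :
    q (fun k => (JJ E δ k)⁻¹) (fun x => V x * f x) ≤ κ ^ 2 * q (JJ E δ) f := by
  have hJ : ∀ k : T d L, 0 < JJ E δ k := JJ_pos E δ hδ
  have hev : ∀ k : T d L, (JJ E δ (-k))⁻¹ = (JJ E δ k)⁻¹ := fun k => by rw [JJ_neg]
  obtain ⟨p, hp⟩ : ∃ p : T d L → ℝ, p = Op (fun k => (JJ E δ k)⁻¹) (fun x => V x * f x) :=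
    ⟨_, rfl⟩
  obtain ⟨Y, hY⟩ : ∃ Y, Y = q (fun k => (JJ E δ k)⁻¹) (fun x => V x * f x) := ⟨_, rfl⟩
  have h1 : ∑ x, V x * f x * p x = Y := by
    rw [hp, hY]
    exact sum_mul_Op _ _ hev
  have h2 : q (JJ E δ) p = Y := by
    rw [hp, q_Op _ _ _ hev, hY]
    congr 1
    funext k
    have := (hJ k).ne'
    field_simp
  obtain ⟨s, hs⟩ : ∃ s, s = κ⁻¹ := ⟨_, rfl⟩
  have hs0 : 0 < s := by rw [hs]; positivity
  have h3 : ∑ x, V x * f x * p x = 1 / (4 * s) * (∑ x, V x * (f x + s * p x) ^ 2 -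
      ∑ x, V x * (f x - s * p x) ^ 2) := by
    rw [← Finset.sum_sub_distrib, Finset.mul_sum]
    refine Finset.sum_congr rfl fun x _ => ?_
    field_simp
    ring
  have a1 := (abs_le.1 (hf (fun x => f x + s * p x))).2
  have a2 := (abs_le.1 (hf (fun x => f x - s * p x))).1
  have h4 := q_par (JJ E δ) f (fun x => s * p x)
  rw [q_smul, h2] at h4
  have h5 : Y ≤ 1 / (4 * s) * (κ * (2 * (q (JJ E δ) f + s ^ 2 * Y))) := by
    have h5' : Y = 1 / (4 * s) * (∑ x, V x * (f x + s * p x) ^ 2 -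
        ∑ x, V x * (f x - s * p x) ^ 2) := by rw [← h3, h1]
    refine h5'.le.trans ?_
    apply mul_le_mul_of_nonneg_left _ (by positivity)
    rw [← h4, mul_add]
    linarith
  have h6 : 1 / (4 * s) * (κ * (2 * (q (JJ E δ) f + s ^ 2 * Y))) =
      κ ^ 2 / 2 * q (JJ E δ) f + Y / 2 := by
    rw [hs]
    field_simp
    ring
  rw [h6] at h5
  rw [← hY]
  linarith

/-- the action of the matrix -/
theorem XX_ft (E δ θ : ℝ) (hδ : 0 < δ) (V f : T d L → ℝ) (k : T d L) :
    (XX (D0 E δ) (AA E δ θ) V *ᵥ fun k => (Real.sqrt (JJ E δ k) : ℂ) * ft f k) k =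
      (((Real.sqrt (JJ E δ k))⁻¹ : ℝ) : ℂ) * (((adj k - E : ℝ) : ℂ) * ft f k +
        ft (fun x => V x * f x) k - ft (fun x => Op (fun Q => 1 - hi θ Q) V x * f x) k) := by
  set s : T d L → ℝ := fun k => Real.sqrt (JJ E δ k) with hs
  have hJ : ∀ k : T d L, 0 < JJ E δ k := fun k => JJ_pos E δ hδ k
  have hsp : ∀ k, 0 < s k := fun k => Real.sqrt_pos.2 (hJ k)
  have hss : ∀ k, s k ^ 2 = JJ E δ k := fun k => Real.sq_sqrt (hJ k).le
  have hsc : ∀ k, (s k : ℂ) ≠ 0 := fun k => by exact_mod_cast (hsp k).ne'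
  set U : T d L → ℝ := Op (fun Q => 1 - hi θ Q) V with hU
  have hUft : ∀ k, ft U k = ((1 - hi θ k : ℝ) : ℂ) * ft V k :=
    fun k => ft_Op _ _ (fun k => by rw [hi_neg]) k
  set φ : T d L → ℂ := fun k => (s k : ℂ) * ft f k with hφ
  change (XX (D0 E δ) (AA E δ θ) V *ᵥ φ) k = (((s k)⁻¹ : ℝ) : ℂ) *
    (((adj k - E : ℝ) : ℂ) * ft f k + ft (fun x => V x * f x) k - ft (fun x => U x * f x) k)
  unfold XX
  rw [Matrix.add_mulVec, Pi.add_apply]
  have h1 : (D0 E δ *ᵥ φ) k = (((s k)⁻¹ : ℝ) : ℂ) * (((adj k - E : ℝ) : ℂ) * ft f k) := by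
    unfold D0
    rw [Matrix.mulVec_diagonal, hφ]
    have : (((adj k - E) / JJ E δ k : ℝ) : ℂ) * (s k : ℂ) = (((s k)⁻¹ * (adj k - E) : ℝ) : ℂ) := by
      rw [← Complex.ofReal_mul]
      congr 1
      rw [← hss k]
      have := (hsp k).ne'
      field_simp
    simp only
    rw [← mul_assoc, this]
    push_cast
    ring
  have h2 : ((∑ y, (V y : ℂ) • AA E δ θ y) *ᵥ φ) k =
      (((s k)⁻¹ : ℝ) : ℂ) * ((NN d L : ℂ)⁻¹ * ∑ p, ((hi θ (k - p) : ℝ) : ℂ) * ft V (k - p) *
        ft f p) := by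
    have h3 : ∀ p, (∑ y, (V y : ℂ) • AA E δ θ y) k p * φ p =
        (((s k)⁻¹ : ℝ) : ℂ) * ((NN d L : ℂ)⁻¹ * (((hi θ (k - p) : ℝ) : ℂ) * ft V (k - p) *
          ft f p)) := by
      intro p
      have h4 : (∑ y, (V y : ℂ) • AA E δ θ y) k p =
          (((NN d L)⁻¹ * hi θ (k - p) * ((s k)⁻¹ * (s p)⁻¹) : ℝ) : ℂ) * ft V (k - p) := by
        rw [Matrix.sum_apply]
        unfold ft
        rw [Finset.mul_sum]
        refine Finset.sum_congr rfl fun y _ => ?_
        rw [Matrix.smul_apply, smul_eq_mul]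
        unfold AA
        rw [Matrix.of_apply]
        ring
      rw [h4, hφ]
      push_cast
      have := hsc p
      field_simp
    change ∑ p, (∑ y, (V y : ℂ) • AA E δ θ y) k p * φ p = _
    rw [Finset.sum_congr rfl fun p _ => h3 p, ← Finset.mul_sum, ← Finset.mul_sum]
  rw [h1, h2, Pool.Agent.W363.BK.conv V f k, Pool.Agent.W363.BK.conv U f k, ← mul_add]
  congr 1
  have h5 : ∑ p, ft U (k - p) * ft f p = ∑ p, ft V (k - p) * ft f p -
      ∑ p, ((hi θ (k - p) : ℝ) : ℂ) * ft V (k - p) * ft f p := by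
    rw [← Finset.sum_sub_distrib]
    refine Finset.sum_congr rfl fun p _ => ?_
    rw [hUft]
    push_cast
    ring
  rw [h5]
  ring

/-- the data of an approximate Green function on the torus -/
structure Sol2 (E t : ℝ) (V vr vi rr ri : T d L → ℝ) : Prop where
  eqr : ∀ x, Op (fun k => adj k - E) vr x = -(V x * vr x) +
    ((if x = 0 then 1 else 0) - t * vi x + rr x)
  eqi : ∀ x, Op (fun k => adj k - E) vi x = -(V x * vi x) + (t * vr x + ri x)

/-- the mass -/
noncomputable def Bq (f g : T d L → ℝ) : ℝ := ∑ x, f x ^ 2 + ∑ x, g x ^ 2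

theorem Bq_nonneg (f g : T d L → ℝ) : 0 ≤ Bq f g :=
  add_nonneg (Finset.sum_nonneg fun _ _ => sq_nonneg _) (Finset.sum_nonneg fun _ _ => sq_nonneg _)

theorem sum_fc_one (f g : T d L → ℝ) : ∑ k, ‖fc f g k‖ ^ 2 = NN d L * Bq f g := by
  have h := sum_fc (fun _ => 1) (fun _ => rfl) f g
  simp only [one_mul] at h
  rw [h, Bq, sum_sq, sum_sq]

/-- the Ward identity -/
theorem ward2 {E t : ℝ} {V vr vi rr ri : T d L → ℝ} (h : Sol2 E t V vr vi rr ri) :
    |t * Bq vr vi - vi 0| ≤ Real.sqrt (Bq vr vi) * Real.sqrt (Bq rr ri) := by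
  have hev : ∀ k : T d L, adj (-k) - E = adj k - E := fun k => by rw [adj_neg]
  have h1 : ∑ x, vi x * Op (fun k => adj k - E) vr x =
      ∑ x, vr x * Op (fun k => adj k - E) vi x := by
    have a1 := sum_Op (fun _ => 1) (fun k => adj k - E) (fun x => vr x + vi x) (fun _ => rfl) hev
    have a2 := sum_Op (fun k => adj k - E) (fun _ => 1) (fun x => vr x + vi x) hev (fun _ => rfl)
    rw [planch, planch]
    congr 1
    refine Finset.sum_congr rfl fun k _ => ?_
    rw [ft_Op _ _ hev, ft_Op _ _ hev, map_mul, map_mul, Complex.conj_ofReal]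
    simp
    ring
  have h2 : ∀ x, vi x * Op (fun k => adj k - E) vr x - vr x * Op (fun k => adj k - E) vi x =
      (if x = 0 then vi x else 0) - t * (vr x ^ 2 + vi x ^ 2) + (vi x * rr x - vr x * ri x) := by
    intro x
    rw [h.eqr, h.eqi]
    split_ifs <;> ring
  have h3 : 0 = vi 0 - t * Bq vr vi + ∑ x, (vi x * rr x - vr x * ri x) := by
    have h4 := Finset.sum_congr rfl fun x (_ : x ∈ Finset.univ) => h2 x
    rw [Finset.sum_sub_distrib, h1, sub_self, Finset.sum_add_distrib, Finset.sum_sub_distrib,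
      Finset.sum_ite_eq' Finset.univ (0 : T d L) vi, if_pos (Finset.mem_univ _),
      ← Finset.mul_sum, Finset.sum_add_distrib] at h4
    exact h4
  have h5 : t * Bq vr vi - vi 0 = ∑ x, (vi x * rr x - vr x * ri x) := by linarith
  rw [h5]
  have h6 : (∑ x, (vi x * rr x - vr x * ri x)) ^ 2 ≤ Bq vr vi * Bq rr ri := by
    have h7 : ∀ x, (vi x * rr x - vr x * ri x) ≤
        Real.sqrt (vr x ^ 2 + vi x ^ 2) * Real.sqrt (rr x ^ 2 + ri x ^ 2) := by
      intro x
      rw [← Real.sqrt_mul (by positivity)]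
      apply Real.le_sqrt_of_sq_le
      nlinarith [sq_nonneg (vi x * ri x + vr x * rr x)]
    have h7' : ∀ x, |vi x * rr x - vr x * ri x| ≤
        Real.sqrt (vr x ^ 2 + vi x ^ 2) * Real.sqrt (rr x ^ 2 + ri x ^ 2) := by
      intro x
      rw [← Real.sqrt_mul (by positivity)]
      apply Real.le_sqrt_of_sq_le
      rw [sq_abs]
      nlinarith [sq_nonneg (vi x * ri x + vr x * rr x)]
    have h8 : |∑ x, (vi x * rr x - vr x * ri x)| ≤
        ∑ x, Real.sqrt (vr x ^ 2 + vi x ^ 2) * Real.sqrt (rr x ^ 2 + ri x ^ 2) :=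
      (Finset.abs_sum_le_sum_abs _ _).trans (Finset.sum_le_sum fun x _ => h7' x)
    have h9 := Finset.sum_mul_sq_le_sq_mul_sq Finset.univ
      (fun x => Real.sqrt (vr x ^ 2 + vi x ^ 2)) (fun x => Real.sqrt (rr x ^ 2 + ri x ^ 2))
    rw [← sq_abs]
    refine (pow_le_pow_left₀ (abs_nonneg _) h8 2).trans (h9.trans (le_of_eq ?_))
    unfold Bq
    rw [← Finset.sum_add_distrib, ← Finset.sum_add_distrib]
    congr 1 <;> refine Finset.sum_congr rfl fun x _ => Real.sq_sqrt (by positivity)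
  rw [← Real.sqrt_mul (Bq_nonneg _ _)]
  apply Real.le_sqrt_of_sq_le
  rw [sq_abs]
  exact h6

end Pool.Agent.TH794.LL2
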