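import Pool.Agent.TH794.LL2.Tor
import Pool.Agent.W788.BK.Lat
import Pool.Agent.W788.LD.Spec

/-! From the torus to the lattice. -/

set_option autoImplicit false
set_option linter.unusedSectionVars false

open scoped BigOperators
open MeasureTheory

namespace Pool.Agent.TH794.LL2

open Pool.Agent.W788.BK
open Pool.Agent.W788
open Pool.Agent.W788.MFP.Four Pool.Agent.W788.MFP.Dos Pool.Agent.W788.MFP.Form
open Pool.Agent.W788.MFP.Ball Pool.Agent.W788.MFP.Crit Pool.Agent.W788.MFP.Cut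
open Pool.Agent.W788.MFP.Site Pool.Agent.W788.MF2.Dom Pool.Agent.W788.MF2.FinG
open Pool.Agent.W788.MF2.FormG Pool.Agent.W788.LD.Main Pool.Agent.H4R2
open Pool.Agent.H4R2.LO (Zd)
open Pool.Agent.H695R3.AN (lf lf_inj lf_add lf_sub)

variable {d L : ℕ} [NeZero L]

/-- the Green function of `A + σ ξ` at the site `a` and the energy `E + i t` -/
structure LG (d : ℕ) (σ : ℝ) (ξ : Zd d → ℝ) (a : Zd d) (E t : ℝ) (ur ui : Zd d → ℝ) : Prop where
  sr : Summable fun x => ur x ^ 2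
  si : Summable fun x => ui x ^ 2
  er : ∀ x, ∑ i, (ur (x + Pi.single i 1) + ur (x - Pi.single i 1)) + σ * ξ x * ur x =
      E * ur x + ((if x = a then 1 else 0) - t * ui x)
  ei : ∀ x, ∑ i, (ui (x + Pi.single i 1) + ui (x - Pi.single i 1)) + σ * ξ x * ui x =
      E * ui x + t * ur x

/-- the Ward identity on the lattice -/
theorem LG.ward {σ : ℝ} {ξ : Zd d → ℝ} {a : Zd d} {E t : ℝ} {ur ui : Zd d → ℝ}
    (h : LG d σ ξ a E t ur ui) : t * (∑' x, ur x ^ 2 + ∑' x, ui x ^ 2) = ui a := by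
  have hc : ∀ u : Zd d → ℝ, (Summable fun x => u x ^ 2) →
      Summable fun x => ‖((u x : ℝ) : ℂ)‖ ^ 2 := by
    intro u hu
    refine hu.congr fun x => ?_
    rw [Complex.norm_real, Real.norm_eq_abs, sq_abs]
  obtain ⟨s1, s2, e1⟩ := Pool.Agent.W788.LD.Spec.symm (fun x => ((ui x : ℝ) : ℂ))
    (fun x => ((ur x : ℝ) : ℂ)) (hc ui h.si) (hc ur h.sr)
  have hS : ∀ (u : Zd d → ℝ) x, Pool.Agent.W788.LD.Spec.S (fun x => ((u x : ℝ) : ℂ)) x =
      ((∑ i, (u (x + Pi.single i 1) + u (x - Pi.single i 1)) : ℝ) : ℂ) := by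
    intro u x
    unfold Pool.Agent.W788.LD.Spec.S
    push_cast
    rfl
  have e2 : ∀ x, (starRingEnd ℂ) ((ui x : ℝ) : ℂ) *
      Pool.Agent.W788.LD.Spec.S (fun x => ((ur x : ℝ) : ℂ)) x -
      (starRingEnd ℂ) (Pool.Agent.W788.LD.Spec.S (fun x => ((ui x : ℝ) : ℂ)) x) *
        ((ur x : ℝ) : ℂ) =
      (((if x = a then ui x else 0) - t * (ur x ^ 2 + ui x ^ 2) : ℝ) : ℂ) := by
    intro x
    rw [hS, hS, Complex.conj_ofReal, Complex.conj_ofReal, ← Complex.ofReal_mul,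
      ← Complex.ofReal_mul, ← Complex.ofReal_sub]
    congr 1
    have a1 := h.er x
    have a2 := h.ei x
    have a3 : (if x = a then ui x else 0) = ui x * (if x = a then 1 else 0) := by
      split_ifs <;> simp
    rw [a3]
    linear_combination (ui x) * a1 - (ur x) * a2
  have e3 : ∑' x, ((starRingEnd ℂ) ((ui x : ℝ) : ℂ) *
      Pool.Agent.W788.LD.Spec.S (fun x => ((ur x : ℝ) : ℂ)) x -
      (starRingEnd ℂ) (Pool.Agent.W788.LD.Spec.S (fun x => ((ui x : ℝ) : ℂ)) x) *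
        ((ur x : ℝ) : ℂ)) = 0 := by
    rw [s1.tsum_sub s2, e1, sub_self]
  rw [tsum_congr (L := .unconditional _) e2, ← Complex.ofReal_tsum] at e3
  have e4 : ∑' x, ((if x = a then ui x else 0) - t * (ur x ^ 2 + ui x ^ 2)) = 0 := by
    exact_mod_cast e3
  have s3 : Summable fun x => (if x = a then ui x else 0 : ℝ) :=
    summable_of_finite_support ((Set.finite_singleton a).subset fun x hx => by
      by_contra hne
      exact hx (if_neg hne))
  rw [s3.tsum_sub ((h.sr.add h.si).mul_left t), tsum_ite_eq, tsum_mul_left,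
    h.sr.tsum_add h.si] at e4
  linarith

/-- the norm of the resolvent -/
theorem LG.norm {σ : ℝ} {ξ : Zd d → ℝ} {a : Zd d} {E t : ℝ} {ur ui : Zd d → ℝ}
    (h : LG d σ ξ a E t ur ui) (ht : 0 < t) :
    ∑' x, ur x ^ 2 + ∑' x, ui x ^ 2 ≤ (t⁻¹) ^ 2 := by
  have h1 := h.ward
  obtain ⟨T, hT⟩ : ∃ T, T = ∑' x, ur x ^ 2 + ∑' x, ui x ^ 2 := ⟨_, rfl⟩
  rw [← hT] at h1 ⊢
  have h2 : ui a ^ 2 ≤ T := by
    have e1 : ui a ^ 2 ≤ ∑' x, ui x ^ 2 := h.si.le_tsum a fun x _ => sq_nonneg _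
    have e2 : 0 ≤ ∑' x, ur x ^ 2 := tsum_nonneg fun x => sq_nonneg _
    linarith
  have hT0 : 0 ≤ T := le_trans (sq_nonneg _) h2
  rw [← h1] at h2
  rcases hT0.eq_or_lt with h0 | h0
  · rw [← h0]
    positivity
  · have h3 : t ^ 2 * T ≤ 1 := by
      have : t ^ 2 * T * T ≤ 1 * T := by nlinarith
      exact le_of_mul_le_mul_right this h0
    rw [inv_pow, ← one_div, le_div_iff₀ (by positivity)]
    linarith

/-- translation -/
theorem LG.shift {σ : ℝ} {ξ : Zd d → ℝ} {a : Zd d} {E t : ℝ} {ur ui : Zd d → ℝ}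
    (h : LG d σ ξ a E t ur ui) :
    LG d σ (fun x => ξ (x + a)) 0 E t (fun x => ur (x + a)) (fun x => ui (x + a)) where
  sr := sum_shiftR ur a h.sr
  si := sum_shiftR ui a h.si
  er x := by
    have h1 := h.er (x + a)
    have h2 : ∀ i : Fin d, x + Pi.single i 1 + a = x + a + Pi.single i 1 := fun i => by abel
    have h3 : ∀ i : Fin d, x - Pi.single i 1 + a = x + a - Pi.single i 1 := fun i => by abel
    simp only [h2, h3]
    have h4 : (x + a = a) ↔ (x = 0) := by simp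
    simp only [h4] at h1
    exact h1
  ei x := by
    have h1 := h.ei (x + a)
    have h2 : ∀ i : Fin d, x + Pi.single i 1 + a = x + a + Pi.single i 1 := fun i => by abel
    have h3 : ∀ i : Fin d, x - Pi.single i 1 + a = x + a - Pi.single i 1 := fun i => by abel
    simp only [h2, h3]
    exact h1

/-- cutting off at the scale `ℓ` -/
theorem cut2 (σ E ℓ : ℝ) (hℓ0 : 0 < ℓ) (hL : 4 * ℓ + 4 < L) (ω u f : Zd d → ℝ)
    (hu : Summable fun x => u x ^ 2)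
    (heq : ∀ x, ∑ i, (u (x + Pi.single i 1) + u (x - Pi.single i 1)) + σ * ω x * u x =
      E * u x + f x) :
    ∃ r : T d L → ℝ,
      (∀ x, Op (fun k => adj k - E) (fun y : T d L => φ ℓ (lf y) * u (lf y)) x =
        -(σ * ω (lf x) * (φ ℓ (lf x) * u (lf x))) + (r x + φ ℓ (lf x) * f (lf x))) ∧
      ∑ x : T d L, (φ ℓ (lf x) * u (lf x)) ^ 2 ≤ ∑' x, u x ^ 2 ∧
      ∑ x, r x ^ 2 ≤ (2 * d / ℓ) ^ 2 * ∑' x, u x ^ 2 := by
  obtain ⟨r, hr⟩ : ∃ r : T d L → ℝ, r = fun y => ∑ i : Fin d,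
    ((φ ℓ (lf (y + Pi.single i 1)) * u (lf (y + Pi.single i 1)) -
        φ ℓ (lf y) * u (lf y + Pi.single i 1)) +
     (φ ℓ (lf (y - Pi.single i 1)) * u (lf (y - Pi.single i 1)) -
        φ ℓ (lf y) * u (lf y - Pi.single i 1))) := ⟨_, rfl⟩
  have hvr : ∀ x, Op (fun k => adj k - E) (fun y : T d L => φ ℓ (lf y) * u (lf y)) x =
      -(σ * ω (lf x) * (φ ℓ (lf x) * u (lf x))) +
      (r x + φ ℓ (lf x) * f (lf x)) := by
    intro x
    rw [Op_adj]
    simp only [hr]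
    have h1 := heq (lf x)
    have h2 : ∑ i : Fin d,
        ((φ ℓ (lf (x + Pi.single i 1)) * u (lf (x + Pi.single i 1)) -
            φ ℓ (lf x) * u (lf x + Pi.single i 1)) +
         (φ ℓ (lf (x - Pi.single i 1)) * u (lf (x - Pi.single i 1)) -
            φ ℓ (lf x) * u (lf x - Pi.single i 1))) =
        ∑ i : Fin d, (φ ℓ (lf (x + Pi.single i 1)) * u (lf (x + Pi.single i 1)) +
          φ ℓ (lf (x - Pi.single i 1)) * u (lf (x - Pi.single i 1))) -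
        φ ℓ (lf x) * ∑ i : Fin d, (u (lf x + Pi.single i 1) + u (lf x - Pi.single i 1)) := by
      rw [Finset.mul_sum, ← Finset.sum_sub_distrib]
      exact Finset.sum_congr rfl fun i _ => by ring
    rw [h2]
    have h3 : φ ℓ (lf x) * ∑ i : Fin d, (u (lf x + Pi.single i 1) + u (lf x - Pi.single i 1)) =
        φ ℓ (lf x) * (E * u (lf x) + f (lf x) - σ * ω (lf x) * u (lf x)) := by
      rw [← h1]
      ring
    rw [h3]
    ring
  have hS0 : 0 ≤ ∑' x, u x ^ 2 := tsum_nonneg fun x => sq_nonneg _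
  have h2 : ∑ x : T d L, (φ ℓ (lf x) * u (lf x)) ^ 2 ≤ ∑' x, u x ^ 2 := by
    refine le_trans (Finset.sum_le_sum fun x _ => ?_)
      (sum_lf (L := L) (fun x => u x ^ 2) (fun x => sq_nonneg _) hu)
    rw [mul_pow]
    apply mul_le_of_le_one_left (sq_nonneg _)
    exact pow_le_one₀ (φ_nonneg _ _) (φ_le_one _ _)
  have hplus : ∀ i : Fin d, ∑ y : T d L, u (lf y + Pi.single i 1) ^ 2 ≤ ∑' x, u x ^ 2 := by
    intro i
    have h5 : Summable (fun x : Zd d => u (x + Pi.single i 1) ^ 2) :=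
      (Equiv.addRight (Pi.single i 1 : Zd d)).summable_iff.2 hu
    refine (sum_lf (L := L) (fun x => u (x + Pi.single i 1) ^ 2) (fun x => sq_nonneg _) h5).trans ?_
    exact le_of_eq ((Equiv.addRight (Pi.single i 1 : Zd d)).tsum_eq fun x => u x ^ 2)
  have hminus : ∀ i : Fin d, ∑ y : T d L, u (lf y - Pi.single i 1) ^ 2 ≤ ∑' x, u x ^ 2 := by
    intro i
    have h5 : Summable (fun x : Zd d => u (x - Pi.single i 1) ^ 2) :=
      (Equiv.subRight (Pi.single i 1 : Zd d)).summable_iff.2 hu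
    refine (sum_lf (L := L) (fun x => u (x - Pi.single i 1) ^ 2) (fun x => sq_nonneg _) h5).trans ?_
    exact le_of_eq ((Equiv.subRight (Pi.single i 1 : Zd d)).tsum_eq fun x => u x ^ 2)
  have h3 : ∑ x, r x ^ 2 ≤ (2 * d / ℓ) ^ 2 * ∑' x, u x ^ 2 := by
    have h4 : ∀ y, r y ^ 2 ≤ d * ∑ i : Fin d, (2 * (1 / ℓ) ^ 2 * (u (lf y + Pi.single i 1) ^ 2 +
        u (lf y - Pi.single i 1) ^ 2)) := by
      intro y
      rw [hr]
      simp only
      refine sq_sum_le_card_mul_sum_sq.trans ?_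
      rw [Finset.card_univ, Fintype.card_fin]
      apply mul_le_mul_of_nonneg_left _ (by positivity)
      refine Finset.sum_le_sum fun i _ => ?_
      obtain ⟨s1, s2⟩ := MFP.Cut.step ℓ hℓ0 hL u y i
      obtain ⟨A, hA⟩ : ∃ A, A = φ ℓ (lf (y + Pi.single i 1)) * u (lf (y + Pi.single i 1)) -
        φ ℓ (lf y) * u (lf y + Pi.single i 1) := ⟨_, rfl⟩
      obtain ⟨B, hB⟩ : ∃ B, B = φ ℓ (lf (y - Pi.single i 1)) * u (lf (y - Pi.single i 1)) -
        φ ℓ (lf y) * u (lf y - Pi.single i 1) := ⟨_, rfl⟩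
      rw [← hA] at s1
      rw [← hB] at s2
      rw [← hA, ← hB]
      have e1 : A ^ 2 ≤ (1 / ℓ) ^ 2 * u (lf y + Pi.single i 1) ^ 2 := by
        rw [← sq_abs A, ← sq_abs (u (lf y + Pi.single i 1)), ← mul_pow]
        exact pow_le_pow_left₀ (abs_nonneg _) s1 2
      have e2 : B ^ 2 ≤ (1 / ℓ) ^ 2 * u (lf y - Pi.single i 1) ^ 2 := by
        rw [← sq_abs B, ← sq_abs (u (lf y - Pi.single i 1)), ← mul_pow]
        exact pow_le_pow_left₀ (abs_nonneg _) s2 2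
      have e3 : (A + B) ^ 2 ≤ 2 * (A ^ 2 + B ^ 2) := add_sq_le
      linarith
    refine (Finset.sum_le_sum fun y _ => h4 y).trans ?_
    rw [← Finset.mul_sum, Finset.sum_comm]
    have h5 : ∀ i : Fin d, ∑ y : T d L, (2 * (1 / ℓ) ^ 2 * (u (lf y + Pi.single i 1) ^ 2 +
        u (lf y - Pi.single i 1) ^ 2)) ≤ 4 * (1 / ℓ) ^ 2 * ∑' x, u x ^ 2 := by
      intro i
      rw [← Finset.mul_sum, Finset.sum_add_distrib]
      have h6 := hplus i
      have h7 := hminus i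
      calc 2 * (1 / ℓ) ^ 2 * (∑ y : T d L, u (lf y + Pi.single i 1) ^ 2 +
            ∑ y : T d L, u (lf y - Pi.single i 1) ^ 2) ≤
          2 * (1 / ℓ) ^ 2 * (∑' x, u x ^ 2 + ∑' x, u x ^ 2) := by gcongr
        _ = _ := by ring
    calc (d : ℝ) * ∑ i : Fin d, ∑ y : T d L, (2 * (1 / ℓ) ^ 2 * (u (lf y + Pi.single i 1) ^ 2 +
          u (lf y - Pi.single i 1) ^ 2)) ≤
        d * ∑ i : Fin d, (4 * (1 / ℓ) ^ 2 * ∑' x, u x ^ 2) := by
          apply mul_le_mul_of_nonneg_left _ (by positivity)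
          exact Finset.sum_le_sum fun i _ => h5 i
      _ = _ := by
        rw [Finset.sum_const, Finset.card_univ, Fintype.card_fin, nsmul_eq_mul]
        ring
  exact ⟨r, hvr, h2, h3⟩

/-- the Green function of the lattice as an approximate Green function of the torus -/
theorem LG.tor {σ : ℝ} {ξ : Zd d → ℝ} {E t : ℝ} {ur ui : Zd d → ℝ} (ℓ : ℝ) (hℓ0 : 0 < ℓ)
    (hL : 4 * ℓ + 4 < L) (ht : 0 < t) (h : LG d σ ξ 0 E t ur ui) :
    ∃ vr vi rr ri : T d L → ℝ, vi 0 = ui 0 ∧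
      Sol2 E t (fun y => σ * ξ (lf y)) vr vi rr ri ∧
      Real.sqrt (Bq vr vi) ≤ t⁻¹ ∧ Real.sqrt (Bq rr ri) ≤ 2 * d / ℓ * t⁻¹ := by
  obtain ⟨rr, hr1, hr2, hr3⟩ := cut2 (L := L) σ E ℓ hℓ0 hL ξ ur _ h.sr h.er
  obtain ⟨ri, hi1, hi2, hi3⟩ := cut2 (L := L) σ E ℓ hℓ0 hL ξ ui _ h.si h.ei
  have hn := h.norm ht
  have hz : z L (0 : Zd d) = (0 : T d L) := by
    funext i
    simp [z]
  have h7 : lf (0 : T d L) = 0 := by
    rw [← hz]
    apply lf_z 0
    rw [norm_zero]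
    linarith
  have h8 : φ ℓ (0 : Zd d) = 1 := φ_one ℓ hℓ0 0 (by rw [norm_zero]; exact hℓ0.le)
  refine ⟨fun y => φ ℓ (lf y) * ur (lf y), fun y => φ ℓ (lf y) * ui (lf y), rr, ri, ?_, ?_, ?_,
    ?_⟩
  · simp only
    rw [h7, h8, one_mul]
  · refine ⟨fun x => ?_, fun x => ?_⟩
    · rw [hr1 x]
      have h9 : (if lf x = 0 then (1 : ℝ) else 0) = if x = 0 then 1 else 0 := by
        by_cases hx : x = 0
        · rw [if_pos hx, if_pos (by rw [hx]; exact h7)]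
        · rw [if_neg hx, if_neg]
          intro hl
          apply hx
          apply lf_inj
          rw [hl, h7]
      have h10 : φ ℓ (lf x) * (if x = 0 then (1 : ℝ) else 0) = if x = 0 then 1 else 0 := by
        by_cases hx : x = 0
        · rw [if_pos hx, hx, h7, h8, one_mul]
        · rw [if_neg hx, mul_zero]
      rw [h9, mul_sub, h10]
      ring
    · rw [hi1 x]
      ring
  · rw [Real.sqrt_le_left (inv_nonneg.2 ht.le)]
    refine le_trans ?_ hn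
    exact add_le_add hr2 hi2
  · rw [Real.sqrt_le_left (by positivity)]
    calc Bq rr ri ≤ (2 * d / ℓ) ^ 2 * ∑' x, ur x ^ 2 + (2 * d / ℓ) ^ 2 * ∑' x, ui x ^ 2 :=
          add_le_add hr3 hi3
      _ = (2 * d / ℓ) ^ 2 * (∑' x, ur x ^ 2 + ∑' x, ui x ^ 2) := by ring
      _ ≤ (2 * d / ℓ) ^ 2 * (t⁻¹) ^ 2 := by gcongr
      _ = _ := by ring

/-- the free case on the torus -/
theorem free_tor {E t : ℝ} (ht : 0 < t) {V vr vi rr ri : T d L → ℝ} (hV : ∀ x, V x = 0)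
    (h : Sol2 E t V vr vi rr ri) : |vi 0 - G0 d L E t| ≤ Real.sqrt (Bq rr ri) * t⁻¹ := by
  have hN := NN_pos (d := d) (L := L)
  have hNc : ((NN d L : ℝ) : ℂ) ≠ 0 := by exact_mod_cast hN.ne'
  have hfc0 : ∀ k : T d L, fc (fun x => V x * vr x) (fun x => V x * vi x) k = 0 := by
    intro k
    unfold fc ft
    simp [hV]
  have h2 : ∀ k : T d L, t ≤ ‖((adj k : ℝ) : ℂ) - ((E : ℂ) + ((t : ℝ) : ℂ) * Complex.I)‖ := by
    intro k
    have h3 := Complex.abs_im_le_norm (((adj k : ℝ) : ℂ) - ((E : ℂ) + ((t : ℝ) : ℂ) * Complex.I))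
    have h4 : (((adj k : ℝ) : ℂ) - ((E : ℂ) + ((t : ℝ) : ℂ) * Complex.I)).im = -t := by simp
    rw [h4, abs_neg, abs_of_pos ht] at h3
    exact h3
  have hz : ∀ k : T d L, ((adj k : ℝ) : ℂ) - ((E : ℂ) + ((t : ℝ) : ℂ) * Complex.I) ≠ 0 := by
    intro k h0
    have := h2 k
    rw [h0, norm_zero] at this
    linarith
  have hk : ∀ k : T d L, fc vr vi k =
      (((adj k : ℝ) : ℂ) - ((E : ℂ) + ((t : ℝ) : ℂ) * Complex.I))⁻¹ +
      (((adj k : ℝ) : ℂ) - ((E : ℂ) + ((t : ℝ) : ℂ) * Complex.I))⁻¹ * fc rr ri k := by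
    intro k
    have e1 := fc_eq h k
    rw [hfc0, add_zero] at e1
    have e2 : (((adj k : ℝ) : ℂ) - ((E : ℂ) + ((t : ℝ) : ℂ) * Complex.I)) * fc vr vi k =
        1 + fc rr ri k := by
      push_cast at e1
      linear_combination e1
    have e3 : fc vr vi k = (((adj k : ℝ) : ℂ) - ((E : ℂ) + ((t : ℝ) : ℂ) * Complex.I))⁻¹ *
        ((((adj k : ℝ) : ℂ) - ((E : ℂ) + ((t : ℝ) : ℂ) * Complex.I)) * fc vr vi k) := by
      rw [← mul_assoc, inv_mul_cancel₀ (hz k), one_mul]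
    rw [e3, e2]
    ring
  have h0 : ∑ k, fc vr vi k = (NN d L : ℂ) * ((vr 0 : ℂ) + Complex.I * (vi 0 : ℂ)) := by
    unfold fc
    rw [Finset.sum_add_distrib, ← Finset.mul_sum, Pool.Agent.W363.BK.at_zero,
      Pool.Agent.W363.BK.at_zero]
    ring
  have h1 : ((vr 0 : ℂ) + Complex.I * (vi 0 : ℂ)) -
      gL d L ((E : ℂ) + ((t : ℝ) : ℂ) * Complex.I) = ((NN d L : ℝ) : ℂ)⁻¹ *
      ∑ k : T d L, (((adj k : ℝ) : ℂ) - ((E : ℂ) + ((t : ℝ) : ℂ) * Complex.I))⁻¹ *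
        fc rr ri k := by
    have e1 : ((vr 0 : ℂ) + Complex.I * (vi 0 : ℂ)) = ((NN d L : ℝ) : ℂ)⁻¹ *
        ∑ k, fc vr vi k := by
      rw [h0, ← mul_assoc, inv_mul_cancel₀ hNc, one_mul]
    rw [e1]
    unfold gL
    rw [← mul_sub, ← Finset.sum_sub_distrib]
    refine congrArg (fun s => ((NN d L : ℝ) : ℂ)⁻¹ * s) (Finset.sum_congr rfl fun k _ => ?_)
    rw [hk k]
    ring
  have h3 : |vi 0 - G0 d L E t| ≤ ‖((vr 0 : ℂ) + Complex.I * (vi 0 : ℂ)) -
      gL d L ((E : ℂ) + ((t : ℝ) : ℂ) * Complex.I)‖ := by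
    have e1 : vi 0 = ((vr 0 : ℂ) + Complex.I * (vi 0 : ℂ)).im := by simp
    unfold G0
    rw [e1, ← Complex.sub_im]
    rw [← e1]
    exact Complex.abs_im_le_norm _
  refine h3.trans ?_
  rw [h1, norm_mul, norm_inv, Complex.norm_real, Real.norm_eq_abs, abs_of_pos hN,
    inv_mul_le_iff₀ hN]
  have h4 : ∀ k : T d L, ‖(((adj k : ℝ) : ℂ) - ((E : ℂ) + ((t : ℝ) : ℂ) * Complex.I))⁻¹ *
        fc rr ri k‖ ≤ t⁻¹ * ‖fc rr ri k‖ := by
    intro k
    rw [norm_mul, norm_inv]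
    exact mul_le_mul_of_nonneg_right (inv_anti₀ ht (h2 k)) (norm_nonneg _)
  refine (norm_sum_le _ _).trans ((Finset.sum_le_sum fun k _ => h4 k).trans ?_)
  rw [← Finset.mul_sum]
  have h5 : ∑ k, ‖fc rr ri k‖ ≤ NN d L * Real.sqrt (Bq rr ri) := by
    refine (abs_le_of_sq_le_sq' ?_ (by positivity)).2
    calc (∑ k, ‖fc rr ri k‖) ^ 2 ≤ (Finset.univ : Finset (T d L)).card * ∑ k, ‖fc rr ri k‖ ^ 2 :=
          sq_sum_le_card_mul_sum_sq
      _ = (NN d L * Real.sqrt (Bq rr ri)) ^ 2 := by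
        rw [Finset.card_univ, Pool.Agent.W788.MFP.Four.card_T, sum_fc_one, mul_pow,
          Real.sq_sqrt (Bq_nonneg _ _)]
        ring
  calc t⁻¹ * ∑ k, ‖fc rr ri k‖ ≤ t⁻¹ * (NN d L * Real.sqrt (Bq rr ri)) := by gcongr
    _ = _ := by ring

end Pool.Agent.TH794.LL2
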