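import Pool.Agent.W788.BK.Prob

/-! The numerical conditions for the local law. -/

set_option autoImplicit false

open Filter

namespace Pool.Agent.TH794.LL2

open Pool.Agent.W788.BK.Num

/-- the numerical conditions -/
structure NumOK2 (d : ℕ) (b c A1 CQ K K6 y : ℝ) : Prop where
  y1 : 1 ≤ y
  n1 : 128 * Real.exp (-(3 / 20) * y) ≤ 1
  n2 : 2 * Real.exp (-(49 / 25) * y) ≤ 1
  n3 : 9 * Real.exp (5 * y) ≤ Real.exp (6 * y)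
  n4 : 125 * Real.exp (147 / 25 * y) ≤ Real.exp (12 * y)
  n5 : 8 * Real.exp (9 * y) ≤ Real.exp (12 * y)
  n6 : 2 * Real.exp (39 / 50 * y) ≤ Real.exp (6 * y)
  n7 : b * A1 * y * Real.exp (-1 * y) ≤ Real.exp (-(3 / 20) * y)
  n8 : b ^ 2 * A1 * y * Real.exp (-(1 / 25) * y) ≤ 1
  n9 : 8 * b ^ 3 * A1 ^ 2 * y ^ 2 * Real.exp (-(59 / 100) * y) ≤ Real.exp (-(1 / 25) * y)
  n10 : 32 * b ^ 3 * CQ * A1 * y ^ 3 * Real.exp (-(1 / 20) * y) ≤ Real.exp (-(1 / 25) * y)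
  n11 : 2 * b ^ 2 * Real.exp (-(1 / 50) * y) ≤ 1
  n12 : 32 * b ^ 2 * CQ * y ^ 2 * Real.exp (-(33 / 100) * y) ≤ Real.exp (-(3 / 10) * y)
  n13 : 4 * b ^ 2 * A1 ^ 2 * y ^ 2 * Real.exp (-(7 / 5) * y) ≤ Real.exp (-(3 / 10) * y)
  n14 : 24 * A1 * y * Real.exp (-(1 / 25) * y) ≤ Real.exp (-(1 / 50) * y)
  n15 : 48 * b ^ 4 * A1 ^ 3 * y ^ 3 * Real.exp (-(2 / 25) * y) ≤ Real.exp (-(1 / 50) * y)
  n16 : 4 * K6 * Real.exp (-(1 / 4) * y) ≤ Real.exp (-(1 / 50) * y)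
  n17 : 4 * Real.exp (-1 * y) ≤ Real.exp (-(1 / 50) * y)
  n18 : 2 * b ^ 2 * A1 * y * Real.exp (-2 * y) ≤ Real.exp (-1 * y)
  n19 : 4 * (Real.exp (y / 100) + y + 1) ≤ 1 / 2 * Real.exp (89 / 100 * y)
  n20 : 80 * K * Real.exp (-(3 / 40) * y) ≤ Real.exp (-(3 / 200) * y)
  n21 : 2 * Real.exp (-(1 / 50) * y) ≤ Real.exp (-(3 / 200) * y)
  n22 : 4 * A1 * y * Real.exp (-(3 / 40) * y) ≤ Real.exp (-(3 / 250) * y)
  n23 : 12 * (2 * d + 1) * Real.exp (-(367 / 200) * y) ≤ Real.exp (-(3 / 250) * y)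
  n24 : 10 * K * Real.exp (-(3 / 250) * y) ≤ 1
  n25 : 4 * (2 * d + 1) * Real.exp (-(39 / 50) * y) ≤ 1
  n26 : 10 * Real.exp (-(49 / 50) * y) ≤ 1
  n27 : (K * (10 * K + 21) + 2) * Real.exp (-(3 / 250) * y) ≤ Real.exp (-(11 / 1000) * y)
  n28 : ((4 * A1 + 8 * d) ^ 2 + 2 * d * (4 * A1 + 8 * d) + 1) * y ^ 2 *
    Real.exp (-(211 / 100) * y) ≤ Real.exp (-(11 / 1000) * y)
  n29 : 2 * d * Real.exp (-(39 / 50) * y) ≤ Real.exp (-(11 / 1000) * y)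
  n30 : 2 * Real.exp (6 * y) ≤ Real.exp (7 * y)
  n31 : 48 * A1 * c ^ 2 * y * Real.exp (-(7 / 2000) * y) ≤ 1
  n32 : (12 * d + 12) * (Real.exp (y / 100) + y + 1) ≤ Real.exp (1 / 80 * y)
  n33 : (12 * d + 12) * (Real.exp (y / 100) + y + 1) ≤ 1 / (4 * b ^ 2) * Real.exp (1 / 25 * y)
  n34 : (24 * d + 24) * (Real.exp (y / 100) + y + 1) ≤ 1 / 2 * Real.exp (3 / 40 * y)

theorem numOK2 (d : ℕ) (b c A1 CQ K K6 : ℝ) (hb : 0 < b) :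
    ∀ᶠ y : ℝ in atTop, NumOK2 d b c A1 CQ K K6 y := by
  filter_upwards [eventually_ge_atTop 1, ev2 128 (-(3 / 20)) 0 0 (by norm_num),
    ev2 2 (-(49 / 25)) 0 0 (by norm_num), ev2 9 5 6 0 (by norm_num),
    ev2 125 (147 / 25) 12 0 (by norm_num), ev2 8 9 12 0 (by norm_num),
    ev2 2 (39 / 50) 6 0 (by norm_num), ev2 (b * A1) (-1) (-(3 / 20)) 1 (by norm_num),
    ev2 (b ^ 2 * A1) (-(1 / 25)) 0 1 (by norm_num),
    ev2 (8 * b ^ 3 * A1 ^ 2) (-(59 / 100)) (-(1 / 25)) 2 (by norm_num),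
    ev2 (32 * b ^ 3 * CQ * A1) (-(1 / 20)) (-(1 / 25)) 3 (by norm_num),
    ev2 (2 * b ^ 2) (-(1 / 50)) 0 0 (by norm_num),
    ev2 (32 * b ^ 2 * CQ) (-(33 / 100)) (-(3 / 10)) 2 (by norm_num),
    ev2 (4 * b ^ 2 * A1 ^ 2) (-(7 / 5)) (-(3 / 10)) 2 (by norm_num),
    ev2 (24 * A1) (-(1 / 25)) (-(1 / 50)) 1 (by norm_num),
    ev2 (48 * b ^ 4 * A1 ^ 3) (-(2 / 25)) (-(1 / 50)) 3 (by norm_num),
    ev2 (4 * K6) (-(1 / 4)) (-(1 / 50)) 0 (by norm_num),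
    ev2 4 (-1) (-(1 / 50)) 0 (by norm_num),
    ev2 (2 * b ^ 2 * A1) (-2) (-1) 1 (by norm_num),
    ev4 4 (1 / 2) (89 / 100) (by norm_num) (by norm_num),
    ev2 (80 * K) (-(3 / 40)) (-(3 / 200)) 0 (by norm_num),
    ev2 2 (-(1 / 50)) (-(3 / 200)) 0 (by norm_num),
    ev2 (4 * A1) (-(3 / 40)) (-(3 / 250)) 1 (by norm_num),
    ev2 (12 * (2 * d + 1)) (-(367 / 200)) (-(3 / 250)) 0 (by norm_num),
    ev2 (10 * K) (-(3 / 250)) 0 0 (by norm_num),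
    ev2 (4 * (2 * d + 1)) (-(39 / 50)) 0 0 (by norm_num),
    ev2 10 (-(49 / 50)) 0 0 (by norm_num),
    ev2 (K * (10 * K + 21) + 2) (-(3 / 250)) (-(11 / 1000)) 0 (by norm_num),
    ev2 ((4 * A1 + 8 * d) ^ 2 + 2 * d * (4 * A1 + 8 * d) + 1) (-(211 / 100)) (-(11 / 1000)) 2
      (by norm_num),
    ev2 (2 * d) (-(39 / 50)) (-(11 / 1000)) 0 (by norm_num),
    ev2 2 6 7 0 (by norm_num),
    ev2 (48 * A1 * c ^ 2) (-(7 / 2000)) 0 1 (by norm_num),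
    ev4 (12 * d + 12) 1 (1 / 80) (by norm_num) (by norm_num),
    ev4 (12 * d + 12) (1 / (4 * b ^ 2)) (1 / 25) (by positivity) (by norm_num),
    ev4 (24 * d + 24) (1 / 2) (3 / 40) (by norm_num) (by norm_num)] with
    y h1 h2 h3 h4 h5 h6 h7 h8 h9 h10 h11 h12 h13 h14 h15 h16 h17 h18 h19 h20 h21 h22 h23 h24 h25
      h26 h27 h28 h29 h30 h31 h32 h33 h34 h35
  simp only [pow_zero, mul_one, pow_one, zero_mul, Real.exp_zero, one_mul] at h2 h3 h4 h5 h6 h7 h8 h9 h12 h15 h17 h18 h19 h21 h22 h23 h24 h25 h26 h27 h28 h30 h31 h32 h33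
  constructor <;> first | assumption | linarith

end Pool.Agent.TH794.LL2
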