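import Pool.Agent.TH794.LL2.Num2

/-! The probability estimate for the local law. -/

set_option autoImplicit false

namespace Pool.Agent.TH794.LL2

open Pool.Agent.W788.BK.Num

theorem pr1b (d : ℕ) (b c A1 CQ K K6 y : ℝ) (hN : NumOK2 d b c A1 CQ K K6 y)
    (Y ρ δ κ σ g1 : ℝ) (L p : ℕ)
    (hY : Y = Real.exp (y / 100)) (hρ : ρ = Real.exp Y) (hL : (L : ℝ) ≤ Real.exp (7 * y))
    (hδ : δ⁻¹ = Real.exp (49 / 25 * y)) (hδ0 : 0 < δ)
    (hκ : κ⁻¹ = Real.exp (3 / 250 * y)) (hκ0 : 0 < κ)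
    (hσ : σ = Real.exp (-1 * y)) (hg10 : 0 ≤ g1) (hg1 : g1 ≤ A1 * y)
    (hp : p = ⌈Real.exp (1 / 80 * y)⌉₊) :
    (3 * ρ) ^ d * ((8 * d / δ) * ((8 * p * g1 * c ^ 2 * σ ^ 2 / (δ * κ ^ 2)) ^ p *
      (L : ℝ) ^ d)) ≤ Real.exp (-Y - 2) := by
  obtain ⟨f1, f2⟩ := fac d y Y ρ L hρ hL
  have hy1 := hN.y1
  have hY0 : 0 < Y := by rw [hY]; positivity
  have hdY : 0 ≤ d * Y := by positivity
  have hdy : 0 ≤ d * y := by positivity
  have hρ0 : 0 < ρ := by rw [hρ]; positivity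
  have h3ρ0 : 0 ≤ (3 * ρ) ^ d := by positivity
  obtain ⟨X, hX⟩ : ∃ X : ℝ, X = 8 * p * g1 * c ^ 2 * σ ^ 2 / (δ * κ ^ 2) := ⟨_, rfl⟩
  rw [← hX]
  have hX0 : 0 ≤ X := by rw [hX]; positivity
  have hp1 : Real.exp (1 / 80 * y) ≤ p := by
    rw [hp]
    exact Nat.le_ceil _
  have hp2 : (p : ℝ) ≤ 2 * Real.exp (1 / 80 * y) := by
    have h1 := Nat.ceil_lt_add_one (show 0 ≤ Real.exp (1 / 80 * y) by positivity)
    rw [← hp] at h1
    have h2 : (1 : ℝ) ≤ Real.exp (1 / 80 * y) := Real.one_le_exp (by linarith)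
    linarith
  have hX1 : X ≤ 1 / 3 := by
    calc X = 8 * p * g1 * c ^ 2 * σ ^ 2 * (δ⁻¹ * κ⁻¹ ^ 2) := by
          rw [hX, div_eq_mul_inv, mul_inv, inv_pow]
      _ ≤ 8 * (2 * Real.exp (1 / 80 * y)) * (A1 * y) * c ^ 2 * Real.exp (-1 * y) ^ 2 *
          (Real.exp (49 / 25 * y) * Real.exp (3 / 250 * y) ^ 2) := by
          rw [hδ, hκ, hσ]
          gcongr
      _ = 1 / 3 * (48 * A1 * c ^ 2 * y * (Real.exp (1 / 80 * y) * Real.exp (-1 * y) ^ 2 *
          (Real.exp (49 / 25 * y) * Real.exp (3 / 250 * y) ^ 2))) := by ring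
      _ = 1 / 3 * (48 * A1 * c ^ 2 * y * Real.exp (-(7 / 2000) * y)) := by
          rw [ex_pow, ex_pow, ex_mul, ex_mul, ex_mul]
          norm_num
      _ ≤ 1 / 3 := by
          have := hN.n31
          linarith
  have hX2 : X ≤ Real.exp (-1) := by
    have h1 := Real.exp_one_lt_three
    have h2 : (1 : ℝ) / 3 ≤ (Real.exp 1)⁻¹ := by
      rw [one_div]
      exact inv_anti₀ (Real.exp_pos _) h1.le
    rw [Real.exp_neg]
    linarith
  have hXp : X ^ p ≤ Real.exp (-Real.exp (1 / 80 * y)) := by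
    calc X ^ p ≤ (Real.exp (-1)) ^ p := pow_le_pow_left₀ hX0 hX2 p
      _ = Real.exp (-(p : ℝ)) := by
        rw [← Real.exp_nat_mul]
        congr 1
        ring
      _ ≤ _ := Real.exp_le_exp.2 (neg_le_neg hp1)
  have h8 : 8 * d / δ ≤ Real.exp (8 * d) * Real.exp (49 / 25 * y) := by
    rw [div_eq_mul_inv, hδ]
    have := Real.add_one_le_exp (8 * (d : ℝ))
    have h9 : 8 * (d : ℝ) ≤ Real.exp (8 * d) := by linarith
    gcongr
  have h80 : 0 ≤ 8 * d / δ := by positivity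
  calc (3 * ρ) ^ d * ((8 * d / δ) * (X ^ p * (L : ℝ) ^ d)) ≤
      Real.exp (d * (2 + Y)) * ((Real.exp (8 * d) * Real.exp (49 / 25 * y)) *
        (Real.exp (-Real.exp (1 / 80 * y)) * Real.exp (7 * d * y))) := by gcongr
    _ = Real.exp (d * (2 + Y) + ((8 * d + 49 / 25 * y) +
        (-Real.exp (1 / 80 * y) + 7 * d * y))) := by
        rw [← Real.exp_add, ← Real.exp_add, ← Real.exp_add, ← Real.exp_add]
    _ ≤ Real.exp (-Y - 2) := by
        apply Real.exp_le_exp.2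
        have h1 := hN.n32
        rw [← hY] at h1
        clear hX hX0 hX1 hX2 hXp h8 h80 hp1 hp2 f1 f2 h3ρ0
        linarith

theorem pr2b (d : ℕ) (b c A1 CQ K K6 y : ℝ) (hb : 0 < b) (hN : NumOK2 d b c A1 CQ K K6 y)
    (Y ρ τ β N cnt : ℝ) (L : ℕ)
    (hY : Y = Real.exp (y / 100)) (hρ : ρ = Real.exp Y) (hL : (L : ℝ) ≤ Real.exp (7 * y))
    (hNL : N = (L : ℝ) ^ d) (hN0 : 0 < N) (hτ : τ = Real.exp (-(43 / 20) * y))
    (hβ : β = b * Real.exp (-1 * y)) (hcnt1 : 1 ≤ cnt)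
    (hcnt2 : cnt ≤ 2 * Real.exp (-(117 / 50) * y) * N) :
    (3 * ρ) ^ d * (2 * N * Real.exp (-(τ ^ 2 * N / (2 * β ^ 2 * cnt)))) ≤
      Real.exp (-Y - 2) := by
  obtain ⟨f1, f2⟩ := fac d y Y ρ L hρ hL
  have hy1 := hN.y1
  have hY0 : 0 < Y := by rw [hY]; positivity
  have hdY : 0 ≤ d * Y := by positivity
  have hdy : 0 ≤ d * y := by positivity
  have hρ0 : 0 < ρ := by rw [hρ]; positivity
  have hβ0 : 0 < β := by rw [hβ]; positivity
  have h3ρ0 : 0 ≤ (3 * ρ) ^ d := by positivity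
  have h1 : 1 / (4 * b ^ 2) * Real.exp (1 / 25 * y) ≤ τ ^ 2 * N / (2 * β ^ 2 * cnt) := by
    rw [le_div_iff₀ (by positivity)]
    calc 1 / (4 * b ^ 2) * Real.exp (1 / 25 * y) * (2 * β ^ 2 * cnt) ≤
        1 / (4 * b ^ 2) * Real.exp (1 / 25 * y) * (2 * (b * Real.exp (-1 * y)) ^ 2 *
          (2 * Real.exp (-(117 / 50) * y) * N)) := by
          rw [hβ]
          gcongr
      _ = (Real.exp (1 / 25 * y) * Real.exp (-1 * y) ^ 2 * Real.exp (-(117 / 50) * y)) * N := by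
          field_simp
          ring
      _ = τ ^ 2 * N := by
          rw [hτ, ex_pow, ex_pow, ex_mul, ex_mul]
          norm_num
      _ ≤ _ := le_rfl
  have h2 : N ≤ Real.exp (7 * d * y) := by
    rw [hNL]
    exact f2
  have h3 : (2 : ℝ) ≤ Real.exp 1 := by
    have he1 := Real.exp_one_gt_d9
    linarith
  calc (3 * ρ) ^ d * (2 * N * Real.exp (-(τ ^ 2 * N / (2 * β ^ 2 * cnt)))) ≤
      Real.exp (d * (2 + Y)) * (Real.exp 1 * Real.exp (7 * d * y) *
        Real.exp (-(1 / (4 * b ^ 2) * Real.exp (1 / 25 * y)))) := by gcongr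
    _ = Real.exp (d * (2 + Y) + ((1 + 7 * d * y) +
        (-(1 / (4 * b ^ 2) * Real.exp (1 / 25 * y))))) := by
        rw [← Real.exp_add, ← Real.exp_add, ← Real.exp_add]
    _ ≤ Real.exp (-Y - 2) := by
        apply Real.exp_le_exp.2
        have h1 := hN.n33
        rw [← hY] at h1
        clear f1 f2 h3ρ0 h2 h3 hcnt1 hcnt2 hN0 hNL
        linarith

theorem pr3b (d : ℕ) (b c A1 CQ K K6 y : ℝ) (hN : NumOK2 d b c A1 CQ K K6 y)
    (Y ρ D : ℝ) (L M : ℕ)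
    (hY : Y = Real.exp (y / 100)) (hρ : ρ = Real.exp Y) (hL : (L : ℝ) ≤ Real.exp (7 * y))
    (hD : D = Real.exp (-(3 / 20) * y))
    (hM2 : (2 * M + 1 : ℝ) ≤ (4 * d + 5) * Real.exp (633 / 100 * y)) :
    (3 * ρ) ^ d * ((2 * M + 1) * (2 * Real.exp (1 / 2 - 1 / Real.sqrt (2 * D)))) ≤
      Real.exp (-Y - 2) := by
  obtain ⟨f1, f2⟩ := fac d y Y ρ L hρ hL
  have hy1 := hN.y1
  have hY0 : 0 < Y := by rw [hY]; positivity
  have hdY : 0 ≤ d * Y := by positivity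
  have hdy : 0 ≤ d * y := by positivity
  have hρ0 : 0 < ρ := by rw [hρ]; positivity
  have h3ρ0 : 0 ≤ (3 * ρ) ^ d := by positivity
  have h1 : 1 / 2 * Real.exp (3 / 40 * y) ≤ 1 / Real.sqrt (2 * D) := by
    have h4 : Real.sqrt (2 * D) ≤ 2 * Real.exp (-(3 / 40) * y) := by
      rw [Real.sqrt_le_left (by positivity), mul_pow, ex_pow, hD]
      have : 0 < Real.exp (-(3 / 20 * y)) := by positivity
      norm_num
      linarith
    have h5 : 0 < Real.sqrt (2 * D) := Real.sqrt_pos.2 (by rw [hD]; positivity)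
    rw [le_div_iff₀ h5]
    calc 1 / 2 * Real.exp (3 / 40 * y) * Real.sqrt (2 * D) ≤
        1 / 2 * Real.exp (3 / 40 * y) * (2 * Real.exp (-(3 / 40) * y)) := by gcongr
      _ = Real.exp (3 / 40 * y) * Real.exp (-(3 / 40) * y) := by ring
      _ = 1 := by
        rw [ex_mul]
        norm_num
  have h2 : (4 * (d : ℝ) + 5) ≤ Real.exp (4 * d + 5) := by
    have := Real.add_one_le_exp (4 * (d : ℝ) + 5)
    linarith
  have h6 : (2 : ℝ) ≤ Real.exp 1 := by
    have he1 := Real.exp_one_gt_d9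
    linarith
  calc (3 * ρ) ^ d * ((2 * M + 1) * (2 * Real.exp (1 / 2 - 1 / Real.sqrt (2 * D)))) ≤
      Real.exp (d * (2 + Y)) * ((Real.exp (4 * d + 5) * Real.exp (633 / 100 * y)) *
        (Real.exp 1 * Real.exp (1 / 2 - 1 / 2 * Real.exp (3 / 40 * y)))) := by
        have h3 : (2 * M + 1 : ℝ) ≤ Real.exp (4 * d + 5) * Real.exp (633 / 100 * y) :=
          hM2.trans (mul_le_mul_of_nonneg_right h2 (Real.exp_pos _).le)
        gcongr
    _ = Real.exp (d * (2 + Y) + ((4 * d + 5 + 633 / 100 * y) +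
        (1 + (1 / 2 - 1 / 2 * Real.exp (3 / 40 * y))))) := by
        rw [← Real.exp_add, ← Real.exp_add, ← Real.exp_add, ← Real.exp_add]
    _ ≤ Real.exp (-Y - 2) := by
        apply Real.exp_le_exp.2
        have h1 := hN.n34
        rw [← hY] at h1
        clear f1 f2 h3ρ0 h2 hM2 h6
        linarith

/-- a small double exponential -/
theorem dexp (d : ℕ) (b c A1 CQ K K6 y : ℝ) (hN : NumOK2 d b c A1 CQ K K6 y) (t T0 : ℝ)
    (ht : t = Real.exp (-(211 / 100) * y)) (hT0 : T0 = Real.exp (3 * y)) :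
    4 / t * Real.exp (-(t * T0 / 2)) ≤ Real.exp (-1 * y) := by
  have hy1 := hN.y1
  have h1 : 4 / t = 4 * Real.exp (211 / 100 * y) := by
    rw [ht, div_eq_mul_inv, ex_inv]
    norm_num
  have h2 : t * T0 = Real.exp (89 / 100 * y) := by
    rw [ht, hT0, ex_mul]
    norm_num
  have h3 : (4 : ℝ) ≤ Real.exp 2 := by
    have he1 := Real.exp_one_gt_d9
    have : Real.exp 2 = Real.exp 1 * Real.exp 1 := by
      rw [← Real.exp_add]
      norm_num
    rw [this]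
    nlinarith
  rw [h1, h2]
  calc 4 * Real.exp (211 / 100 * y) * Real.exp (-(Real.exp (89 / 100 * y) / 2)) ≤
      Real.exp 2 * Real.exp (211 / 100 * y) * Real.exp (-(Real.exp (89 / 100 * y) / 2)) := by
        gcongr
    _ = Real.exp (2 + 211 / 100 * y + -(Real.exp (89 / 100 * y) / 2)) := by
        rw [← Real.exp_add, ← Real.exp_add]
    _ ≤ _ := by
        apply Real.exp_le_exp.2
        have h4 := hN.n19
        have h5 := Real.exp_pos (y / 100)
        linarith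

end Pool.Agent.TH794.LL2
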